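import Pool.Agent.Q57.MC.Prod
import Pool.Agent.Q49.CO.Hyp6

set_option autoImplicit false
set_option linter.unusedSectionVars false
set_option linter.unusedVariables false

/-! # The volumes for `∑ y_j f_j` -/

namespace Pool.Agent.Q57.MC

open MvPolynomial Pool.Agent.W428.MOT Pool.Agent.TH192.MT Pool.Agent.TH192.DT Pool.Agent.Q49.CO

variable {K : Type} [Field K] {R : Type} [CommRing R] (M : Meas K R)

section ren

variable {σ τ J κ : Type} [Fintype σ] [Fintype τ] [Finite J] [Finite κ]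

/-- other names of the variables and of the polynomials -/
theorem vol_ren (v : R) (e : σ ≃ τ) (k : J ≃ κ) (f : J → MvPolynomial σ K)
    (h : κ → MvPolynomial τ K) (hk : ∀ j, h (k j) = rename e (f j)) {W : Set (Pt K σ)}
    (hW : Constr W) {W' : Set (Pt K τ)} (hWW : ∀ z, z ∈ W' ↔ (fun i => z (e i)) ∈ W) (N : ℕ) :
    vol M v h W' N = vol M v f W N := by
  unfold vol
  have h1 : GW h W' N N = {z | (fun q : σ × Fin (N + 1) => z ((e.prodCongr (Equiv.refl _)) q)) ∈
      GW f W N N} := by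
    ext z
    rw [mem_GW, Set.mem_ofPred_eq, mem_GW]
    refine and_congr (hWW _) ?_
    have h2 : ∀ j, aeval (ar z) (h (k j)) =
        aeval (ar fun q : σ × Fin (N + 1) => z ((e.prodCongr (Equiv.refl _)) q)) (f j) := by
      intro j
      rw [hk, aeval_rename]
      rfl
    constructor
    · intro h3 j
      rw [← h2]
      exact h3 _
    · intro h3 i
      obtain ⟨j, rfl⟩ := k.surjective i
      rw [h2]
      exact h3 j
  rw [h1, chi_reindex M _ (constr_GW f hW N N), Fintype.card_congr e]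

theorem ZW_ren (v : R) (e : σ ≃ τ) (k : J ≃ κ) (f : J → MvPolynomial σ K)
    (h : κ → MvPolynomial τ K) (hk : ∀ j, h (k j) = rename e (f j)) {W : Set (Pt K σ)}
    (hW : Constr W) {W' : Set (Pt K τ)} (hWW : ∀ z, z ∈ W' ↔ (fun i => z (e i)) ∈ W) :
    ZW M v h W' = ZW M v f W := by
  ext N
  simp only [ZW, PowerSeries.coeff_mk]
  rw [vol_ren M v e k f h hk hW hWW, vol_ren M v e k f h hk hW hWW]

theorem mem_zero_ren (e : σ ≃ τ) (z : Pt K τ) :
    z ∈ ({0} : Set (Pt K τ)) ↔ (fun i => z (e i)) ∈ ({0} : Set (Pt K σ)) := by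
  rw [Set.mem_singleton_iff, Set.mem_singleton_iff]
  constructor
  · intro h
    rw [h]
    rfl
  · intro h
    funext i
    obtain ⟨j, rfl⟩ := e.surjective i
    exact congrFun h j

end ren

section jets

variable {σ J : Type} [Fintype σ] [Finite J] {v : R} (hv : M.L * v = 1)
include hv

/-- the coefficients are the classes of the jets -/
theorem ZW_coeff (f : J → MvPolynomial σ K) {W : Set (Pt K σ)} (hW : Constr W) (N : ℕ) :
    PowerSeries.coeff N (ZW M v f W) = M.χ _ (JetF f W N) * v ^ (Fintype.card σ * (N + 1)) := by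
  simp only [ZW, PowerSeries.coeff_mk]
  rw [← vol_eq M hv f hW (N + 1) N (by omega), ← vol_eq M hv f hW N N (by omega)]
  have h1 := chi_JetF M f hW N
  linear_combination (-(v ^ (Fintype.card σ * (N + 1)))) * h1

omit hv in
theorem jetF_one (F : MvPolynomial σ K) (W : Set (Pt K σ)) (N : ℕ) :
    JetF (fun _ : Fin 1 => F) W N = JetS F W {c | c ≠ 0} N := by
  ext z
  constructor
  · rintro ⟨h1, h2, j, h3⟩
    exact ⟨h1, fun k hk => h2 0 k hk, h3⟩
  · rintro ⟨h1, h2, h3⟩
    exact ⟨h1, fun _ k hk => h2 k hk, 0, h3⟩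

end jets

section hyp

variable {σ J : Type} [Fintype σ] [Fintype J] {v : R} (hv : M.L * v = 1)
include hv

theorem ZA_zero (f : J → MvPolynomial σ K) {E : Set (AlgebraicClosure K)}
    (h0 : (0 : AlgebraicClosure K) ∉ E) (W : Set (Pt K σ)) :
    ZA M v f (lsy f 0) E W = 0 := by
  ext N
  simp only [ZA, PowerSeries.coeff_mk, map_zero]
  refine volH_none M hv f _ _ h0 N fun z _ => ?_
  have : lsy f 0 = 0 := by
    unfold lsy
    refine Finset.sum_eq_zero fun j _ => ?_
    rw [Pi.zero_apply, C_0, zero_mul]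
  rw [this, map_zero, map_zero]

theorem ZB_zero (f : J → MvPolynomial σ K) (W : Set (Pt K σ)) :
    ZB M v f (lsy f 0) W = ZW M v f W := by
  have : lsy f 0 = 0 := by
    unfold lsy
    refine Finset.sum_eq_zero fun j _ => ?_
    rw [Pi.zero_apply, C_0, zero_mul]
  ext N
  simp only [ZB, ZW, PowerSeries.coeff_mk]
  rw [volH_all M hv f _ N fun z _ => by rw [this, map_zero, map_zero]]

/-- the jets of `∑ y_j f_j` with `y(0) = 0` -/
theorem zu_zero (f : J → MvPolynomial σ K) {E : Set (AlgebraicClosure K)} (hE : CE E)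
    (h0 : (0 : AlgebraicClosure K) ∉ E) {ε : R} (hε : Eps M v E ε) {W : Set (Pt K σ)}
    (hW : Constr W) :
    (PowerSeries.mk fun N => M.χ _ (JetS (uni f) (WY 0 W) E N) *
      v ^ (Fintype.card (J ⊕ σ) * N) * v ^ Fintype.card σ) =
      PowerSeries.C ε * (gG v * ZW M v f W) := by
  rw [zu_eq M f 0 hv hE h0 hε hW, ZA_zero M hv f h0, ZB_zero M hv, zero_add]

/-- the origins `(y, x)`, `x ∈ W`, `y` arbitrary -/
def YF (J : Type) {σ : Type} (W : Set (Pt K σ)) : Set (Pt K (J ⊕ σ)) :=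
  {z | (fun i => z (Sum.inr i)) ∈ W}

omit hv in
theorem constr_YF {W : Set (Pt K σ)} (hW : Constr W) : Constr (YF J W) :=
  hW.preimage (fun (z : Pt K (J ⊕ σ)) (i : σ) => z (Sum.inr i)) fun i => IsPF.coord _

omit hv [Fintype J] in
theorem constr_JetS (F : MvPolynomial σ K) {W : Set (Pt K σ)} (hW : Constr W)
    {E : Set (AlgebraicClosure K)} (hE : CE E) (N : ℕ) : Constr (JetS F W E N) := by
  refine Constr.and (hW.preimage (fun (z : Pt K (σ × Fin (N + 1))) (i : σ) => z (i, 0))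
    fun i => IsPF.coord _) (Constr.and ?_ (hE _ ?_))
  · exact Constr.allLt _ fun k _ => Constr.eqz
      (pf_coeffK (fun z => z) (fun i => IsPF.coord _) _ _)
  · exact pf_coeffK (fun z => z) (fun i => IsPF.coord _) _ _

omit hv in
theorem constr_WY0 {W : Set (Pt K σ)} (hW : Constr W) : Constr (WY (0 : J → K) W) := by
  refine Constr.and (Constr.all fun j => Constr.eq (IsPF.coord _) (IsPF.const _)) ?_
  exact hW.preimage (fun (z : Pt K (J ⊕ σ)) (i : σ) => z (Sum.inr i)) fun i => IsPF.coord _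

omit hv in
/-- the shift of `y` -/
theorem chi_shift (f : J → MvPolynomial σ K) {E : Set (AlgebraicClosure K)} (hE : CE E)
    {W : Set (Pt K σ)} (hW : Constr W) (N : ℕ) :
    M.χ _ (JetS (uni f) (WY 0 W) E (N + 1)) =
      M.χ _ (JetS (uni f) (YF J W) E N) * M.χ σ Set.univ := by
  set F := uni f with hF
  -- splitting off the last coefficients of `x`
  set S : Set (Pt K ((J ⊕ σ) × Fin (N + 1) ⊕ σ)) :=
    {z | (fun i => z (Sum.inl i)) ∈ JetS F (YF J W) E N ∧
      (fun i => z (Sum.inr i)) ∈ (Set.univ : Set (Pt K σ))} with hS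
  have cS : Constr S := Constr.and ((constr_JetS F (constr_YF hW) hE N).preimage
    (fun (z : Pt K ((J ⊕ σ) × Fin (N + 1) ⊕ σ)) (i : (J ⊕ σ) × Fin (N + 1)) =>
      z (Sum.inl i)) fun i => IsPF.coord _) (Constr.univ.preimage
    (fun (z : Pt K ((J ⊕ σ) × Fin (N + 1) ⊕ σ)) (i : σ) => z (Sum.inr i)) fun i => IsPF.coord _)
  rw [← M.prod _ _ (constr_JetS F (constr_YF hW) hE N) Constr.univ, ← hS]
  set Φ : Pt K ((J ⊕ σ) × Fin (N + 1 + 1)) → Pt K ((J ⊕ σ) × Fin (N + 1) ⊕ σ) := fun z =>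
    Sum.elim (fun q => Sum.elim (fun j => z (Sum.inl j, q.2.succ))
      (fun i => z (Sum.inr i, q.2.castSucc)) q.1) fun i => z (Sum.inr i, Fin.last (N + 1)) with hΦ
  set Ψ : Pt K ((J ⊕ σ) × Fin (N + 1) ⊕ σ) → Pt K ((J ⊕ σ) × Fin (N + 1 + 1)) := fun x q =>
    Sum.elim (fun j => Fin.cases (motive := fun _ => AlgebraicClosure K) 0
      (fun i => x (Sum.inl (Sum.inl j, i))) q.2)
      (fun i => Fin.lastCases (motive := fun _ => AlgebraicClosure K) (x (Sum.inr i))
        (fun k => x (Sum.inl (Sum.inr i, k))) q.2) q.1 with hΨ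
  have hΨΦ : ∀ z : Pt K ((J ⊕ σ) × Fin (N + 1 + 1)), (∀ j, z (Sum.inl j, 0) = 0) →
      Ψ (Φ z) = z := by
    intro z hz
    funext q
    rcases q with ⟨(j | i), k⟩
    · refine Fin.cases ?_ (fun k => ?_) k
      · exact (hz j).symm
      · rfl
    · refine Fin.lastCases ?_ (fun k => ?_) k
      · simp only [hΨ, hΦ, Sum.elim_inr, Fin.lastCases_last]
      · simp only [hΨ, hΦ, Sum.elim_inr, Sum.elim_inl, Fin.lastCases_castSucc]
  have hΦΨ : ∀ x, Φ (Ψ x) = x := by
    intro x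
    funext q
    rcases q with ⟨(j | i), k⟩ | i
    · rfl
    · simp only [hΨ, hΦ, Sum.elim_inr, Sum.elim_inl, Fin.lastCases_castSucc]
    · simp only [hΨ, hΦ, Sum.elim_inr, Fin.lastCases_last]
  have key : ∀ z : Pt K ((J ⊕ σ) × Fin (N + 1 + 1)), (∀ j, z (Sum.inl j, 0) = 0) →
      Cg (N + 1) (aeval (ar z) F)
        (PowerSeries.X * aeval (ar fun q => Φ z (Sum.inl q)) F) := by
    intro z hz
    rw [hF, aeval_uni, aeval_uni, Finset.mul_sum]
    have e1 : ∀ j, ar z (Sum.inl j) = PowerSeries.X *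
        ar (fun q => Φ z (Sum.inl q)) (Sum.inl j) := by
      intro j
      ext k
      rcases k with _ | k
      · rw [PowerSeries.coeff_zero_X_mul, coeff_ar_zero, hz]
      · rw [PowerSeries.coeff_succ_X_mul, coeff_ar, coeff_ar]
        by_cases hk : k < N + 1
        · rw [dif_pos (by omega), dif_pos hk]
          rfl
        · rw [dif_neg (by omega), dif_neg hk]
    have e2 : ∀ i, Cg N (ar z (Sum.inr i)) (ar (fun q => Φ z (Sum.inl q)) (Sum.inr i)) := by
      intro i k hk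
      rw [coeff_ar, coeff_ar, dif_pos (by omega), dif_pos (by omega)]
      rfl
    intro k hk
    rw [map_sum, map_sum]
    refine Finset.sum_congr rfl fun j _ => ?_
    rw [e1, mul_assoc]
    rcases k with _ | k
    · rw [PowerSeries.coeff_zero_X_mul, PowerSeries.coeff_zero_X_mul]
    · rw [PowerSeries.coeff_succ_X_mul, PowerSeries.coeff_succ_X_mul]
      exact cg_mul (m := N) (fun _ _ => rfl) (cg_aevalK (f j) N _ _ e2) k (by omega)
  have key2 : ∀ z : Pt K ((J ⊕ σ) × Fin (N + 1 + 1)), (∀ j, z (Sum.inl j, 0) = 0) →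
      (z ∈ JetS F (WY 0 W) E (N + 1) ↔ Φ z ∈ S) := by
    intro z hz
    have k1 := key z hz
    constructor
    · rintro ⟨⟨-, h1⟩, h2, h3⟩
      refine ⟨⟨h1, fun j hj => ?_, ?_⟩, trivial⟩
      · have h4 := h2 (j + 1) (by omega)
        rw [k1 (j + 1) (by omega), PowerSeries.coeff_succ_X_mul] at h4
        exact h4
      · rw [k1 (N + 1) le_rfl, PowerSeries.coeff_succ_X_mul] at h3
        exact h3
    · rintro ⟨⟨h1, h2, h3⟩, -⟩
      refine ⟨⟨fun j => ?_, h1⟩, fun j hj => ?_, ?_⟩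
      · rw [Pi.zero_apply, map_zero]
        exact hz j
      · rw [k1 j (by omega)]
        rcases j with _ | j
        · rw [PowerSeries.coeff_zero_X_mul]
        · rw [PowerSeries.coeff_succ_X_mul]
          exact h2 j (by omega)
      · rw [k1 (N + 1) le_rfl, PowerSeries.coeff_succ_X_mul]
        exact h3
  have hz0 : ∀ z ∈ JetS F (WY 0 W) E (N + 1), ∀ j, z (Sum.inl j, 0) = 0 := by
    intro z hz j
    have := hz.1.1 j
    rw [Pi.zero_apply, map_zero] at this
    exact this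
  refine M.iso _ _ (constr_JetS F (constr_WY0 hW) hE _) cS Φ Ψ
    (regularOn_poly ?_ _) (regularOn_poly ?_ _) ?_ ?_ ?_ ?_
  · rintro (⟨(j | i), k⟩ | i)
    · exact IsPF.coord _
    · exact IsPF.coord _
    · exact IsPF.coord _
  · rintro ⟨(j | i), k⟩
    · refine Fin.cases ?_ (fun k => ?_) k
      · exact IsPF.zero
      · exact IsPF.coord _
    · refine Fin.lastCases ?_ (fun k => ?_) k
      · simp only [hΨ, Sum.elim_inr, Fin.lastCases_last]
        exact IsPF.coord _
      · simp only [hΨ, Sum.elim_inr, Fin.lastCases_castSucc]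
        exact IsPF.coord _
  · intro z hz
    exact (key2 z (hz0 z hz)).1 hz
  · intro x hx
    refine (key2 (Ψ x) fun j => rfl).2 ?_
    rw [hΦΨ]
    exact hx
  · intro z hz
    exact hΨΦ z (hz0 z hz)
  · intro x _
    exact hΦΨ x

/-- `∑_{i ≥ 0} v ^ (i + 1) T ^ i` -/
noncomputable def gH (v : R) : PowerSeries R := PowerSeries.mk fun i => v ^ (i + 1)

omit hv in
theorem gG_gH (v : R) : gG v = PowerSeries.X * gH v := by
  ext N
  rcases N with _ | N
  · rw [PowerSeries.coeff_zero_X_mul]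
    simp [Pool.Agent.Q49.CO.gG]
  · rw [PowerSeries.coeff_succ_X_mul]
    simp [Pool.Agent.Q49.CO.gG, gH]

omit hv in
theorem gH_mem (u : Rˣ) {D : Set (ℤ × ℤ)} (hD : (-1, 1) ∈ D) : gH ((u⁻¹ : Rˣ) : R) ∈ ratU u D := by
  refine geo_solve u (ν := 1) (N := 1) one_pos hD (gH ((u⁻¹ : Rˣ) : R))
    (PowerSeries.C ((u⁻¹ : Rˣ) : R)) (rat_C u _) ?_
  ext N
  have e1 : PowerSeries.C (((u⁻¹ : Rˣ) : R) ^ 1) * PowerSeries.X ^ 1 * gH ((u⁻¹ : Rˣ) : R) =
      PowerSeries.C ((u⁻¹ : Rˣ) : R) * (PowerSeries.X * gH ((u⁻¹ : Rˣ) : R)) := by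
    rw [pow_one, pow_one, mul_assoc]
  rw [e1, map_add, PowerSeries.coeff_C_mul, PowerSeries.coeff_C]
  rcases N with _ | N
  · rw [PowerSeries.coeff_zero_X_mul, mul_zero, add_zero, if_pos rfl]
    simp [gH]
  · rw [PowerSeries.coeff_succ_X_mul, if_neg (by omega), zero_add]
    simp only [gH, PowerSeries.coeff_mk]
    ring

/-- the jets of `∑ y_j f_j`, `y` arbitrary -/
theorem zu_free (f : J → MvPolynomial σ K) {E : Set (AlgebraicClosure K)} (hE : CE E)
    (h0 : (0 : AlgebraicClosure K) ∉ E) {ε : R} (hε : Eps M v E ε) {W : Set (Pt K σ)}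
    (hW : Constr W) :
    (PowerSeries.mk fun N => M.χ _ (JetS (uni f) (YF J W) E N) *
      v ^ (Fintype.card (J ⊕ σ) * (N + 1))) = PowerSeries.C ε * (gH v * ZW M v f W) := by
  have hσ : M.χ σ Set.univ * v ^ Fintype.card σ = 1 := by
    rw [chi_univ, ← mul_pow, hv, one_pow]
  ext N
  have h1 := congrArg (PowerSeries.coeff (N + 1)) (zu_zero M hv f hE h0 hε hW)
  rw [PowerSeries.coeff_mk, chi_shift M f hE hW N, gG_gH, mul_assoc PowerSeries.X,
    PowerSeries.coeff_C_mul, PowerSeries.coeff_succ_X_mul] at h1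
  rw [PowerSeries.coeff_mk, PowerSeries.coeff_C_mul, ← h1]
  linear_combination (-(M.χ _ (JetS (uni f) (YF J W) E N) *
    v ^ (Fintype.card (J ⊕ σ) * (N + 1)))) * hσ

theorem ZW_free (f : J → MvPolynomial σ K) {W : Set (Pt K σ)} (hW : Constr W) :
    ZW M v (fun _ : Fin 1 => uni f) (YF J W) =
      PowerSeries.C (M.L - 1) * (gH v * ZW M v f W) := by
  rw [← zu_free M hv f ce_ne (fun h => h rfl) (eps_ne M hv) hW]
  ext N
  rw [ZW_coeff M hv _ (constr_YF hW), jetF_one, PowerSeries.coeff_mk]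

theorem ZW_hyp0 (f : J → MvPolynomial σ K) {W : Set (Pt K σ)} (hW : Constr W) :
    ZW M v (fun _ : Fin 1 => uni f) (WY 0 W) =
      PowerSeries.C (v ^ Fintype.card J) * (PowerSeries.C (M.L - 1) * (gG v * ZW M v f W)) := by
  rw [← zu_zero M hv f ce_ne (fun h => h rfl) (eps_ne M hv) hW]
  ext N
  rw [ZW_coeff M hv _ (constr_WY0 hW), jetF_one, PowerSeries.coeff_C_mul, PowerSeries.coeff_mk,
    Fintype.card_sum, mul_add (Fintype.card J + Fintype.card σ) N 1, mul_one, pow_add v _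
      (Fintype.card J + Fintype.card σ), pow_add v (Fintype.card J) (Fintype.card σ)]
  ring

end hyp

end Pool.Agent.Q57.MC
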