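import Pool.Agent.Q57.MC.Loc

set_option autoImplicit false
set_option linter.unusedSectionVars false

/-! # The functional equation of `∑ y_j f_j` from a local one of the ideal -/

namespace Pool.Agent.Q57.MC

open MvPolynomial Pool.Agent.W574.SM Pool.Agent.W574.HS Pool.Agent.W574.LM Pool.Agent.W366.SI

section

variable {σ ι : Type} [Fintype ι] [DecidableEq ι]

/-- the local functional equation of an ideal gives one of `∑ y_j f_j` -/
theorem univ_of_locEq [DecidableEq σ] (H : MvPolynomial σ ℂ) (f : ι → MvPolynomial σ ℂ)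
    (b : Polynomial ℂ) (hb : IsLocEq H f b) :
    ∃ Q ∈ Pool.Agent.H628R4.TP.weylS (ι ⊕ σ), ∀ s : ℕ, rename Sum.inr H *
      (C (((Polynomial.X + 1) * b).eval (s : ℂ)) * univ f ^ s) = Q (univ f ^ (s + 1)) := by
  classical
  obtain ⟨S, P, hS, hP⟩ := hb
  set cf : (ι → ℤ) → ℂ := fun c => ∏ j, (((-c j).toNat.factorial : ℕ) : ℂ) with hcf
  have hcf0 : ∀ c, cf c ≠ 0 := by
    intro c
    rw [hcf]
    refine Finset.prod_ne_zero_iff.2 fun j _ => ?_
    exact_mod_cast Nat.factorial_ne_zero _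
  have hfall : ∀ (c : ι → ℤ) (α : ι →₀ ℕ), (fall c α : ℂ) = cf c *
      ((∏ j, (if c j < 0 then (α j).choose (-c j).toNat else 1) : ℕ) : ℂ) := by
    intro c α
    have : fall c α = (∏ j, (-c j).toNat.factorial) *
        ∏ j, (if c j < 0 then (α j).choose (-c j).toNat else 1) := by
      rw [fall, ← Finset.prod_mul_distrib]
      refine Finset.prod_congr rfl fun j _ => ?_
      split_ifs with h
      · rw [Nat.descFactorial_eq_factorial_mul_choose]
      · have h0 : (-c j).toNat = 0 := by omega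
        rw [h0]; simp
    rw [this, hcf]
    push_cast
    rfl
  have hlift : Lift (fun (H : (ι →₀ ℕ) → MvPolynomial σ ℂ) α => ∑ c ∈ S, ∑ β ∈ (P c).support,
      evN α (monomial β 1) • (P c β : Module.End ℂ (MvPolynomial σ ℂ))
        ((cf c)⁻¹ • (fall c α : ℂ) • H (sh α c))) :=
    lift_sum S _ fun c _ => lift_sum _ _ fun β _ =>
      lift_poly _ _ (lift_weyl _ (P c β).2 _ (lift_smul (lift_sh c lift_id) _))
  obtain ⟨Q, mQ, hQ⟩ := hlift
  refine ⟨Q, mQ, fun s => ?_⟩
  apply hat_inj
  rw [hQ]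
  funext α
  rw [hat_r, hat_C_mul, hat_univ_pow]
  have hsum : ∀ c ∈ S, fall c α ≠ 0 → ((∑ j, sh α c j = s + 1) ↔ (∑ j, α j = s)) := by
    intro c hc h0
    have hpos : ∀ j, 0 ≤ (α j : ℤ) + c j := by
      intro j
      by_contra hj
      refine h0 (Finset.prod_eq_zero (Finset.mem_univ j) ?_)
      rw [Nat.descFactorial_eq_zero_iff_lt]
      omega
    have h1 : ((∑ j, sh α c j : ℕ) : ℤ) = (∑ j, α j : ℕ) + 1 := by
      rw [← hS c hc]
      push_cast
      rw [← Finset.sum_add_distrib]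
      refine Finset.sum_congr rfl fun j _ => ?_
      rw [sh_apply, Int.toNat_of_nonneg (hpos j)]
    constructor
    · intro h
      rw [h] at h1
      have : ((s : ℕ) : ℤ) = ((∑ j, α j : ℕ) : ℤ) := by
        rw [Nat.cast_add, Nat.cast_one] at h1
        exact add_right_cancel h1
      exact_mod_cast this.symm
    · intro h
      rw [h] at h1
      exact_mod_cast h1
  by_cases hα : ∑ j, α j = s
  · rw [if_pos hα]
    have hk := hP (fun j => α j)
    simp only [hα] at hk
    have hterm : ∀ c ∈ S, (∑ β ∈ (P c).support,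
        evN α (monomial β 1) • (P c β : Module.End ℂ (MvPolynomial σ ℂ))
          ((cf c)⁻¹ • (fall c α : ℂ) • hat (univ f ^ (s + 1)) (sh α c))) =
        ((s + 1).factorial : ℂ) • applyAt (P c) (fun j => α j)
          (C ((∏ j, (if c j < 0 then (α j).choose (-c j).toNat else 1) : ℕ) : ℂ) *
            ∏ j, f j ^ ((α j : ℤ) + c j).toNat) := by
      intro c hc
      rw [applyAt, Finsupp.sum, Finset.smul_sum]
      refine Finset.sum_congr rfl fun β _ => ?_
      have h1 : evN α (monomial β 1) = ∏ j, (α j : ℂ) ^ β j := by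
        rw [evN, eval_monomial, one_mul, Finsupp.prod_fintype]
        intro i
        rw [pow_zero]
      have hin : (cf c)⁻¹ • (fall c α : ℂ) • hat (univ f ^ (s + 1)) (sh α c) =
          ((s + 1).factorial : ℂ) •
            (C ((∏ j, (if c j < 0 then (α j).choose (-c j).toNat else 1) : ℕ) : ℂ) *
              ∏ j, f j ^ ((α j : ℤ) + c j).toNat) := by
        rw [hat_univ_pow]
        by_cases h0 : fall c α = 0
        · have h2 := hfall c α
          rw [h0, Nat.cast_zero] at h2
          have h3 := (mul_eq_zero.1 h2.symm).resolve_left (hcf0 c)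
          rw [h0, h3]
          simp
        · rw [if_pos ((hsum c hc h0).2 hα), hfall, C_mul', smul_smul, smul_smul, smul_smul]
          have h4 : (∏ j, f j ^ (sh α c) j) = ∏ j, f j ^ ((α j : ℤ) + c j).toNat := rfl
          rw [h4]
          congr 1
          rw [mul_comm ((s + 1).factorial : ℂ), mul_assoc, mul_assoc, inv_mul_cancel_left₀ (hcf0 c)]
      rw [hin, map_smul, h1, smul_comm]
    have hterm2 := Finset.sum_congr (rfl : S = S) hterm
    rw [← Finset.smul_sum, ← hk, C_mul'] at hterm2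
    refine Eq.trans ?_ hterm2.symm
    rw [smul_smul, mul_smul_comm, mul_smul_comm, smul_smul]
    congr 1
    rw [Polynomial.eval_mul, Nat.factorial_succ]
    simp only [Polynomial.eval_add, Polynomial.eval_X, Polynomial.eval_one]
    push_cast
    ring
  · rw [if_neg hα, smul_zero, mul_zero]
    refine Eq.symm ?_
    refine Finset.sum_eq_zero fun c hc => Finset.sum_eq_zero fun β _ => ?_
    by_cases h0 : fall c α = 0
    · rw [h0]; simp
    · rw [hat_univ_pow, if_neg fun h => hα ((hsum c hc h0).1 h)]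
      simp


open Pool.Agent.Y229
open Pool.Agent.H628R4.TP (IsLocalBFunction weylS)

/-- **The local functional equation of an ideal gives one of `∑ y_j f_j`.** -/
theorem univ_of_localBI [Finite σ] [DecidableEq σ] (f : ι → MvPolynomial σ ℂ)
    (b : Polynomial ℂ) (hb : IsLocalBI f b) :
    IsLocalBFunction (univ f) ((Polynomial.X + 1) * b) := by
  classical
  obtain ⟨H, hH, hloc⟩ := locEq_of_local f b hb
  obtain ⟨Q, mQ, hQ⟩ := univ_of_locEq H f b hloc
  obtain ⟨u, hu⟩ : IsUnit ((rename Sum.inr H : MvPolynomial (ι ⊕ σ) ℂ) :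
      MvPowerSeries (ι ⊕ σ) ℂ) := by
    rw [MvPowerSeries.isUnit_iff_constantCoeff]
    refine isUnit_iff_ne_zero.2 ?_
    rwa [← MvPowerSeries.coeff_zero_eq_constantCoeff_apply, MvPolynomial.coeff_coe,
      ← constantCoeff_eq, constantCoeff_rename]
  refine ⟨1, fun _ => 0, fun _ => ((u⁻¹ : (MvPowerSeries (ι ⊕ σ) ℂ)ˣ) :
    MvPowerSeries (ι ⊕ σ) ℂ), fun _ => ⟨Q, mQ⟩, fun s => ?_⟩
  have h1 := congrArg (fun x : MvPolynomial (ι ⊕ σ) ℂ => (x : MvPowerSeries (ι ⊕ σ) ℂ)) (hQ s)
  beta_reduce at h1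
  rw [MvPolynomial.coe_mul, MvPolynomial.coe_mul, MvPolynomial.coe_C, ← hu] at h1
  rw [Fin.sum_univ_one, pow_zero, map_one, one_mul]
  change _ = ((u⁻¹ : (MvPowerSeries (ι ⊕ σ) ℂ)ˣ) : MvPowerSeries (ι ⊕ σ) ℂ) *
    ((Q (univ f ^ (s + 1)) : MvPolynomial (ι ⊕ σ) ℂ) : MvPowerSeries (ι ⊕ σ) ℂ)
  rw [← h1, Units.inv_mul_cancel_left]

end

end Pool.Agent.Q57.MC
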