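import Pool.Agent.Q57.MC.Core
import Pool.Agent.Q57.MC.Loc2
import Pool.Agent.Q57.MC.Hyp

set_option autoImplicit false
set_option linter.unusedSectionVars false
set_option linter.unusedVariables false

/-! # The steps of the induction -/

namespace Pool.Agent.Q57.MC

open MvPolynomial Pool.Agent.W428.MOT Pool.Agent.TH192.MT Pool.Agent.TH192.DT Pool.Agent.Q49.CO
open Pool.Agent.Y229
open Pool.Agent.W574.SM (IsFunctionalEq)
open Pool.Agent.W574.LM (IsLocEq)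
open Pool.Agent.W574.RO (Forced mulf)
open Pool.Agent.W574.HS (univ)
open Pool.Agent.W749.JI (fam JInd zetaI)
open Pool.Agent.H628R4.TP (IsBFunction IsLocalBFunction weylS)

section chart

variable {σ J : Type} [Fintype σ] [Fintype J]

/-- the ideal is not zero in a chart -/
theorem ne_of_chart (f : J → MvPolynomial σ ℂ) (A : Chart σ) (hA : A.Fits f)
    (hne : ∃ k, A.h k ≠ 0) (p : σ → ℂ) (hp : A.Mem p) : ∃ j, f j ≠ 0 := by
  classical
  obtain ⟨Ξ, hΞ, -⟩ := transfer_chart f A.h A.a A.s A.w p hp.1 hA hp.2.1 hp.2.2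
  by_contra h0
  push Not at h0
  have h1 : univ f = 0 := by
    unfold univ
    refine Finset.sum_eq_zero fun j _ => ?_
    rw [h0, map_zero, mul_zero]
  rw [h1, map_zero] at hΞ
  have h2 : univ A.h = 0 := by
    apply MvPolynomial.coe_injective
    rw [← hΞ, MvPolynomial.coe_zero]
  exact Pool.Agent.W574.HS.univ_ne_zero A.h hne h2

/-- **Roots from a chart, pointwise.** -/
theorem sf_chart (f : J → MvPolynomial σ ℂ) (A : Chart σ) (hA : A.Fits f)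
    (hne : ∃ k, A.h k ≠ 0) (p : σ → ℂ) (hp : A.Mem p) (α : ℂ)
    (hα : ∀ b, IsLocalBI A.h b → b.eval α = 0) : SF f p α := by
  classical
  refine sf_of_local f p α (fun H b hb hH => ?_) (exists_fe f (ne_of_chart f A hA hne p hp))
  obtain ⟨Ξ, hΞ, hl, hr, hQ⟩ := transfer_chart f A.h A.a A.s A.w p hp.1 hA hp.2.1 hp.2.2
  obtain ⟨Q, mQ, hQ'⟩ := univ_of_locEq H f b hb
  obtain ⟨K, iK, a, D, hD⟩ := hQ Q mQ
  have hcc : ∀ P : MvPolynomial (J ⊕ σ) ℂ, MvPowerSeries.constantCoeff (Ξ P) =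
      eval (Sum.elim 0 p) P := by
    intro P
    have h1 : (MvPowerSeries.constantCoeff (σ := Fin A.r ⊕ Fin A.c) (R := ℂ)).comp
        (Ξ : MvPolynomial (J ⊕ σ) ℂ →+* MvPowerSeries (Fin A.r ⊕ Fin A.c) ℂ) =
        eval (Sum.elim 0 p) := by
      apply MvPolynomial.ringHom_ext
      · intro r
        rw [RingHom.comp_apply, eval_C]
        have h2 : (Ξ : MvPolynomial (J ⊕ σ) ℂ →+* MvPowerSeries (Fin A.r ⊕ Fin A.c) ℂ) (C r) =
            MvPowerSeries.C r := Ξ.commutes r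
        rw [h2, MvPowerSeries.constantCoeff_C]
      · intro x
        rw [RingHom.comp_apply, eval_X]
        rcases x with j | i
        · exact hl j
        · exact hr i
    exact congrArg (fun φ : MvPolynomial (J ⊕ σ) ℂ →+* ℂ => φ P) h1
  obtain ⟨u, hu⟩ : IsUnit (Ξ (rename Sum.inr H)) := by
    rw [MvPowerSeries.isUnit_iff_constantCoeff]
    refine isUnit_iff_ne_zero.2 ?_
    rw [hcc, eval_rename]
    exact hH
  refine hα b (localBI_of_univ A.h hne b ?_)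
  set e := Fintype.equivFin K with he
  refine ⟨Fintype.card K, fun _ => 0, fun l => ((u⁻¹ : (MvPowerSeries (Fin A.r ⊕ Fin A.c) ℂ)ˣ) :
    MvPowerSeries (Fin A.r ⊕ Fin A.c) ℂ) * a (e.symm l), fun l => D (e.symm l), fun n => ?_⟩
  have k1 := congrArg Ξ (hQ' n)
  rw [map_mul, ← hu, C_mul', map_smul, map_pow, hΞ, hD] at k1
  have k2 := congrArg (fun x => ((u⁻¹ : (MvPowerSeries (Fin A.r ⊕ Fin A.c) ℂ)ˣ) :
    MvPowerSeries (Fin A.r ⊕ Fin A.c) ℂ) * x) k1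
  beta_reduce at k2
  rw [Units.inv_mul_cancel_left, Finset.mul_sum] at k2
  rw [MvPolynomial.coe_pow, ← MvPowerSeries.smul_eq_C_mul, k2, ← e.symm.sum_comp]
  refine Finset.sum_congr rfl fun l _ => ?_
  rw [pow_zero, map_one, one_mul, mul_assoc]

end chart

section ser

variable {σ J : Type} [Fintype σ] [Finite J]

/-- the zeta function with and without its term of degree zero -/
theorem zeta_iff {M : Meas ℂ (MK ℂ)} (hL : M.L = ((Lu ℂ : (MK ℂ)ˣ) : MK ℂ))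
    (hχ : ∀ (ι : Type) [Fintype ι] (S : Set (Pt ℂ ι)),
      M.χ ι S = algebraMap (K0 ℂ) (MK ℂ) (cls ι S)) (f : J → MvPolynomial σ ℂ)
    (S : Set (ℤ × ℤ)) : zetaJ f ∈ ratRing ℂ S ↔
      ZW M (((Lu ℂ)⁻¹ : (MK ℂ)ˣ) : MK ℂ) f {0} ∈ ratU (Lu ℂ) S := by
  have h2 := zetaJ_eq hL hχ f
  rw [ratRing_eq]
  constructor
  · intro h
    rw [h2]
    exact Subalgebra.add_mem _ h (rat_C _ _)
  · intro h
    have h3 : zetaJ f = ZW M (((Lu ℂ)⁻¹ : (MK ℂ)ˣ) : MK ℂ) f {0} -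
        PowerSeries.C (PowerSeries.coeff 0 (ZW M (((Lu ℂ)⁻¹ : (MK ℂ)ˣ) : MK ℂ) f {0})) := by
      rw [eq_sub_iff_add_eq]
      exact h2.symm
    rw [h3]
    exact Subalgebra.sub_mem _ h (rat_C _ _)

end ser

/-- **Germs.** -/
theorem germ_case {σ J : Type} [Fintype σ] [Fintype J] (f : J → MvPolynomial σ ℂ) (A : Chart σ)
    (hA : A.Fits f) (h0 : A.Mem 0)
    (ih : (∃ k, A.h k ≠ 0) ∧ ∃ S : Finset (ℤ × ℤ), StrongMC A.h S) :
    (∃ j, f j ≠ 0) ∧ ∃ S : Finset (ℤ × ℤ), StrongMC f S := by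
  classical
  obtain ⟨hne, S, hS, hz⟩ := ih
  refine ⟨ne_of_chart f A hA hne 0 h0, S, fun q hq => ⟨(hS q hq).1, (hS q hq).2.1, fun b hb =>
    (sf_chart f A hA hne 0 h0 _ (hS q hq).2.2).localBI b hb⟩, ?_⟩
  obtain ⟨M, hL, hχ⟩ := exists_meas ℂ
  have hv : M.L * (((Lu ℂ)⁻¹ : (MK ℂ)ˣ) : MK ℂ) = 1 := by rw [hL, Units.mul_inv]
  rw [zeta_iff hL hχ] at hz ⊢
  have h1 : ({0} : Set (Pt ℂ σ)) ⊆ Dom A := by
    intro z hz
    rw [Set.mem_singleton_iff] at hz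
    have h2 : z = fun i => algebraMap ℂ (AlgebraicClosure ℂ) ((0 : σ → ℂ) i) := by
      rw [hz]
      funext i
      exact (map_zero _).symm
    rw [h2]
    exact (mem_Dom A 0).2 h0
  rw [ZW_chart M hv f A.a A.h A.w hA constr_pt0 (indep_Dom A {0} h1) fun z hz => (h1 hz).2.1]
  exact Subalgebra.mul_mem _ (rat_C _ _) hz

theorem sf_forced {σ J : Type} [Fintype σ] [Fintype J] {f : J → MvPolynomial σ ℂ} {p : σ → ℂ}
    {α : ℂ} (h : SF f p α) : Forced f α := by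
  classical
  exact fun b hb => h.locEq 1 b (Pool.Agent.TH192.DT.isLocEq_of_isFunctionalEq hb) (by simp)

/-- **Cones.** -/
theorem cone_case {n r : ℕ} (f : Fin r → MvPolynomial (Fin (n + 1)) ℂ) (d : ℕ) (hd : 0 < d)
    (hf : ∀ j, (f j).IsHomogeneous d)
    (he : ∃ e : Fin (n + 1) → Fin r, (Matrix.of fun s t => pderiv s (f (e t))).det ≠ 0)
    (S : Finset (Chart (Fin (n + 1)))) (hS : ∀ A ∈ S, A.Fits f)
    (hp : ∀ p : Fin (n + 1) → ℂ, p ≠ 0 → (∀ j, eval p (f j) = 0) → ∃ A ∈ S, A.Mem p)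
    (ih : ∀ A ∈ S, (∃ k, A.h k ≠ 0) ∧ ∃ T : Finset (ℤ × ℤ), StrongMC A.h T) :
    (∃ j, f j ≠ 0) ∧ ∃ S : Finset (ℤ × ℤ), StrongMC f S := by
  classical
  have hne := ne_of_det f he
  refine ⟨hne, ?_⟩
  choose T hT' using fun (A : Chart (Fin (n + 1))) (hA : A ∈ S) => (ih A hA).2
  -- the pairs of the charts which contain points
  set P : Finset (Chart (Fin (n + 1))) := S.filter fun A => ∃ p, A.Mem p with hP
  set Q : Finset (ℤ × ℤ) := insert (-((n + 1 : ℕ) : ℤ), (d : ℤ))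
    (P.attach.biUnion fun A => T A.1 (Finset.mem_filter.1 A.2).1) with hQ
  have hsub : ∀ A (hA : A ∈ S), (∃ p, A.Mem p) → T A hA ⊆ Q := by
    intro A hA hp q hq
    refine Finset.mem_insert_of_mem (Finset.mem_biUnion.2 ⟨⟨A, Finset.mem_filter.2 ⟨hA, hp⟩⟩,
      Finset.mem_attach _ _, hq⟩)
  have hroot : ∀ q ∈ Q, q.1 < 0 ∧ 0 < q.2 ∧ Forced f ((q.1 : ℂ) / q.2) := by
    intro q hq
    rcases Finset.mem_insert.1 hq with rfl | hq
    · refine ⟨by simp only; omega, by simp only; omega, fun b hb => ?_⟩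
      obtain ⟨e, he⟩ := he
      have h1 := Pool.Agent.W574.CN.generic_root f d hd hf b hb e he
      rw [← h1]
      congr 2
      push_cast
      rfl
    · obtain ⟨⟨A, hA⟩, -, hq⟩ := Finset.mem_biUnion.1 hq
      obtain ⟨hAS, p, hAp⟩ := Finset.mem_filter.1 hA
      obtain ⟨h1, h2, h3⟩ := (hT' A hAS).1 q hq
      exact ⟨h1, h2, sf_forced (sf_chart f A (hS A hAS) (ih A hAS).1 p hAp _ h3)⟩
  refine ⟨Q, fun q hq => ⟨(hroot q hq).1, (hroot q hq).2.1, fun b hb =>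
    (sf_of_homog f d hf _ (hroot q hq).2.2).localBI b hb⟩, ?_⟩
  obtain ⟨M, hL, hχ⟩ := exists_meas ℂ
  have hv : M.L * (((Lu ℂ)⁻¹ : (MK ℂ)ˣ) : MK ℂ) = 1 := by rw [hL, Units.mul_inv]
  rw [zeta_iff hL hχ]
  have h2 := ZW_cone M hv f d hf
  rw [Fintype.card_fin] at h2
  refine geo_solve (Lu ℂ) (ν := n + 1) (N := d) hd
    (Finset.mem_coe.2 (Finset.mem_insert_self _ _)) _ _ ?_ h2
  refine Subalgebra.mul_mem _ (Subalgebra.mul_mem _ (rat_C _ _)
    (Subalgebra.pow_mem _ (rat_X _) _)) ?_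
  refine mem_charts M (Lu ℂ) hL f _ S hS _ constr_pt0.compl ?_ fun p hp' hz =>
    hp p (pt_ne_zero p hp') hz
  rintro A hA ⟨p, -, hAp⟩
  rw [← zeta_iff hL hχ]
  exact rat_mono (Lu ℂ) (Finset.coe_subset.2 (hsub A hA ⟨p, hAp⟩)) (hT' A hA).2

section mul

variable {n r n' r' : ℕ}

theorem mulF_eq (f : Fin r → MvPolynomial (Fin n) ℂ) (g : Fin r' → MvPolynomial (Fin n') ℂ)
    (j : Fin r × Fin r') : mulF f g (finProdFinEquiv j) = rename finSumFinEquiv (mulf f g j) := by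
  unfold mulF mulf
  rw [Equiv.symm_apply_apply, map_mul, rename_rename, rename_rename]
  congr 3

theorem elim_zero {σ τ : Type} : (Sum.elim 0 0 : σ ⊕ τ → ℂ) = 0 := by
  funext x
  rcases x with x | x <;> rfl

/-- **Products.** -/
theorem mul_case (f : Fin r → MvPolynomial (Fin n) ℂ) (g : Fin r' → MvPolynomial (Fin n') ℂ)
    (ihf : (∃ k, f k ≠ 0) ∧ ∃ S : Finset (ℤ × ℤ), StrongMC f S)
    (ihg : (∃ k, g k ≠ 0) ∧ ∃ S : Finset (ℤ × ℤ), StrongMC g S) :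
    (∃ k, mulF f g k ≠ 0) ∧ ∃ S : Finset (ℤ × ℤ), StrongMC (mulF f g) S := by
  classical
  obtain ⟨hf, S, hS, hzf⟩ := ihf
  obtain ⟨hg, T, hT, hzg⟩ := ihg
  have hsf : ∀ (m k : ℕ) (F : Fin k → MvPolynomial (Fin m) ℂ) (hF : ∃ j, F j ≠ 0) (α : ℂ),
      (∀ b, IsLocalBI F b → b.eval α = 0) → SF F 0 α := by
    intro m k F hF α h
    refine sf_of_local F 0 α (fun H b hb hH => h b (localBI_of_locEq H F b ?_ hb)) (exists_fe F hF)
    rwa [← MvPolynomial.eval_zero]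
  have hroot : ∀ α : ℂ, ((∀ b, IsLocalBI f b → b.eval α = 0) ∨
      (∀ b, IsLocalBI g b → b.eval α = 0)) → ∀ b, IsLocalBI (mulF f g) b → b.eval α = 0 := by
    intro α h
    have h1 : SF (mulf f g) (Sum.elim 0 0) α := by
      rcases h with h | h
      · exact sf_mul f g 0 0 α (hsf _ _ f hf α h) hg
      · exact sf_mul' f g 0 0 α (hsf _ _ g hg α h) hf
    have h2 : SF (mulF f g) 0 α := by
      refine sf_equiv finSumFinEquiv finProdFinEquiv (mulf f g) (mulF f g) (mulF_eq f g) 0 α ?_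
      rw [elim_zero] at h1
      exact h1
    exact h2.localBI
  refine ⟨?_, S ∪ T, ?_, ?_⟩
  · obtain ⟨j, hj⟩ := hf
    obtain ⟨k, hk⟩ := hg
    refine ⟨finProdFinEquiv (j, k), ?_⟩
    unfold mulF
    rw [Equiv.symm_apply_apply]
    refine mul_ne_zero ?_ ?_
    · rwa [Ne, map_eq_zero_iff _ (rename_injective _ (Fin.castAdd_injective _ _))]
    · rwa [Ne, map_eq_zero_iff _ (rename_injective _ (Fin.natAdd_injective _ _))]
  · intro q hq
    rcases Finset.mem_union.1 hq with hq | hq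
    · obtain ⟨h1, h2, h3⟩ := hS q hq
      exact ⟨h1, h2, hroot _ (Or.inl h3)⟩
    · obtain ⟨h1, h2, h3⟩ := hT q hq
      exact ⟨h1, h2, hroot _ (Or.inr h3)⟩
  · obtain ⟨M, hL, hχ⟩ := exists_meas ℂ
    have hv : M.L * (((Lu ℂ)⁻¹ : (MK ℂ)ˣ) : MK ℂ) = 1 := by rw [hL, Units.mul_inv]
    rw [zeta_iff hL hχ] at hzf hzg ⊢
    have h1 := ZW_mulK M hv f g (W := {0}) (W' := {0}) constr_pt0 constr_pt0
    rw [PW_zero] at h1
    have h2 : ZW M (((Lu ℂ)⁻¹ : (MK ℂ)ˣ) : MK ℂ) (mulF f g) {0} =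
        ZW M (((Lu ℂ)⁻¹ : (MK ℂ)ˣ) : MK ℂ) (mulK f g) {0} :=
      ZW_ren M _ finSumFinEquiv finProdFinEquiv (mulK f g) (mulF f g) (mulF_eq f g) constr_pt0
        (mem_zero_ren _)
    rw [h2, h1]
    refine Subalgebra.mul_mem _ (rat_mono (Lu ℂ) ?_ hzf) (rat_mono (Lu ℂ) ?_ hzg)
    · exact fun q hq => Finset.mem_coe.2 (Finset.mem_union_left _ (Finset.mem_coe.1 hq))
    · exact fun q hq => Finset.mem_coe.2 (Finset.mem_union_right _ (Finset.mem_coe.1 hq))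

end mul

end Pool.Agent.Q57.MC
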