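import Pool.Agent.Q57.MC.TDefs

set_option autoImplicit false

/-! # Global families -/

namespace Pool.Agent.Q57.MC

open MvPolynomial

/-- The class of families of polynomials on `ℂ ^ n`: families which are covered by charts with germs
of the class `Tower`, products in disjoint sets of variables, and the polynomials `∑ y_j f_j`. -/
inductive Glob : (n r : ℕ) → (Fin r → MvPolynomial (Fin n) ℂ) → Prop
  /-- every common zero of the `f_j` is in a chart of a finite set -/
  | charts {n r : ℕ} (f : Fin r → MvPolynomial (Fin n) ℂ) (S : Finset (Chart (Fin n)))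
      (hS : ∀ A ∈ S, A.Fits f) (hT : ∀ A ∈ S, Tower A.c A.r A.h)
      (hp : ∀ p : Fin n → ℂ, (∀ j, eval p (f j) = 0) → ∃ A ∈ S, A.Mem p) : Glob n r f
  /-- products in disjoint sets of variables -/
  | mul {n r n' r' : ℕ} (f : Fin r → MvPolynomial (Fin n) ℂ)
      (g : Fin r' → MvPolynomial (Fin n') ℂ) (hf : Glob n r f) (hg : Glob n' r' g) :
      Glob (n + n') (r * r') (mulF f g)
  /-- the hypersurface `∑ y_j f_j = 0` -/
  | hyp {n r : ℕ} (f : Fin r → MvPolynomial (Fin n) ℂ) (hf : Glob n r f) :
      Glob (n + r) 1 fun _ => hypF f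

end Pool.Agent.Q57.MC
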