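import Pool.Agent.Q57.MC.Main
import Pool.Agent.Q57.MC.GDefs
import Pool.Agent.TH192.MU.TDefs

set_option autoImplicit false
set_option linter.unusedSectionVars false
set_option linter.unusedVariables false

/-! # The global theorem -/

namespace Pool.Agent.Q57.MC

open MvPolynomial Pool.Agent.W428.MOT Pool.Agent.TH192.MT Pool.Agent.TH192.DT Pool.Agent.Q49.CO
open Pool.Agent.TH192.MU (zetaId)
open Pool.Agent.Y229
open Pool.Agent.W574.SM (IsFunctionalEq)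
open Pool.Agent.W574.LM (IsLocEq)
open Pool.Agent.W574.RO (Forced mulf)
open Pool.Agent.W574.HS (univ)
open Pool.Agent.W749.JI (fam JInd zetaI)
open Pool.Agent.H628R4.TP (IsBFunction IsLocalBFunction weylS)

/-- the pairs are roots at points, and the zeta function is rational -/
def GlobMC {σ J : Type} [Fintype σ] [Fintype J] (f : J → MvPolynomial σ ℂ)
    (S : Finset (ℤ × ℤ)) : Prop :=
  (∀ q ∈ S, q.1 < 0 ∧ 0 < q.2 ∧ ∃ p, SF f p ((q.1 : ℂ) / q.2)) ∧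
  zetaId f ∈ ratRing ℂ (S : Set (ℤ × ℤ))

section ser

variable {σ J : Type} [Fintype σ] [Finite J]

theorem zetaId_eq {M : Meas ℂ (MK ℂ)} (hL : M.L = ((Lu ℂ : (MK ℂ)ˣ) : MK ℂ))
    (hχ : ∀ (ι : Type) [Fintype ι] (S : Set (Pt ℂ ι)),
      M.χ ι S = algebraMap (K0 ℂ) (MK ℂ) (cls ι S)) (f : J → MvPolynomial σ ℂ) :
    zetaId f = PowerSeries.C (((Lu ℂ : (MK ℂ)ˣ) : MK ℂ) ^ Fintype.card σ) *
      ZW M (((Lu ℂ)⁻¹ : (MK ℂ)ˣ) : MK ℂ) f Set.univ := by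
  have hv : M.L * (((Lu ℂ)⁻¹ : (MK ℂ)ˣ) : MK ℂ) = 1 := by rw [hL, Units.mul_inv]
  ext N
  rw [PowerSeries.coeff_C_mul, ZW_coeff M hv f Constr.univ, hχ]
  unfold zetaId
  rw [PowerSeries.coeff_mk, ← inv_pow_eq, mul_add (Fintype.card σ) N 1, mul_one, pow_add]
  have e1 : ((Lu ℂ : (MK ℂ)ˣ) : MK ℂ) ^ Fintype.card σ *
      (((Lu ℂ)⁻¹ : (MK ℂ)ˣ) : MK ℂ) ^ Fintype.card σ = 1 := by
    rw [← mul_pow, Units.mul_inv, one_pow]
  linear_combination (-(algebraMap (K0 ℂ) (MK ℂ) (cls (σ × Fin (N + 1))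
    (JetF f Set.univ N)) * (((Lu ℂ)⁻¹ : (MK ℂ)ˣ) : MK ℂ) ^ (Fintype.card σ * N))) * e1

theorem zetaId_iff {M : Meas ℂ (MK ℂ)} (hL : M.L = ((Lu ℂ : (MK ℂ)ˣ) : MK ℂ))
    (hχ : ∀ (ι : Type) [Fintype ι] (S : Set (Pt ℂ ι)),
      M.χ ι S = algebraMap (K0 ℂ) (MK ℂ) (cls ι S)) (f : J → MvPolynomial σ ℂ)
    (S : Set (ℤ × ℤ)) : zetaId f ∈ ratRing ℂ S ↔
      ZW M (((Lu ℂ)⁻¹ : (MK ℂ)ˣ) : MK ℂ) f Set.univ ∈ ratU (Lu ℂ) S := by
  rw [ratRing_eq, zetaId_eq hL hχ]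
  constructor
  · intro h
    have h1 : ZW M (((Lu ℂ)⁻¹ : (MK ℂ)ˣ) : MK ℂ) f Set.univ =
        PowerSeries.C ((((Lu ℂ)⁻¹ : (MK ℂ)ˣ) : MK ℂ) ^ Fintype.card σ) *
        (PowerSeries.C (((Lu ℂ : (MK ℂ)ˣ) : MK ℂ) ^ Fintype.card σ) *
          ZW M (((Lu ℂ)⁻¹ : (MK ℂ)ˣ) : MK ℂ) f Set.univ) := by
      rw [← mul_assoc, ← map_mul, ← mul_pow, Units.inv_mul, one_pow, map_one, one_mul]
    rw [h1]
    exact Subalgebra.mul_mem _ (rat_C _ _) h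
  · intro h
    exact Subalgebra.mul_mem _ (rat_C _ _) h

end ser

section cases

/-- **Families which are covered by charts.** -/
theorem charts_case {n r : ℕ} (f : Fin r → MvPolynomial (Fin n) ℂ)
    (S : Finset (Chart (Fin n))) (hS : ∀ A ∈ S, A.Fits f)
    (hT : ∀ A ∈ S, Tower A.c A.r A.h)
    (hp : ∀ p : Fin n → ℂ, (∀ j, eval p (f j) = 0) → ∃ A ∈ S, A.Mem p) :
    (∃ j, f j ≠ 0) ∧ ∃ S : Finset (ℤ × ℤ), GlobMC f S := by
  classical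
  have ih : ∀ A ∈ S, (∃ k, A.h k ≠ 0) ∧ ∃ T : Finset (ℤ × ℤ), StrongMC A.h T := fun A hA =>
    tower_main (hT A hA)
  have hne : ∃ j, f j ≠ 0 := by
    by_contra h0
    push Not at h0
    obtain ⟨A, hA, hAp⟩ := hp 0 fun j => by rw [h0, map_zero]
    obtain ⟨j, hj⟩ := ne_of_chart f A (hS A hA) (ih A hA).1 0 hAp
    exact hj (h0 j)
  refine ⟨hne, ?_⟩
  choose T hT' using fun (A : Chart (Fin n)) (hA : A ∈ S) => (ih A hA).2
  set P : Finset (Chart (Fin n)) := S.filter fun A => ∃ p, A.Mem p with hP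
  set Q : Finset (ℤ × ℤ) :=
    (P.attach.biUnion fun A => T A.1 (Finset.mem_filter.1 A.2).1) with hQ
  have hsub : ∀ A (hA : A ∈ S), (∃ p, A.Mem p) → T A hA ⊆ Q := by
    intro A hA hp q hq
    exact Finset.mem_biUnion.2 ⟨⟨A, Finset.mem_filter.2 ⟨hA, hp⟩⟩, Finset.mem_attach _ _, hq⟩
  refine ⟨Q, fun q hq => ?_, ?_⟩
  · obtain ⟨⟨A, hA⟩, -, hq⟩ := Finset.mem_biUnion.1 hq
    obtain ⟨hAS, p, hAp⟩ := Finset.mem_filter.1 hA
    obtain ⟨h1, h2, h3⟩ := (hT' A hAS).1 q hq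
    exact ⟨h1, h2, p, sf_chart f A (hS A hAS) (ih A hAS).1 p hAp _ h3⟩
  · obtain ⟨M, hL, hχ⟩ := exists_meas ℂ
    rw [zetaId_iff hL hχ]
    refine mem_charts M (Lu ℂ) hL f _ S hS _ Constr.univ ?_ fun p _ hz => hp p hz
    rintro A hA ⟨p, -, hAp⟩
    rw [← zeta_iff hL hχ]
    exact rat_mono (Lu ℂ) (Finset.coe_subset.2 (hsub A hA ⟨p, hAp⟩)) (hT' A hA).2

variable {n r n' r' : ℕ}

theorem mulF_ne (f : Fin r → MvPolynomial (Fin n) ℂ) (g : Fin r' → MvPolynomial (Fin n') ℂ)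
    (hf : ∃ k, f k ≠ 0) (hg : ∃ k, g k ≠ 0) : ∃ k, mulF f g k ≠ 0 := by
  obtain ⟨j, hj⟩ := hf
  obtain ⟨k, hk⟩ := hg
  refine ⟨finProdFinEquiv (j, k), ?_⟩
  unfold mulF
  rw [Equiv.symm_apply_apply]
  refine mul_ne_zero ?_ ?_
  · rwa [Ne, map_eq_zero_iff _ (rename_injective _ (Fin.castAdd_injective _ _))]
  · rwa [Ne, map_eq_zero_iff _ (rename_injective _ (Fin.natAdd_injective _ _))]

/-- **Products.** -/
theorem gmul_case (f : Fin r → MvPolynomial (Fin n) ℂ) (g : Fin r' → MvPolynomial (Fin n') ℂ)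
    (ihf : (∃ k, f k ≠ 0) ∧ ∃ S : Finset (ℤ × ℤ), GlobMC f S)
    (ihg : (∃ k, g k ≠ 0) ∧ ∃ S : Finset (ℤ × ℤ), GlobMC g S) :
    (∃ k, mulF f g k ≠ 0) ∧ ∃ S : Finset (ℤ × ℤ), GlobMC (mulF f g) S := by
  classical
  obtain ⟨hf, S, hS, hzf⟩ := ihf
  obtain ⟨hg, T, hT, hzg⟩ := ihg
  have hsf : ∀ α p q, (SF f p α ∨ SF g q α) → ∃ p, SF (mulF f g) p α := by
    intro α p q h
    have h1 : SF (mulf f g) (Sum.elim p q) α := by
      rcases h with h | h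
      · exact sf_mul f g p q α h hg
      · exact sf_mul' f g p q α h hf
    refine ⟨Sum.elim p q ∘ finSumFinEquiv.symm, ?_⟩
    refine sf_equiv finSumFinEquiv finProdFinEquiv (mulf f g) (mulF f g) (mulF_eq f g) _ α ?_
    have h2 : (Sum.elim p q ∘ finSumFinEquiv.symm) ∘ finSumFinEquiv = Sum.elim p q := by
      funext x
      simp
    rw [h2]
    exact h1
  refine ⟨mulF_ne f g hf hg, S ∪ T, ?_, ?_⟩
  · intro q hq
    rcases Finset.mem_union.1 hq with hq | hq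
    · obtain ⟨h1, h2, p, h3⟩ := hS q hq
      exact ⟨h1, h2, hsf _ p 0 (Or.inl h3)⟩
    · obtain ⟨h1, h2, p, h3⟩ := hT q hq
      exact ⟨h1, h2, hsf _ 0 p (Or.inr h3)⟩
  · obtain ⟨M, hL, hχ⟩ := exists_meas ℂ
    have hv : M.L * (((Lu ℂ)⁻¹ : (MK ℂ)ˣ) : MK ℂ) = 1 := by rw [hL, Units.mul_inv]
    rw [zetaId_iff hL hχ] at hzf hzg ⊢
    have h1 := ZW_mulK M hv f g (W := Set.univ) (W' := Set.univ) Constr.univ Constr.univ
    have h2 : ZW M (((Lu ℂ)⁻¹ : (MK ℂ)ˣ) : MK ℂ) (mulF f g) Set.univ =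
        ZW M (((Lu ℂ)⁻¹ : (MK ℂ)ˣ) : MK ℂ) (mulK f g) (PW Set.univ Set.univ) :=
      ZW_ren M _ finSumFinEquiv finProdFinEquiv (mulK f g) (mulF f g) (mulF_eq f g)
        (constr_PW Constr.univ Constr.univ) fun z => ⟨fun _ => ⟨trivial, trivial⟩, fun _ => trivial⟩
    rw [h2, h1]
    refine Subalgebra.mul_mem _ (rat_mono (Lu ℂ) ?_ hzf) (rat_mono (Lu ℂ) ?_ hzg)
    · exact fun q hq => Finset.mem_coe.2 (Finset.mem_union_left _ (Finset.mem_coe.1 hq))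
    · exact fun q hq => Finset.mem_coe.2 (Finset.mem_union_right _ (Finset.mem_coe.1 hq))

/-- **Hypersurfaces.** -/
theorem ghyp_case (f : Fin r → MvPolynomial (Fin n) ℂ)
    (ih : (∃ k, f k ≠ 0) ∧ ∃ S : Finset (ℤ × ℤ), GlobMC f S) :
    (∃ k, (fun _ : Fin 1 => hypF f) k ≠ 0) ∧
      ∃ S : Finset (ℤ × ℤ), GlobMC (fun _ : Fin 1 => hypF f) S := by
  classical
  obtain ⟨hf, S, hS, hz⟩ := ih
  refine ⟨⟨0, hypF_ne f hf⟩, insert (-1, 1) S, ?_, ?_⟩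
  · intro q hq
    rcases Finset.mem_insert.1 hq with rfl | hq
    · refine ⟨by norm_num, by norm_num, ?_⟩
      have h1 : (((-1 : ℤ) : ℂ) / ((1 : ℤ) : ℂ)) = -1 := by norm_num
      simp only
      rw [h1]
      exact ⟨_, sf_hypF f _ _ (sf_minus_one f hf 0)⟩
    · obtain ⟨h1, h2, p, h3⟩ := hS q hq
      exact ⟨h1, h2, _, sf_hypF f _ _ (sf_hyp f hf p _ h3)⟩
  · obtain ⟨M, hL, hχ⟩ := exists_meas ℂ
    have hv : M.L * (((Lu ℂ)⁻¹ : (MK ℂ)ˣ) : MK ℂ) = 1 := by rw [hL, Units.mul_inv]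
    rw [zetaId_iff hL hχ] at hz ⊢
    have h1 : ZW M (((Lu ℂ)⁻¹ : (MK ℂ)ˣ) : MK ℂ) (fun _ : Fin 1 => hypF f) Set.univ =
        ZW M (((Lu ℂ)⁻¹ : (MK ℂ)ˣ) : MK ℂ) (fun _ : Fin 1 => uni f) (YF (Fin r) Set.univ) :=
      ZW_ren M _ (eH n r) (Equiv.refl _) _ _ (fun j => hypF_eq f) (constr_YF Constr.univ)
        fun z => ⟨fun _ => trivial, fun _ => trivial⟩
    rw [h1, ZW_free M hv f Constr.univ]
    refine Subalgebra.mul_mem _ (rat_C _ _)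
      (Subalgebra.mul_mem _ (gH_mem (Lu ℂ) ?_) (rat_mono (Lu ℂ) ?_ hz))
    · exact Finset.mem_coe.2 (Finset.mem_insert_self _ _)
    · exact fun q hq => Finset.mem_coe.2 (Finset.mem_insert_of_mem (Finset.mem_coe.1 hq))

end cases

/-- **The global theorem.** -/
theorem glob_main {n r : ℕ} {f : Fin r → MvPolynomial (Fin n) ℂ} (h : Glob n r f) :
    (∃ j, f j ≠ 0) ∧ ∃ S : Finset (ℤ × ℤ), GlobMC f S := by
  classical
  induction h with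
  | charts f S hS hT hp => exact charts_case f S hS hT hp
  | mul f g hf hg ihf ihg => exact gmul_case f g ihf ihg
  | hyp f hf ih => exact ghyp_case f ih

end Pool.Agent.Q57.MC
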