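import Pool.Agent.Q57.MC.Defs

set_option autoImplicit false

/-! # Homomorphisms of the rings of fractions -/

namespace Pool.Agent.Q57.MC

open MvPolynomial

section

variable {K : Type} [Field K] {σ J κ : Type} {c : ℕ}

/-- the extension of a homomorphism -/
theorem exists_lift {S : Type} [CommRing S] [Algebra K S] (w : MvPolynomial σ K)
    (φ : MvPolynomial σ K →ₐ[K] S) (v : S) (hv : φ w * v = 1) :
    ∃ ψ : Localization.Away w →+* S,
      (∀ P, ψ (algebraMap (MvPolynomial σ K) (Localization.Away w) P) = φ P) ∧
      (∀ q : Localization.Away w, ∃ (P : MvPolynomial σ K) (m : ℕ), ψ q = φ P * v ^ m) ∧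
      ∀ (a : Fin c → MvPolynomial σ K) (q : MvPolynomial (Fin c) K),
        ψ (frac a w q) = aeval (fun t => φ (a t) * v) q := by
  have hu : IsUnit ((φ : MvPolynomial σ K →+* S) w) := IsUnit.of_mul_eq_one _ hv
  set ψ : Localization.Away w →+* S := IsLocalization.Away.lift w hu with hψ
  have h1 : ∀ P, ψ (algebraMap (MvPolynomial σ K) (Localization.Away w) P) = φ P := fun P =>
    IsLocalization.Away.lift_eq w hu P
  have h2 : ψ (IsLocalization.Away.invSelf w) = v := by
    have h3 := congrArg ψ (IsLocalization.Away.mul_invSelf (S := Localization.Away w) w)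
    rw [map_mul, h1, map_one] at h3
    calc ψ (IsLocalization.Away.invSelf w) = (φ w * v) * ψ (IsLocalization.Away.invSelf w) := by
          rw [hv, one_mul]
      _ = v * (φ w * ψ (IsLocalization.Away.invSelf w)) := by ring
      _ = v := by rw [h3, mul_one]
  refine ⟨ψ, h1, fun q => ?_, fun a q => ?_⟩
  · obtain ⟨m, P, hP⟩ := IsLocalization.Away.surj w q
    refine ⟨P, m, ?_⟩
    have h3 := congrArg ψ hP
    rw [map_mul, map_pow, h1, h1] at h3
    rw [← h3, mul_assoc, ← mul_pow, hv, one_pow, mul_one]
  · unfold frac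
    have h3 : ψ.comp (aeval (fun t => algebraMap (MvPolynomial σ K) (Localization.Away w) (a t) *
        IsLocalization.Away.invSelf w) : MvPolynomial (Fin c) K →ₐ[K] Localization.Away w).toRingHom
        = (aeval (fun t => φ (a t) * v) : MvPolynomial (Fin c) K →ₐ[K] S).toRingHom := by
      apply MvPolynomial.ringHom_ext
      · intro r
        change ψ (aeval _ (C r)) = aeval _ (C r)
        rw [aeval_C, aeval_C, IsScalarTower.algebraMap_apply K (MvPolynomial σ K)
          (Localization.Away w), h1]
        exact φ.commutes r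
      · intro t
        change ψ (aeval _ (X t)) = aeval _ (X t)
        rw [aeval_X, aeval_X, map_mul, h1, h2]
    exact congrArg (fun θ : MvPolynomial (Fin c) K →+* S => θ q) h3

theorem Same.map {S : Type} [CommRing S] [Algebra K S] {f : J → MvPolynomial σ K}
    {h : κ → MvPolynomial (Fin c) K} {a : Fin c → MvPolynomial σ K} {w : MvPolynomial σ K}
    (hs : Same f h a w) (φ : MvPolynomial σ K →ₐ[K] S) (v : S) (hv : φ w * v = 1) :
    Ideal.span (Set.range fun j => φ (f j)) =
      Ideal.span (Set.range fun k => aeval (fun t => φ (a t) * v) (h k)) := by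
  obtain ⟨ψ, h1, -, h2⟩ := exists_lift (c := c) w φ v hv
  have h3 := congrArg (Ideal.map ψ) hs
  rw [Ideal.map_span, Ideal.map_span, ← Set.range_comp, ← Set.range_comp] at h3
  have h4 : (ψ ∘ fun j => algebraMap (MvPolynomial σ K) (Localization.Away w) (f j)) =
      fun j => φ (f j) := funext fun j => h1 _
  have h5 : (ψ ∘ fun k => frac a w (h k)) = fun k => aeval (fun t => φ (a t) * v) (h k) :=
    funext fun k => h2 a _
  rwa [h4, h5] at h3

end

end Pool.Agent.Q57.MC
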