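import Pool.Agent.Q57.MC.Vol
import Pool.Agent.Q57.MC.Frac

set_option autoImplicit false
set_option linter.unusedSectionVars false
set_option linter.unusedVariables false

/-! # Volumes in a chart -/

namespace Pool.Agent.Q57.MC

open MvPolynomial Pool.Agent.W428.MOT Pool.Agent.TH192.MT Pool.Agent.TH192.DT Pool.Agent.Q49.CO

section same

variable {K F : Type} [Field K] [Field F] [Algebra K F] {σ J κ : Type} {c : ℕ}

theorem vn_of_span {J J' : Type} {a : J → PowerSeries F} {b : J' → PowerSeries F}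
    (h : Ideal.span (Set.range a) = Ideal.span (Set.range b)) (N : ℕ) (ha : ∀ j, Vn N (a j))
    (k : J') : Vn N (b k) := by
  have h1 : b k ∈ Ideal.span (Set.range a) := by
    rw [h]
    exact Ideal.subset_span ⟨k, rfl⟩
  have h2 : Ideal.span (Set.range a) ≤ Ideal.span {PowerSeries.X ^ N} := by
    rw [Ideal.span_le]
    rintro _ ⟨j, rfl⟩
    exact Ideal.mem_span_singleton.2 (vn_iff.1 (ha j))
  exact vn_iff.2 (Ideal.mem_span_singleton.1 (h2 h1))

theorem Same.vn {f : J → MvPolynomial σ K} {h : κ → MvPolynomial (Fin c) K}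
    {a : Fin c → MvPolynomial σ K} {w : MvPolynomial σ K}
    (hs : Same f h a w) (γ : σ → PowerSeries F) (hγ : PowerSeries.coeff 0 (aeval γ w) ≠ 0)
    (N : ℕ) : (∀ j, Vn N (aeval γ (f j))) ↔
      ∀ k, Vn N (aeval (fun t => aeval γ (a t) * (aeval γ w)⁻¹) (h k)) := by
  have h1 := hs.map (aeval γ) (aeval γ w)⁻¹ (PowerSeries.mul_inv_cancel _ (by
    rwa [← PowerSeries.coeff_zero_eq_constantCoeff_apply]))
  exact ⟨fun hf k => vn_of_span h1 N hf k, fun hf j => vn_of_span h1.symm N hf j⟩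

end same

variable {K : Type} [Field K] {σ J κ : Type} [Fintype σ] [Finite J] [Finite κ]
variable {R : Type} [CommRing R] (M : Meas K R) {c : ℕ}

/-- `u = a(z) / w(z)` -/
noncomputable def ug {m : ℕ} (a : Fin c → MvPolynomial σ K) (w : MvPolynomial σ K)
    (z : Pt K (σ × Fin (m + 1))) : Pt K (Fin c × Fin (m + 1)) :=
  fun q => PowerSeries.coeff (q.2 : ℕ) (aeval (ar z) (a q.1) * (aeval (ar z) w)⁻¹)

theorem cg_mul {F : Type} [Field F] {m : ℕ} {a b a' b' : PowerSeries F} (h : Cg m a a')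
    (h' : Cg m b b') : Cg m (a * b) (a' * b') := by
  intro k hk
  rw [PowerSeries.coeff_mul, PowerSeries.coeff_mul]
  refine Finset.sum_congr rfl fun ab hab => ?_
  have := Finset.HasAntidiagonal.mem_antidiagonal.1 hab
  rw [h ab.1 (by omega), h' ab.2 (by omega)]

/-- `u w = a` if and only if `u = a / w` -/
theorem cg_div {F : Type} [Field F] {m : ℕ} {a u w : PowerSeries F}
    (hw : PowerSeries.coeff 0 w ≠ 0) : Cg m a (u * w) ↔ Cg m u (a * w⁻¹) := by
  have hw' : PowerSeries.constantCoeff w ≠ 0 := by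
    rwa [← PowerSeries.coeff_zero_eq_constantCoeff_apply]
  constructor
  · intro h k hk
    have h1 := cg_mul (b := w⁻¹) (b' := w⁻¹) h (fun _ _ => rfl) k hk
    rw [h1, mul_assoc, PowerSeries.mul_inv_cancel _ hw', mul_one]
  · intro h k hk
    have h1 := cg_mul (b := w) (b' := w) h (fun _ _ => rfl) k hk
    rw [h1, mul_assoc, PowerSeries.inv_mul_cancel _ hw', mul_one]

theorem vn_ug {N m : ℕ} (hN : N ≤ m + 1) (a : Fin c → MvPolynomial σ K) (w : MvPolynomial σ K)
    (z : Pt K (σ × Fin (m + 1))) (u : Pt K (Fin c × Fin (m + 1)))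
    (hw : PowerSeries.coeff 0 (aeval (ar z) w) ≠ 0)
    (hu : ∀ t : Fin c, Cg m (aeval (ar z) (a t)) (ar u t * aeval (ar z) w))
    (q : MvPolynomial (Fin c) K) :
    Vn N (aeval (ar u) q) ↔
      Vn N (aeval (fun t => aeval (ar z) (a t) * (aeval (ar z) w)⁻¹) q) := by
  have h1 : ∀ t, Cg m (ar u t) (aeval (ar z) (a t) * (aeval (ar z) w)⁻¹) := fun t =>
    (cg_div hw).1 (hu t)
  exact vn_congr' (cg_aevalK q m _ _ h1) hN

theorem cg_ug {m : ℕ} (a : Fin c → MvPolynomial σ K) (w : MvPolynomial σ K)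
    (z : Pt K (σ × Fin (m + 1))) (hw : PowerSeries.coeff 0 (aeval (ar z) w) ≠ 0)
    (t : Fin c) : Cg m (aeval (ar z) (a t)) (ar (ug a w z) t * aeval (ar z) w) := by
  rw [cg_div hw]
  intro j hj
  rw [coeff_ar, dif_pos (by omega)]
  rfl

theorem cg_iff {m : ℕ} (a : Fin c → MvPolynomial σ K) (w : MvPolynomial σ K)
    (x : Pt K ((σ × Fin (m + 1)) ⊕ (Fin c × Fin (m + 1)))) (t : Fin c) :
    (∀ j, j < m + 1 → PowerSeries.coeff j (aeval (ar (jn x)) (PP a w t)) = 0) ↔
      Cg m (aeval (ar fun q => x (Sum.inl q)) (a t))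
        (ar (fun q => x (Sum.inr q)) t * aeval (ar fun q => x (Sum.inl q)) w) := by
  rw [aeval_PP]
  constructor
  · intro h j hj
    have h1 := h j (by omega)
    rw [map_sub] at h1
    exact sub_eq_zero.1 h1
  · intro h j hj
    rw [map_sub, h j (by omega), sub_self]

theorem chi_chart (f : J → MvPolynomial σ K) (a : Fin c → MvPolynomial σ K)
    (h : κ → MvPolynomial (Fin c) K) (w : MvPolynomial σ K)
    (hs : Same f h a w) {W : Set (Pt K σ)} (hW : Constr W)
    (hg : ∀ z ∈ W, ∀ t, aeval z (a t) = 0) (hw : ∀ z ∈ W, aeval z w ≠ 0) (N m : ℕ)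
    (hN : N ≤ m + 1) : M.χ _ (SG a w h W N m m) = M.χ _ (GW f W N m) := by
  have hw' : ∀ z : Pt K (σ × Fin (m + 1)), (fun i => z (i, 0)) ∈ W →
      PowerSeries.coeff 0 (aeval (ar z) w) ≠ 0 := by
    intro z hz
    rw [coeff_zero_aevalK]
    have h1 : (fun i => PowerSeries.coeff 0 (ar z i)) = fun i => z (i, 0) :=
      funext fun i => coeff_ar_zero _ _
    rw [h1]
    exact hw _ hz
  refine M.iso _ _ (constr_SG a w h hW N m m) (constr_GW f hW N m)
    (fun x q => x (Sum.inl q)) (fun z => Sum.elim z (ug a w z))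
    (regularOn_poly (fun i => IsPF.coord _) _) ?_ ?_ ?_ ?_ ?_
  · have h1 : ∀ P : MvPolynomial σ K, IsRA (GW f W N m) fun z => aeval (ar z) P := by
      intro P j
      exact (pf_coeffK (fun z => z) (fun i => IsPF.coord _) _ _).isRF _
    have h2 : IsRA (GW f W N m) (fun z => (aeval (ar z) w)⁻¹) := ra_inv (h1 w) fun z hz =>
      hw' z hz.1
    rintro (q | ⟨t, j⟩)
    · exact (IsPF.coord _).isRF _
    · exact (ra_mul (h1 (a t)) h2) (j : ℕ)
  · rintro x ⟨h1, h2, h3⟩
    refine ⟨h1.1, (hs.vn _ (hw' _ h1.1) N).2 fun k => ?_⟩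
    rw [← vn_ug hN a w (fun q => x (Sum.inl q)) (fun q => x (Sum.inr q)) (hw' _ h1.1)
      fun t => (cg_iff a w x t).1 (h3 t)]
    exact h2.2 k
  · rintro z ⟨h1, h2⟩
    have h5 := cg_ug a w z (hw' z h1)
    refine ⟨⟨h1, fun t j hj => absurd hj (Nat.not_lt_zero j)⟩, ⟨?_, fun k => ?_⟩, fun t => ?_⟩
    · funext t
      change PowerSeries.coeff ((0 : Fin (m + 1)) : ℕ)
        (aeval (ar z) (a t) * (aeval (ar z) w)⁻¹) = 0
      rw [Fin.val_zero, c0_mul, coeff_zero_aevalK]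
      have h3 : (fun i => PowerSeries.coeff 0 (ar z i)) = fun i => z (i, 0) :=
        funext fun i => coeff_ar_zero _ _
      rw [h3]
      have h4 : aeval (fun i => z (i, 0)) (a t) = 0 := hg _ h1 t
      rw [h4, zero_mul]
    · change Vn N (aeval (ar (ug a w z)) (h k))
      rw [vn_ug hN a w z (ug a w z) (hw' z h1) h5]
      exact (hs.vn _ (hw' _ h1) N).1 h2 k
    · exact (cg_iff a w (Sum.elim z (ug a w z)) t).2 (h5 t)
  · rintro x ⟨h1, h2, h3⟩
    funext q
    rcases q with q | ⟨t, j⟩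
    · rfl
    · change PowerSeries.coeff (j : ℕ) (aeval (ar fun q => x (Sum.inl q)) (a t) *
        (aeval (ar fun q => x (Sum.inl q)) w)⁻¹) = _
      have h4 := (cg_div (hw' _ h1.1)).1 ((cg_iff a w x t).1 (h3 t)) (j : ℕ) (by omega)
      rw [← h4, coeff_ar, dif_pos j.2]
  · intro z _
    rfl

variable {v : R} (hv : M.L * v = 1)
include hv

/-- **Volumes in a chart.** -/
theorem vol_chart (f : J → MvPolynomial σ K) (a : Fin c → MvPolynomial σ K)
    (h : κ → MvPolynomial (Fin c) K) (w : MvPolynomial σ K)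
    (hs : Same f h a w) {W : Set (Pt K σ)} (hW : Constr W)
    (hI : Indep a W) (hw : ∀ z ∈ W, aeval z w ≠ 0) (N : ℕ) :
    vol M v f W N = (M.χ σ W * v ^ Fintype.card σ * M.L ^ c) * vol M v h {0} N := by
  have h1 := chi_chart M f a h w hs hW (fun z hz => (hI z hz).1) hw N N (by omega)
  have h2 := chi_SG M a w h hW hI N N N le_rfl
  have h3 := vol_eq M hv a hW 0 N (by omega)
  have h4 := vol_zero M hv a hW
  unfold vol
  rw [← h4, ← h3, Fintype.card_fin]
  have h5 : M.L ^ (c * N) * v ^ (c * N) = 1 := by rw [← mul_pow, hv, one_pow]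
  have h6 : M.L ^ c * v ^ c = 1 := by rw [← mul_pow, hv, one_pow]
  have h7 : v ^ (c * (N + 1)) = v ^ (c * N) * v ^ c := by rw [mul_add, mul_one, pow_add]
  rw [h7]
  linear_combination (-(v ^ (Fintype.card σ * (N + 1)))) * h1 +
    (-(M.χ _ (SG a w h W N N N) * v ^ (Fintype.card σ * (N + 1)))) * h5 +
    (v ^ (Fintype.card σ * (N + 1)) * v ^ (c * N)) * h2 -
    (M.χ _ (GW a W 0 N) * M.χ _ (GW h {0} N N) * v ^ (Fintype.card σ * (N + 1)) *
      v ^ (c * N)) * h6

theorem ZW_chart (f : J → MvPolynomial σ K) (a : Fin c → MvPolynomial σ K)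
    (h : κ → MvPolynomial (Fin c) K) (w : MvPolynomial σ K)
    (hs : Same f h a w) {W : Set (Pt K σ)} (hW : Constr W)
    (hI : Indep a W) (hw : ∀ z ∈ W, aeval z w ≠ 0) :
    ZW M v f W = PowerSeries.C (M.χ σ W * v ^ Fintype.card σ * M.L ^ c) * ZW M v h {0} := by
  ext N
  rw [PowerSeries.coeff_C_mul]
  simp only [ZW, PowerSeries.coeff_mk]
  rw [vol_chart M hv f a h w hs hW hI hw, vol_chart M hv f a h w hs hW hI hw]
  ring

end Pool.Agent.Q57.MC
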