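import Pool.Agent.W574.HS.ConvL
import Pool.Agent.Y229.SP4
import Pool.Agent.W366.SI.I1

set_option autoImplicit false
set_option linter.unusedSectionVars false

/-! # The exact local form of the theorem of Mustata -/

namespace Pool.Agent.Q57.MC

open MvPolynomial Pool.Agent.W574.SM Pool.Agent.W574.HS Pool.Agent.W574.LM

section ConvL

variable {σ ι : Type} [Fintype ι] [DecidableEq ι]

/-- **The local functional equation of `∑ y_j f_j` with `(s + 1) b(s)` gives a local functional
equation of the ideal `(f_j)` with `b(s)`.** -/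
theorem locEq_of_univ' [DecidableEq σ] (f : ι → MvPolynomial σ ℂ) (b : Polynomial ℂ)
    (H : MvPolynomial (ι ⊕ σ) ℂ) (P : ℕ →₀ Pool.Agent.H628R4.TP.weylS (ι ⊕ σ))
    (hP : ∀ s : ℕ, H * (C (((Polynomial.X + 1) * b).eval (s : ℂ)) * univ f ^ s) = P.sum fun m Q =>
      ((s : ℂ) ^ m) • (Q : Module.End ℂ (MvPolynomial (ι ⊕ σ) ℂ)) (univ f ^ (s + 1))) :
    IsLocEq (hat H 0) f b := by
  classical
  choose E hE1 hE2 using fun m : ℕ => rep_weylS (σ := σ) (ι := ι) (P m).1 (P m).2 _ rep_id
  have hrep : Rep (fun (H : (ι →₀ ℕ) → MvPolynomial σ ℂ) α =>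
      ∑ m ∈ P.support, evN α ((∑ j, X j) ^ m) • E m H α) :=
    rep_sum P.support _ fun m _ => rep_poly (hE1 m) _
  obtain ⟨κ, hκ, c, p, R, hR⟩ := hrep
  -- the key identity
  have key : ∀ s : ι →₀ ℕ, (b.eval ((∑ j, s j : ℕ) : ℂ) * ((∑ j, s j + 1).factorial : ℂ)) •
      (hat H 0 * ∏ j, f j ^ s j) = ∑ k, (evN s (p k) * (fall (c k) s : ℂ)) •
        (R k : Module.End ℂ (MvPolynomial σ ℂ)) (hat (univ f ^ (∑ j, s j + 1)) (sh s (c k))) := by
    intro s
    have h1 := congrArg (fun G => hat G s) (hP (∑ j, s j))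
    rw [hat_mul_top H (C (Polynomial.eval ((∑ j, s j : ℕ) : ℂ) ((Polynomial.X + 1) * b)) *
      univ f ^ (∑ j, s j)) s (by
        intro γ hγ hne
        rw [hat_C_mul, hat_univ_pow, if_neg, smul_zero]
        intro h
        exact hne (eq_of_le_of_sum_eq hγ h)), hat_C_mul, hat_univ_pow, if_pos rfl, smul_smul,
      mul_smul_comm, Finsupp.sum, hat_sum] at h1
    have h0 : (b.eval ((∑ j, s j : ℕ) : ℂ) * ((∑ j, s j + 1).factorial : ℂ)) =
        ((Polynomial.X + 1) * b).eval ((∑ j, s j : ℕ) : ℂ) * ((∑ j, s j).factorial : ℂ) := by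
      rw [Polynomial.eval_mul, Polynomial.eval_add, Polynomial.eval_X, Polynomial.eval_one,
        Nat.factorial_succ]
      push_cast
      ring
    rw [h0, h1, ← hR]
    refine Finset.sum_congr rfl fun m _ => ?_
    rw [hat_smul, hE2 m (univ f ^ (∑ j, s j + 1)) (hat (univ f ^ (∑ j, s j + 1))) rfl]
    congr 1
    simp [evN]
  set cf : κ → ℂ := fun k => ∏ j, (((-c k j).toNat.factorial : ℕ) : ℂ) with hcf
  refine ⟨(Finset.univ.image c).filter fun d => ∑ j, d j = 1, fun d =>
    ∑ k ∈ Finset.univ.filter fun k => c k = d,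
      tens (C (cf k) * p k) (R k), fun d hd => (Finset.mem_filter.1 hd).2,
      fun s => ?_⟩
  -- pass to a multi-index
  set s' : ι →₀ ℕ := Finsupp.equivFunOnFinite.symm s with hs'
  have hs's : ∀ j, s' j = s j := fun j => rfl
  have hk := key s'
  simp only [hs's] at hk
  have hfact : ((∑ j, s j + 1).factorial : ℂ) ≠ 0 := by exact_mod_cast Nat.factorial_ne_zero _
  -- the terms of the key identity
  have hterm : ∀ k, (evN s' (p k) * (fall (c k) s' : ℂ)) •
      (R k : Module.End ℂ (MvPolynomial σ ℂ)) (hat (univ f ^ (∑ j, s j + 1)) (sh s' (c k))) =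
      if ∑ j, c k j = 1 then ((∑ j, s j + 1).factorial : ℂ) •
        applyAt (tens (C (cf k) * p k) (R k)) s
          (C ((∏ j, (if c k j < 0 then (s j).choose (-c k j).toNat else 1) : ℕ) : ℂ) *
            ∏ j, f j ^ ((s j : ℤ) + c k j).toNat) else 0 := by
    intro k
    by_cases hpos : ∀ j, 0 ≤ (s j : ℤ) + c k j
    · have hsum : ((∑ j, sh s' (c k) j : ℕ) : ℤ) = ∑ j, s j + ∑ j, c k j := by
        push_cast
        rw [← Finset.sum_add_distrib]
        refine Finset.sum_congr rfl fun j _ => ?_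
        rw [sh_apply, hs's, Int.toNat_of_nonneg (hpos j)]
      rw [hat_univ_pow]
      have hiff : (∑ j, sh s' (c k) j = ∑ j, s j + 1) ↔ ∑ j, c k j = 1 := by
        constructor
        · intro h
          have : ((∑ j, sh s' (c k) j : ℕ) : ℤ) = ((∑ j, s j + 1 : ℕ) : ℤ) := by rw [h]
          rw [hsum] at this
          push_cast at this
          linarith
        · intro h
          rw [h] at hsum
          have : ((∑ j, sh s' (c k) j : ℕ) : ℤ) = ((∑ j, s j + 1 : ℕ) : ℤ) := by
            rw [hsum]; push_cast; ring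
          exact_mod_cast this
      by_cases h1 : ∑ j, c k j = 1
      · rw [if_pos (hiff.2 h1), if_pos h1, applyAt_tens, map_smul, smul_smul, smul_smul,
          ← C_mul', ← C_mul']
        have h2 : (fall (c k) s' : ℂ) = cf k *
            ((∏ j, (if c k j < 0 then (s j).choose (-c k j).toNat else 1) : ℕ) : ℂ) := by
          have : fall (c k) s' = (∏ j, (-c k j).toNat.factorial) *
              ∏ j, (if c k j < 0 then (s j).choose (-c k j).toNat else 1) := by
            rw [fall, ← Finset.prod_mul_distrib]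
            refine Finset.prod_congr rfl fun j _ => ?_
            split_ifs with h
            · rw [hs's, Nat.descFactorial_eq_factorial_mul_choose]
            · have h0 : (-c k j).toNat = 0 := by omega
              rw [h0]; simp
          rw [this, hcf]
          push_cast
          rfl
        have h3 : ∀ (a : ℂ) (g : MvPolynomial σ ℂ), (R k : Module.End ℂ (MvPolynomial σ ℂ))
            (C a * g) = C a * (R k : Module.End ℂ (MvPolynomial σ ℂ)) g := by
          intro a g; rw [C_mul', map_smul, C_mul']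
        rw [h3, ← mul_assoc, ← C_mul]
        congr 2
        rw [h2, evN, map_mul, eval_C]
        have h4 : eval (fun j => (s' j : ℂ)) (p k) = eval (fun j => (s j : ℂ)) (p k) := rfl
        rw [h4]
        ring
      · rw [if_neg (fun h => h1 (hiff.1 h)), if_neg h1, map_zero, smul_zero]
    · push Not at hpos
      obtain ⟨j, hj⟩ := hpos
      have h1 : fall (c k) s' = 0 := by
        refine Finset.prod_eq_zero (Finset.mem_univ j) ?_
        rw [hs's, Nat.descFactorial_eq_zero_iff_lt]
        omega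
      have h2 : (∏ j, (if c k j < 0 then (s j).choose (-c k j).toNat else 1)) = 0 := by
        refine Finset.prod_eq_zero (Finset.mem_univ j) ?_
        rw [if_pos (by omega), Nat.choose_eq_zero_iff]
        omega
      rw [h1, h2, applyAt_tens]
      simp
  rw [Finset.sum_congr rfl fun k _ => hterm k, ← Finset.sum_filter, ← Finset.smul_sum,
    mul_comm, mul_smul] at hk
  have hk2 := smul_right_injective (MvPolynomial σ ℂ) hfact hk
  rw [C_mul', mul_smul_comm, hk2]
  simp only [applyAt_sum]
  rw [← Finset.sum_fiberwise_of_maps_to (s := Finset.univ.filter fun k => ∑ j, c k j = 1)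
    (t := (Finset.univ.image c).filter fun d => ∑ j, d j = 1) (g := c)]
  · refine Finset.sum_congr rfl fun d hd => ?_
    have h5 : ∀ k ∈ Finset.univ.filter (fun k => c k = d), ∑ j, c k j = 1 := by
      intro k hk
      rw [(Finset.mem_filter.1 hk).2]
      exact (Finset.mem_filter.1 hd).2
    have h6 : (Finset.univ.filter fun k => ∑ j, c k j = 1).filter (fun k => c k = d) =
        Finset.univ.filter (fun k => c k = d) := by
      ext k
      simp only [Finset.mem_filter, Finset.mem_univ, true_and]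
      exact ⟨fun h => h.2, fun h => ⟨h5 k (by simpa using h), h⟩⟩
    rw [h6]
    refine Finset.sum_congr rfl fun k hk => ?_
    have h7 : c k = d := (Finset.mem_filter.1 hk).2
    rw [h7]
  · intro k hk
    rw [Finset.mem_filter] at hk ⊢
    exact ⟨Finset.mem_image_of_mem _ (Finset.mem_univ k), hk.2⟩

end ConvL


section back

open Pool.Agent.Y229
open Pool.Agent.H628R4.TP (IsLocalBFunction weylS)

variable {σ ι : Type} [Fintype ι]

/-- from a polynomial unit to power series coefficients -/
theorem localBI_of_locEq (H : MvPolynomial σ ℂ) (f : ι → MvPolynomial σ ℂ) (b : Polynomial ℂ)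
    (hH : constantCoeff H ≠ 0) (h : IsLocEq H f b) : IsLocalBI f b := by
  classical
  obtain ⟨S, P, hS, hP⟩ := h
  obtain ⟨u, hu⟩ : IsUnit (H : MvPowerSeries σ ℂ) := by
    rw [MvPowerSeries.isUnit_iff_constantCoeff]
    refine isUnit_iff_ne_zero.2 ?_
    rwa [← MvPowerSeries.coeff_zero_eq_constantCoeff_apply, MvPolynomial.coeff_coe,
      ← constantCoeff_eq]
  set K := S.sigma fun c => (P c).support with hK
  set e := K.equivFin with he
  refine ⟨K.card, fun l => (e.symm l).1.1, fun l => monomial (e.symm l).1.2 1,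
    fun _ => ((u⁻¹ : (MvPowerSeries σ ℂ)ˣ) : MvPowerSeries σ ℂ),
    fun l => P (e.symm l).1.1 (e.symm l).1.2, fun l => ?_, fun s => ?_⟩
  · exact hS _ (Finset.mem_sigma.1 (e.symm l).2).1
  · have h1 := congrArg (fun x : MvPolynomial σ ℂ => (x : MvPowerSeries σ ℂ)) (hP s)
    beta_reduce at h1
    rw [MvPolynomial.coe_mul, MvPolynomial.coe_mul, MvPolynomial.coe_C, ← hu] at h1
    have h2 : MvPowerSeries.C (b.eval ((∑ j, s j : ℕ) : ℂ)) *
        ((∏ j, f j ^ s j : MvPolynomial σ ℂ) : MvPowerSeries σ ℂ) =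
        ((u⁻¹ : (MvPowerSeries σ ℂ)ˣ) : MvPowerSeries σ ℂ) *
          ((∑ c ∈ S, applyAt (P c) s
          (C ((∏ j, (if c j < 0 then (s j).choose (-c j).toNat else 1) : ℕ) : ℂ) *
            ∏ j, f j ^ ((s j : ℤ) + c j).toNat) : MvPolynomial σ ℂ) : MvPowerSeries σ ℂ) := by
      rw [← h1, Units.inv_mul_cancel_left]
    rw [h2]
    have h3 : (∑ c ∈ S, applyAt (P c) s
          (C ((∏ j, (if c j < 0 then (s j).choose (-c j).toNat else 1) : ℕ) : ℂ) *
            ∏ j, f j ^ ((s j : ℤ) + c j).toNat)) = ∑ x ∈ K,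
          (C ((∏ j, (s j : ℂ) ^ x.2 j) * ∏ j, ((s j).choose (-(x.1 j)).toNat : ℂ)) *
            ((P x.1 x.2 : Module.End ℂ (MvPolynomial σ ℂ))
              (∏ j, f j ^ ((s j : ℤ) + x.1 j).toNat))) := by
      rw [hK, Finset.sum_sigma]
      refine Finset.sum_congr rfl fun c hc => ?_
      rw [applyAt, Finsupp.sum]
      refine Finset.sum_congr rfl fun β hβ => ?_
      have h4 : (∏ j, ((s j).choose (-(c j)).toNat : ℂ)) =
          ((∏ j, (if c j < 0 then (s j).choose (-c j).toNat else 1) : ℕ) : ℂ) := by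
        push_cast
        refine Finset.prod_congr rfl fun j _ => ?_
        by_cases h : c j < 0
        · rw [if_pos h]
        · rw [if_neg h]
          have : (-(c j)).toNat = 0 := by omega
          rw [this, Nat.choose_zero_right, Nat.cast_one]
      rw [C_mul', map_smul, smul_smul, C_mul', h4]
    rw [h3]
    have h5 : ∀ x : Σ _ : ι → ℤ, (ι →₀ ℕ), eval (fun j => (s j : ℂ)) (monomial x.2 (1 : ℂ)) =
        ∏ j, (s j : ℂ) ^ x.2 j := by
      intro x
      rw [eval_monomial, one_mul, Finsupp.prod_fintype _ _ (fun j => pow_zero _)]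
    have h6 : ∀ (T : Finset (Σ _ : ι → ℤ, (ι →₀ ℕ))) (F : (Σ _ : ι → ℤ, (ι →₀ ℕ)) → MvPolynomial σ ℂ),
        ((∑ x ∈ T, F x : MvPolynomial σ ℂ) : MvPowerSeries σ ℂ) =
          ∑ x ∈ T, ((F x : MvPolynomial σ ℂ) : MvPowerSeries σ ℂ) := fun T F =>
      map_sum (MvPolynomial.coeToMvPowerSeries.ringHom (R := ℂ) (σ := σ)) F T
    rw [h6, Finset.mul_sum, ← Finset.sum_coe_sort K, ← e.symm.sum_comp]
    refine Finset.sum_congr rfl fun l _ => ?_
    rw [MvPolynomial.coe_mul, MvPolynomial.coe_C, h5]
    ring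

/-- **The exact local form of the theorem of Mustata.** -/
theorem localBI_of_univ [Finite σ] [DecidableEq σ] [DecidableEq ι] (f : ι → MvPolynomial σ ℂ)
    (hf : ∃ j, f j ≠ 0) (b : Polynomial ℂ)
    (hb : IsLocalBFunction (univ f) ((Polynomial.X + 1) * b)) : IsLocalBI f b := by
  obtain ⟨H, P, hH, hP⟩ := algebraic_of_local (univ f) (univ_ne_zero f hf) _ hb
  refine localBI_of_locEq (hat H 0) f b ?_ (locEq_of_univ' f b H P hP)
  rw [cc_hat]
  exact hH

end back

end Pool.Agent.Q57.MC
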