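import Pool.Agent.Q57.MC.Transfer
import Pool.Agent.Q57.MC.Frac

set_option autoImplicit false
set_option linter.unusedSectionVars false
set_option linter.unusedVariables false

/-! # Transfer of functional equations along a chart -/

namespace Pool.Agent.Q57.MC

open MvPowerSeries Pool.Agent.W574.SM
open Pool.Agent.H628R4.TP (weylS IsLocalBFunction IsBFunction)
open Pool.Agent.W574.HS (univ)

section tay

variable {σ ν : Type}

/-- the Taylor expansion at `p`, with additional variables -/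
noncomputable def tayN (ν : Type) (p : σ → ℂ) :
    MvPolynomial σ ℂ →ₐ[ℂ] MvPowerSeries (ν ⊕ σ) ℂ :=
  MvPolynomial.aeval (fun i => (C (p i) + X (Sum.inr i) : MvPowerSeries (ν ⊕ σ) ℂ))

theorem tayN_X (p : σ → ℂ) (i : σ) : tayN ν p (MvPolynomial.X i) = C (p i) + X (Sum.inr i) :=
  MvPolynomial.aeval_X _ _

theorem tayN_cc (p : σ → ℂ) (P : MvPolynomial σ ℂ) :
    constantCoeff (tayN ν p P) = MvPolynomial.eval p P := by
  unfold tayN
  induction P using MvPolynomial.induction_on with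
  | C c =>
    rw [MvPolynomial.aeval_C, MvPolynomial.eval_C]
    exact MvPowerSeries.constantCoeff_C c
  | add p q hp hq => rw [map_add, map_add, hp, hq, map_add]
  | mul_X q i hp =>
    rw [map_mul, map_mul, hp, map_mul, MvPolynomial.aeval_X, MvPolynomial.eval_X, map_add,
      constantCoeff_C, constantCoeff_X, add_zero]

theorem pderiv_C' {ρ : Type} (t : ρ) (c : ℂ) : pderiv ℂ t (C c : MvPowerSeries ρ ℂ) = 0 :=
  (MvPowerSeries.pderiv ℂ t).map_algebraMap c

variable [Fintype σ] [DecidableEq σ]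

theorem tayN_inr (p : σ → ℂ) (P : MvPolynomial σ ℂ) (t : σ) :
    pderiv ℂ (Sum.inr t) (tayN ν p P) = tayN ν p (MvPolynomial.pderiv t P) := by
  unfold tayN
  rw [pderiv_aeval, Finset.sum_eq_single t]
  · rw [map_add, pderiv_X_self, pderiv_C', zero_add, mul_one]
  · intro s _ hs
    rw [map_add, pderiv_X_of_ne (fun h => hs (Sum.inr_injective h)), pderiv_C', zero_add, mul_zero]
  · intro h
    exact absurd (Finset.mem_univ _) h

theorem tayN_inl (p : σ → ℂ) (P : MvPolynomial σ ℂ) (a : ν) :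
    pderiv ℂ (Sum.inl a) (tayN ν p P) = 0 := by
  unfold tayN
  rw [pderiv_aeval]
  refine Finset.sum_eq_zero fun s _ => ?_
  rw [map_add, pderiv_X_of_ne (by simp), pderiv_C', zero_add, mul_zero]

end tay

section coords

variable {σ ν τ : Type} [Fintype σ] [DecidableEq σ] [Fintype ν] [DecidableEq ν] [Fintype τ]
  [DecidableEq τ]

/-- formal coordinates in which the `g_t` are coordinates -/
theorem exists_coords (Γ : τ → MvPowerSeries (ν ⊕ σ) ℂ) (s : τ → σ)
    (hg : ∀ t, constantCoeff (Γ t) = 0)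
    (hdet : (Matrix.of fun u t => constantCoeff (pderiv ℂ (Sum.inr (s u)) (Γ t))).det ≠ 0) :
    ∃ (G : ν ⊕ σ → MvPowerSeries (ν ⊕ σ) ℂ) (N : ν ⊕ σ → ν ⊕ σ → MvPowerSeries (ν ⊕ σ) ℂ),
      HasSubst G ∧ (∀ a, constantCoeff (G a) = 0) ∧ (∀ a, G (Sum.inl a) = X (Sum.inl a)) ∧
      (∀ t, (subst G (Γ t) : MvPowerSeries (ν ⊕ σ) ℂ) = X (Sum.inr (s t))) ∧
      ∀ a b, ∑ r, N a r * pderiv ℂ r (G b) = if a = b then 1 else 0 := by
  classical
  have hinj : Function.Injective s := by
    intro a b hab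
    by_contra hne'
    apply hdet
    refine Matrix.det_zero_of_row_eq hne' ?_
    funext t
    simp only [Matrix.of_apply, hab]
  set A : ν ⊕ σ → MvPowerSeries (ν ⊕ σ) ℂ := Sum.elim (fun a => X (Sum.inl a)) fun i =>
    if h : ∃ t, s t = i then Γ h.choose else X (Sum.inr i) with hA
  have hAs : ∀ t, A (Sum.inr (s t)) = Γ t := by
    intro t
    have h1 : ∃ t', s t' = s t := ⟨t, rfl⟩
    simp only [hA, Sum.elim_inr]
    rw [dif_pos h1, hinj h1.choose_spec]
  have hAn : ∀ i, (¬ ∃ t, s t = i) → A (Sum.inr i) = X (Sum.inr i) := by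
    intro i hi
    simp only [hA, Sum.elim_inr]
    rw [dif_neg hi]
  have hAl : ∀ a, A (Sum.inl a) = X (Sum.inl a) := fun a => rfl
  have hA0 : ∀ i, constantCoeff (A i) = 0 := by
    rintro (a | i)
    · rw [hAl, constantCoeff_X]
    by_cases hi : ∃ t, s t = i
    · obtain ⟨t, rfl⟩ := hi
      rw [hAs, hg]
    · rw [hAn i hi, constantCoeff_X]
  have hJ : (Matrix.of fun i j => constantCoeff (pderiv ℂ j (A i))).det ≠ 0 := by
    intro h0
    obtain ⟨v, hv, hv2⟩ := Matrix.exists_mulVec_eq_zero_iff.2 h0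
    apply hv
    have hrow : ∀ i, ∑ j, constantCoeff (pderiv ℂ j (A i)) * v j = 0 := fun i => congrFun hv2 i
    have hX : ∀ i, A i = X i → v i = 0 := by
      intro i hi
      have h1 := hrow i
      rw [Finset.sum_eq_single i] at h1
      · rw [hi, pderiv_X_self, map_one, one_mul] at h1
        exact h1
      · intro j _ hj
        rw [hi, pderiv_X_of_ne hj.symm, map_zero, zero_mul]
      · intro h
        exact absurd (Finset.mem_univ _) h
    have hvn : ∀ i, (¬ ∃ t, s t = i) → v (Sum.inr i) = 0 := fun i hi => hX _ (hAn i hi)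
    have hvl : ∀ a, v (Sum.inl a) = 0 := fun a => hX _ (hAl a)
    have hvs : (fun u => v (Sum.inr (s u))) = 0 := by
      refine Matrix.eq_zero_of_vecMul_eq_zero hdet ?_
      funext t
      have h1 := hrow (Sum.inr (s t))
      rw [Pi.zero_apply, ← h1, hAs, Fintype.sum_sum_type]
      simp only [hvl, mul_zero, Finset.sum_const_zero, zero_add]
      change ∑ u, v (Sum.inr (s u)) *
        constantCoeff (pderiv ℂ (Sum.inr (s u)) (Γ t)) = _
      have h2 : ∀ j, constantCoeff (pderiv ℂ (Sum.inr j) (Γ t)) * v (Sum.inr j) =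
          v (Sum.inr j) * constantCoeff (pderiv ℂ (Sum.inr j) (Γ t)) := by
        intro j
        rw [mul_comm]
      simp only [h2]
      rw [← Finset.sum_image (s := Finset.univ) (g := s)
        (f := fun j => v (Sum.inr j) * constantCoeff (pderiv ℂ (Sum.inr j) (Γ t)))
        (fun a _ b _ h => hinj h)]
      refine Finset.sum_subset (Finset.subset_univ _) fun j _ hj => ?_
      rw [hvn j, zero_mul]
      rintro ⟨t', rfl⟩
      exact hj (Finset.mem_image_of_mem _ (Finset.mem_univ _))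
    funext i
    rcases i with a | i
    · exact hvl a
    · by_cases hi : ∃ t, s t = i
      · obtain ⟨t, rfl⟩ := hi
        exact congrFun hvs t
      · exact hvn i hi
  obtain ⟨G, hG0, -, hAG⟩ := Pool.Agent.Results.MP_51bf1a_an.JetDet.exists_formal_inverse A hA0
    (isUnit_iff_ne_zero.2 hJ)
  have hGs : HasSubst G := hasSubst_of_constantCoeff_zero hG0
  refine ⟨G, fun a r => subst G (pderiv ℂ a (A r)), hGs, hG0, fun a => ?_, fun t => ?_,
    fun a b => ?_⟩
  · have h1 := hAG (Sum.inl a)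
    rw [hAl, subst_X hGs] at h1
    exact h1
  · rw [← hAs]
    exact hAG _
  · have h1 : (Matrix.of fun t k => pderiv ℂ t (G k)) *
        (Matrix.of fun k i => subst G (pderiv ℂ k (A i))) =
        (1 : Matrix (ν ⊕ σ) (ν ⊕ σ) (MvPowerSeries (ν ⊕ σ) ℂ)) := by
      ext1 t i
      rw [Matrix.mul_apply]
      have h2 := congrArg (fun x => pderiv ℂ t x) (hAG i)
      beta_reduce at h2
      rw [pderiv_subst hGs] at h2
      simp only [Matrix.of_apply]
      rw [Matrix.one_apply, Finset.sum_congr rfl fun k _ => mul_comm _ _, h2]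
      by_cases hti : t = i
      · subst hti
        rw [pderiv_X_self, if_pos rfl]
      · rw [pderiv_X_of_ne (fun h => hti h.symm), if_neg hti]
    have h3 := congrArg (fun B : Matrix (ν ⊕ σ) (ν ⊕ σ) (MvPowerSeries (ν ⊕ σ) ℂ) => B a b)
      (mul_eq_one_comm.1 h1)
    beta_reduce at h3
    rw [Matrix.mul_apply, Matrix.one_apply] at h3
    exact h3

end coords

section main

variable {ι κ σ τ : Type} [Fintype ι] [Fintype κ] [Fintype σ] [Fintype τ] [DecidableEq ι]
  [DecidableEq κ] [DecidableEq σ] [DecidableEq τ]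

/-- the restriction to the coordinates `z_k`, `u_t` -/
noncomputable def resV (ι : Type) {κ σ τ : Type} [DecidableEq σ] (s : τ → σ) :
    (ι ⊕ κ) ⊕ σ → MvPowerSeries (κ ⊕ τ) ℂ := by
  classical
  exact Sum.elim (Sum.elim (fun _ => 0) fun k => X (Sum.inl k)) fun i =>
    if h : ∃ t, s t = i then X (Sum.inr h.choose) else 0

theorem resV_cc (s : τ → σ) (r : (ι ⊕ κ) ⊕ σ) : constantCoeff (resV ι (κ := κ) s r) = 0 := by
  classical
  rcases r with (j | k) | i
  · exact map_zero _
  · exact constantCoeff_X _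
  · unfold resV
    simp only [Sum.elim_inr]
    split_ifs
    · exact constantCoeff_X _
    · exact map_zero _

/-- the inclusion of the polynomials in `z_k`, `u_t` -/
noncomputable def extV (ι : Type) {κ σ τ : Type} (s : τ → σ) :
    MvPolynomial (κ ⊕ τ) ℂ →ₐ[ℂ] MvPowerSeries ((ι ⊕ κ) ⊕ σ) ℂ :=
  MvPolynomial.aeval (Sum.elim (fun k => X (Sum.inl (Sum.inr k))) fun t => X (Sum.inr (s t)))

theorem res_ext (s : τ → σ) (hs : Function.Injective s) (q : MvPolynomial (κ ⊕ τ) ℂ) :
    (subst (resV ι (κ := κ) s) (extV ι s q) : MvPowerSeries (κ ⊕ τ) ℂ) =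
      (q : MvPowerSeries (κ ⊕ τ) ℂ) := by
  classical
  have hR : HasSubst (resV ι (κ := κ) s) := hasSubst_of_constantCoeff_zero (resV_cc s)
  have h1 : ((substAlgHom (R := ℂ) hR).comp (extV ι s)) =
      MvPolynomial.coeToMvPowerSeries.algHom ℂ := by
    refine MvPolynomial.algHom_ext fun m => ?_
    rw [AlgHom.comp_apply]
    unfold extV
    rw [MvPolynomial.aeval_X, MvPolynomial.coeToMvPowerSeries.algHom_apply, substAlgHom_apply]
    rcases m with k | t
    · simp only [Sum.elim_inl]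
      rw [subst_X hR]
      simp [resV]
    · simp only [Sum.elim_inr]
      rw [subst_X hR]
      have h1 : ∃ t', s t' = s t := ⟨t, rfl⟩
      unfold resV
      simp only [Sum.elim_inr]
      rw [dif_pos h1, hs h1.choose_spec]
      simp
  have h2 := congrFun (congrArg DFunLike.coe h1) q
  rw [AlgHom.comp_apply, substAlgHom_apply, MvPolynomial.coeToMvPowerSeries.algHom_apply] at h2
  rw [h2]
  simp

theorem ext_pd (s : τ → σ) (hs : Function.Injective s) (r : (ι ⊕ κ) ⊕ σ) :
    (∃ m, ∀ p, pderiv ℂ r (extV ι s p) = extV ι s (MvPolynomial.pderiv m p)) ∨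
      ∀ p, pderiv ℂ r (extV ι (κ := κ) s p) = 0 := by
  classical
  have h1 : ∀ (m : κ ⊕ τ), (∀ m', pderiv ℂ r ((Sum.elim (fun k => X (Sum.inl (Sum.inr k)))
      (fun t => X (Sum.inr (s t))) : κ ⊕ τ → MvPowerSeries ((ι ⊕ κ) ⊕ σ) ℂ) m') =
      if m' = m then 1 else 0) →
      ∀ p, pderiv ℂ r (extV ι s p) = extV ι s (MvPolynomial.pderiv m p) := by
    intro m hm p
    unfold extV
    rw [pderiv_aeval, Finset.sum_eq_single m]
    · rw [hm, if_pos rfl, mul_one]
    · intro m' _ h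
      rw [hm, if_neg h, mul_zero]
    · intro h
      exact absurd (Finset.mem_univ _) h
  have h2 : (∀ m', pderiv ℂ r ((Sum.elim (fun k => X (Sum.inl (Sum.inr k)))
      (fun t => X (Sum.inr (s t))) : κ ⊕ τ → MvPowerSeries ((ι ⊕ κ) ⊕ σ) ℂ) m') = 0) →
      ∀ p, pderiv ℂ r (extV ι (κ := κ) s p) = 0 := by
    intro hm p
    unfold extV
    rw [pderiv_aeval]
    refine Finset.sum_eq_zero fun m' _ => ?_
    rw [hm, mul_zero]
  rcases r with (j | k) | i
  · right
    refine h2 ?_
    rintro (k | t)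
    · simp only [Sum.elim_inl]
      rw [pderiv_X_of_ne (by simp)]
    · simp only [Sum.elim_inr]
      rw [pderiv_X_of_ne (by simp)]
  · left
    refine ⟨Sum.inl k, h1 _ ?_⟩
    rintro (k' | t)
    · simp only [Sum.elim_inl]
      by_cases hk : k' = k
      · subst hk
        rw [pderiv_X_self, if_pos rfl]
      · rw [pderiv_X_of_ne (by simpa using hk), if_neg (by simpa using hk)]
    · simp only [Sum.elim_inr]
      rw [pderiv_X_of_ne (by simp), if_neg (by simp)]
  · by_cases hi : ∃ t, s t = i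
    · obtain ⟨t, rfl⟩ := hi
      left
      refine ⟨Sum.inr t, h1 _ ?_⟩
      rintro (k' | t')
      · simp only [Sum.elim_inl]
        rw [pderiv_X_of_ne (by simp), if_neg (by simp)]
      · simp only [Sum.elim_inr]
        by_cases hk : t' = t
        · subst hk
          rw [pderiv_X_self, if_pos rfl]
        · rw [pderiv_X_of_ne (fun h => hk (hs (Sum.inr_injective h))),
            if_neg (by simpa using hk)]
    · right
      refine h2 ?_
      rintro (k | t)
      · simp only [Sum.elim_inl]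
        rw [pderiv_X_of_ne (by simp)]
      · simp only [Sum.elim_inr]
        rw [pderiv_X_of_ne (fun h => hi ⟨t, Sum.inr_injective h⟩)]

/-- the derivatives of `y_j` -/
theorem der_y {R : Type} [CommRing R] [Algebra ℂ R] (δ : Derivation ℂ R R)
    (Y : ι → R) (Z : κ → R) (A : ι → κ → R) (B : κ → ι → R) (hA : ∀ j k, δ (A j k) = 0)
    (hB : ∀ k j, δ (B k j) = 0) (j : ι) :
    δ (Y j + ∑ k, (Z k - ∑ j', Y j' * A j' k) * B k j) =
      δ (Y j) + ∑ k, (δ (Z k) - ∑ j', δ (Y j') * A j' k) * B k j := by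
  rw [map_add, map_sum]
  congr 1
  refine Finset.sum_congr rfl fun k _ => ?_
  rw [Derivation.leibniz, hB, smul_zero, zero_add, smul_eq_mul, map_sub, map_sum, mul_comm]
  congr 2
  refine Finset.sum_congr rfl fun j' _ => ?_
  rw [Derivation.leibniz, hA, smul_zero, zero_add, smul_eq_mul, mul_comm]

theorem sum_DE {R : Type} [CommRing R] [Algebra ℂ R] (D : (ι ⊕ κ) ⊕ σ → R → R) (A : ι → κ → R)
    (j : ι) (F : R) :
    ∑ r, (Sum.elim (Sum.elim (fun j' => if j = j' then 1 else 0) fun k => A j k)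
      (fun _ => 0) : (ι ⊕ κ) ⊕ σ → R) r * D r F =
      D (Sum.inl (Sum.inl j)) F + ∑ k, A j k * D (Sum.inl (Sum.inr k)) F := by
  rw [Fintype.sum_sum_type, Fintype.sum_sum_type]
  simp only [Sum.elim_inl, Sum.elim_inr, ite_mul, one_mul, zero_mul, Finset.sum_ite_eq,
    Finset.mem_univ, if_true, Finset.sum_const_zero, add_zero]

/-- **The map to the coordinates of a chart.** -/
theorem transfer_core (f : ι → MvPolynomial σ ℂ) (h : κ → MvPolynomial τ ℂ)
    (Γ : τ → MvPowerSeries ((ι ⊕ κ) ⊕ σ) ℂ) (s : τ → σ) (p : σ → ℂ)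
    (A : ι → κ → MvPowerSeries ((ι ⊕ κ) ⊕ σ) ℂ) (B : κ → ι → MvPowerSeries ((ι ⊕ κ) ⊕ σ) ℂ)
    (hAd : ∀ x j k, pderiv ℂ (Sum.inl x) (A j k) = 0)
    (hBd : ∀ x k j, pderiv ℂ (Sum.inl x) (B k j) = 0)
    (hAf : ∀ j, ∑ k, A j k * MvPolynomial.aeval Γ (h k) = tayN (ι ⊕ κ) p (f j))
    (hBf : ∀ k, ∑ j, B k j * tayN (ι ⊕ κ) p (f j) = MvPolynomial.aeval Γ (h k))
    (hg : ∀ t, constantCoeff (Γ t) = 0)
    (hdet : (Matrix.of fun u t => constantCoeff (pderiv ℂ (Sum.inr (s u)) (Γ t))).det ≠ 0)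
 :
    ∃ Ξ : MvPolynomial (ι ⊕ σ) ℂ →ₐ[ℂ] MvPowerSeries (κ ⊕ τ) ℂ,
      Ξ (univ f) = ((univ h : MvPolynomial (κ ⊕ τ) ℂ) : MvPowerSeries (κ ⊕ τ) ℂ) ∧
      (∀ j, constantCoeff (Ξ (MvPolynomial.X (Sum.inl j))) = 0) ∧
      (∀ i, constantCoeff (Ξ (MvPolynomial.X (Sum.inr i))) = p i) ∧
      ∀ Q : Module.End ℂ (MvPolynomial (ι ⊕ σ) ℂ), Q ∈ weylS (ι ⊕ σ) →
        ∃ (K : Type) (_ : Fintype K) (a : K → MvPowerSeries (κ ⊕ τ) ℂ) (D : K → weylS (κ ⊕ τ)),
          ∀ n : ℕ, Ξ (Q (univ f ^ n)) = ∑ l, a l *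
            (((D l : Module.End ℂ (MvPolynomial (κ ⊕ τ) ℂ)) (univ h ^ n) :
              MvPolynomial (κ ⊕ τ) ℂ) : MvPowerSeries (κ ⊕ τ) ℂ) := by
  classical
  have hinj : Function.Injective s := by
    intro a b hab
    by_contra hne'
    apply hdet
    refine Matrix.det_zero_of_row_eq hne' ?_
    funext t
    simp only [Matrix.of_apply, hab]
  set T := tayN (ι ⊕ κ) p with hT
  set Y : ι → MvPowerSeries ((ι ⊕ κ) ⊕ σ) ℂ := fun j => X (Sum.inl (Sum.inl j)) with hY
  set Z : κ → MvPowerSeries ((ι ⊕ κ) ⊕ σ) ℂ := fun k => X (Sum.inl (Sum.inr k)) with hZ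
  set y : ι → MvPowerSeries ((ι ⊕ κ) ⊕ σ) ℂ := fun j =>
    Y j + ∑ k, (Z k - ∑ j', Y j' * A j' k) * B k j with hy
  set θ : MvPolynomial (ι ⊕ σ) ℂ →ₐ[ℂ] MvPowerSeries ((ι ⊕ κ) ⊕ σ) ℂ :=
    MvPolynomial.aeval (Sum.elim y fun i => C (p i) + X (Sum.inr i)) with hθ
  have hθr : ∀ P, θ (MvPolynomial.rename Sum.inr P) = T P := by
    intro P
    rw [hθ, MvPolynomial.aeval_rename]
    rfl
  have hθl : ∀ j, θ (MvPolynomial.X (Sum.inl j)) = y j := by
    intro j
    rw [hθ, MvPolynomial.aeval_X]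
    rfl
  have hθi : ∀ i, θ (MvPolynomial.X (Sum.inr i)) = C (p i) + X (Sum.inr i) := by
    intro i
    rw [hθ, MvPolynomial.aeval_X]
    rfl
  have hθF : θ (univ f) = ∑ k, Z k * MvPolynomial.aeval Γ (h k) := by
    unfold univ
    rw [map_sum]
    simp only [map_mul, hθl, hθr, hy]
    simp only [add_mul, Finset.sum_add_distrib, Finset.sum_mul]
    have e1 : ∑ j, ∑ k, (Z k - ∑ j', Y j' * A j' k) * B k j * T (f j) =
        ∑ k, Z k * MvPolynomial.aeval Γ (h k) - ∑ j, Y j * T (f j) := by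
      rw [Finset.sum_comm]
      have e2 : ∀ k, ∑ j, (Z k - ∑ j', Y j' * A j' k) * B k j * T (f j) =
          Z k * MvPolynomial.aeval Γ (h k) -
            ∑ j', Y j' * (A j' k * MvPolynomial.aeval Γ (h k)) := by
        intro k
        have e3 : ∀ j, (Z k - ∑ j', Y j' * A j' k) * B k j * T (f j) =
            (Z k - ∑ j', Y j' * A j' k) * (B k j * T (f j)) := fun j => by ring
        rw [Finset.sum_congr rfl fun j _ => e3 j, ← Finset.mul_sum, hBf, sub_mul,
          Finset.sum_mul]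
        congr 1
        exact Finset.sum_congr rfl fun j _ => by ring
      rw [Finset.sum_congr rfl fun k _ => e2 k, Finset.sum_sub_distrib, Finset.sum_comm]
      congr 1
      refine Finset.sum_congr rfl fun j _ => ?_
      rw [← Finset.mul_sum, hAf]
    rw [e1, add_sub_cancel]
  -- the left inverse of the Jacobian matrix
  set D : ι → ((ι ⊕ κ) ⊕ σ) → MvPowerSeries ((ι ⊕ κ) ⊕ σ) ℂ := fun j =>
    Sum.elim (Sum.elim (fun j' => if j = j' then 1 else 0) fun k => A j k) fun _ => 0 with hD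
  set M : ι ⊕ σ → ((ι ⊕ κ) ⊕ σ) → MvPowerSeries ((ι ⊕ κ) ⊕ σ) ℂ := Sum.elim D fun i r =>
    (if Sum.inr i = r then 1 else 0) - ∑ j, pderiv ℂ (Sum.inr i) (y j) * D j r with hM
  have hDF : ∀ j F, ∑ r, D j r * pderiv ℂ r F = pderiv ℂ (Sum.inl (Sum.inl j)) F +
      ∑ k, A j k * pderiv ℂ (Sum.inl (Sum.inr k)) F := fun j F =>
    sum_DE (fun r F => pderiv ℂ r F) A j F
  have hDy : ∀ j j', ∑ r, D j r * pderiv ℂ r (y j') = if j = j' then 1 else 0 := by
    intro j j'
    have e1 : ∀ k, pderiv ℂ (Sum.inl (Sum.inr k)) (y j') = B k j' := by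
      intro k
      simp only [hy]
      rw [der_y _ Y Z A B (hAd _) (hBd _)]
      have e2 : ∀ j, pderiv ℂ (Sum.inl (Sum.inr k)) (Y j) = 0 := fun j =>
        pderiv_X_of_ne (by simp)
      simp only [e2, zero_mul, Finset.sum_const_zero, sub_zero, zero_add]
      rw [Finset.sum_eq_single k]
      · rw [hZ, pderiv_X_self, one_mul]
      · intro k' _ hk
        rw [hZ, pderiv_X_of_ne (by simpa using hk), zero_mul]
      · intro hk
        exact absurd (Finset.mem_univ _) hk
    have e3 : pderiv ℂ (Sum.inl (Sum.inl j)) (y j') =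
        (if j = j' then 1 else 0) - ∑ k, A j k * B k j' := by
      simp only [hy]
      rw [der_y _ Y Z A B (hAd _) (hBd _)]
      have e4 : ∀ j', pderiv ℂ (Sum.inl (Sum.inl j)) (Y j') = if j = j' then 1 else 0 := by
        intro j'
        by_cases hj : j = j'
        · subst hj
          rw [if_pos rfl]
          exact pderiv_X_self
        · rw [if_neg hj]
          exact pderiv_X_of_ne (by simpa using Ne.symm hj)
      have e5 : ∀ k, pderiv ℂ (Sum.inl (Sum.inl j)) (Z k) = 0 := fun k =>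
        pderiv_X_of_ne (by simp)
      simp only [e4, e5, ite_mul, one_mul, zero_mul, Finset.sum_ite_eq, Finset.mem_univ, if_true,
        zero_sub, neg_mul, Finset.sum_neg_distrib]
      rw [sub_eq_add_neg]
    rw [hDF, e3]
    simp only [e1]
    rw [sub_add_cancel]
  have hDx : ∀ j i, ∑ r, D j r * pderiv ℂ r (C (p i) + X (Sum.inr i)) = 0 := by
    intro j i
    rw [hDF]
    have e1 : ∀ x, pderiv ℂ (Sum.inl x)
        (C (p i) + X (Sum.inr i) : MvPowerSeries ((ι ⊕ κ) ⊕ σ) ℂ) = 0 := by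
      intro x
      rw [map_add, pderiv_C', pderiv_X_of_ne (by simp), add_zero]
    simp only [e1, mul_zero, Finset.sum_const_zero, add_zero]
  have hEF : ∀ i F, ∑ r, M (Sum.inr i) r * pderiv ℂ r F = pderiv ℂ (Sum.inr i) F -
      ∑ j, pderiv ℂ (Sum.inr i) (y j) * ∑ r, D j r * pderiv ℂ r F := by
    intro i F
    have e1 : ∀ r, M (Sum.inr i) r * pderiv ℂ r F = (if Sum.inr i = r then pderiv ℂ r F else 0) -
        ∑ j, pderiv ℂ (Sum.inr i) (y j) * (D j r * pderiv ℂ r F) := by
      intro r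
      simp only [hM, Sum.elim_inr]
      rw [sub_mul, ite_mul, one_mul, zero_mul, Finset.sum_mul]
      congr 1
      exact Finset.sum_congr rfl fun j _ => by ring
    rw [Finset.sum_congr rfl fun r _ => e1 r, Finset.sum_sub_distrib, Finset.sum_ite_eq,
      if_pos (Finset.mem_univ _), Finset.sum_comm]
    congr 1
    exact Finset.sum_congr rfl fun j _ => by rw [Finset.mul_sum]
  have hMM : ∀ i i', ∑ r, M i r * pderiv ℂ r (θ (MvPolynomial.X i')) =
      if i = i' then 1 else 0 := by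
    rintro (j | i) (j' | i')
    · rw [hθl]
      change ∑ r, D j r * _ = _
      rw [hDy]
      simp
    · rw [hθi]
      change ∑ r, D j r * _ = _
      rw [hDx]
      simp
    · rw [hθl, hEF, Finset.sum_congr rfl fun j _ => by rw [hDy]]
      simp
    · rw [hθi, hEF, Finset.sum_congr rfl fun j _ => by rw [hDx], map_add, pderiv_C', zero_add]
      simp only [mul_zero, Finset.sum_const_zero, sub_zero]
      by_cases hi : i = i'
      · subst hi
        rw [pderiv_X_self, if_pos rfl]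
      · rw [pderiv_X_of_ne (by simpa using Ne.symm hi), if_neg (by simpa using hi)]
  -- the coordinates
  obtain ⟨G, N, hGs, hG0, hGl, hGg, hN⟩ := exists_coords (ν := ι ⊕ κ) Γ s hg hdet
  have hGh : ∀ q : MvPolynomial τ ℂ, (subst G (MvPolynomial.aeval Γ q) :
      MvPowerSeries ((ι ⊕ κ) ⊕ σ) ℂ) = MvPolynomial.aeval (fun t => X (Sum.inr (s t))) q := by
    intro q
    have e1 : ((substAlgHom (R := ℂ) hGs).comp (MvPolynomial.aeval Γ)) =
        MvPolynomial.aeval (fun t => (X (Sum.inr (s t)) : MvPowerSeries ((ι ⊕ κ) ⊕ σ) ℂ)) := by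
      refine MvPolynomial.algHom_ext fun t => ?_
      rw [AlgHom.comp_apply, MvPolynomial.aeval_X, MvPolynomial.aeval_X,
        substAlgHom_apply, hGg]
    have e2 := congrFun (congrArg DFunLike.coe e1) q
    rw [AlgHom.comp_apply, substAlgHom_apply] at e2
    exact e2
  have hext : (subst G (θ (univ f)) : MvPowerSeries ((ι ⊕ κ) ⊕ σ) ℂ) = extV ι s (univ h) := by
    rw [hθF, ← substAlgHom_apply hGs, map_sum]
    unfold univ
    rw [map_sum]
    refine Finset.sum_congr rfl fun k _ => ?_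
    rw [map_mul, map_mul, substAlgHom_apply, substAlgHom_apply, hGh, hZ, subst_X hGs, hGl]
    congr 1
    · unfold extV
      rw [MvPolynomial.aeval_X]
      rfl
    · unfold extV
      rw [MvPolynomial.aeval_rename]
      rfl
  -- the operators
  have hR : HasSubst (resV ι (κ := κ) s) := hasSubst_of_constantCoeff_zero (resV_cc s)
  set Ξ : MvPolynomial (ι ⊕ σ) ℂ →ₐ[ℂ] MvPowerSeries (κ ⊕ τ) ℂ :=
    (substAlgHom (R := ℂ) hR).comp ((substAlgHom (R := ℂ) hGs).comp θ) with hΞ
  have hΞa : ∀ F, Ξ F = (subst (resV ι (κ := κ) s)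
      (subst G (θ F) : MvPowerSeries ((ι ⊕ κ) ⊕ σ) ℂ) : MvPowerSeries (κ ⊕ τ) ℂ) := by
    intro F
    rw [hΞ, AlgHom.comp_apply, AlgHom.comp_apply, substAlgHom_apply, substAlgHom_apply]
  have hcc : ∀ F, constantCoeff (Ξ F) = constantCoeff (θ F) := by
    intro F
    rw [hΞa, constantCoeff_subst' hR (resV_cc s), constantCoeff_subst' hGs hG0]
  refine ⟨Ξ, ?_, fun j => ?_, fun i => ?_, fun Q hQ => ?_⟩
  · rw [hΞa, hext, res_ext s hinj]
  · rw [hcc, hθl, hy]
    simp only
    rw [map_add, map_sum]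
    have e1 : ∀ k, constantCoeff ((Z k - ∑ j', Y j' * A j' k) * B k j) = 0 := by
      intro k
      rw [map_mul, map_sub, map_sum]
      have e2 : constantCoeff (Z k) = 0 := constantCoeff_X _
      have e3 : ∀ j', constantCoeff (Y j' * A j' k) = 0 := by
        intro j'
        have e4 : constantCoeff (Y j') = 0 := constantCoeff_X _
        rw [map_mul, e4, zero_mul]
      rw [e2, Finset.sum_eq_zero fun j' _ => e3 j', sub_zero, zero_mul]
    have e5 : constantCoeff (Y j) = 0 := constantCoeff_X _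
    rw [e5, Finset.sum_eq_zero fun k _ => e1 k, add_zero]
  · rw [hcc, hθi, map_add, constantCoeff_C, constantCoeff_X, add_zero]
  · obtain ⟨Q0, m0, e0⟩ := lift_op θ M hMM Q hQ
    obtain ⟨Q1, m1, e1⟩ := lift_subst G hGs N hN Q0 m0
    obtain ⟨K, iK, a', D', e2⟩ := nf_op (extV ι s) (ext_pd s hinj) Q1 m1 _
      (nf_e (extV ι (κ := κ) s))
    refine ⟨K, iK, fun l => subst (resV ι (κ := κ) s) (a' l), D', fun n => ?_⟩
    have k3 : (subst G (θ (univ f ^ n)) : MvPowerSeries ((ι ⊕ κ) ⊕ σ) ℂ) =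
        extV ι s (univ h ^ n) := by
      rw [map_pow, ← substAlgHom_apply hGs, map_pow, substAlgHom_apply, hext, map_pow]
    have k6 := e2 (univ h ^ n)
    beta_reduce at k6
    rw [hΞa, e0, e1, k3, k6, ← substAlgHom_apply hR, map_sum]
    refine Finset.sum_congr rfl fun l _ => ?_
    rw [map_mul, substAlgHom_apply, substAlgHom_apply, res_ext s hinj]

end main

section chart

variable {ι κ σ : Type} [Fintype ι] [Fintype κ] [Fintype σ] [DecidableEq ι]
  [DecidableEq κ] [DecidableEq σ] {c : ℕ}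

/-- **The map to the coordinates of a chart.** -/
theorem transfer_chart (f : ι → MvPolynomial σ ℂ) (h : κ → MvPolynomial (Fin c) ℂ)
    (a : Fin c → MvPolynomial σ ℂ) (s : Fin c → σ) (w : MvPolynomial σ ℂ) (p : σ → ℂ)
    (hw : MvPolynomial.eval p w ≠ 0) (hs : Same f h a w)
    (hg : ∀ t, MvPolynomial.eval p (a t) = 0)
    (hdet : (Matrix.of fun u t => MvPolynomial.eval p (MvPolynomial.pderiv (s u) (a t))).det ≠ 0) :
    ∃ Ξ : MvPolynomial (ι ⊕ σ) ℂ →ₐ[ℂ] MvPowerSeries (κ ⊕ Fin c) ℂ,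
      Ξ (univ f) = ((univ h : MvPolynomial (κ ⊕ Fin c) ℂ) : MvPowerSeries (κ ⊕ Fin c) ℂ) ∧
      (∀ j, constantCoeff (Ξ (MvPolynomial.X (Sum.inl j))) = 0) ∧
      (∀ i, constantCoeff (Ξ (MvPolynomial.X (Sum.inr i))) = p i) ∧
      ∀ Q : Module.End ℂ (MvPolynomial (ι ⊕ σ) ℂ), Q ∈ weylS (ι ⊕ σ) →
        ∃ (K : Type) (_ : Fintype K) (a : K → MvPowerSeries (κ ⊕ Fin c) ℂ)
          (D : K → weylS (κ ⊕ Fin c)),
          ∀ n : ℕ, Ξ (Q (univ f ^ n)) = ∑ l, a l *
            (((D l : Module.End ℂ (MvPolynomial (κ ⊕ Fin c) ℂ)) (univ h ^ n) :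
              MvPolynomial (κ ⊕ Fin c) ℂ) : MvPowerSeries (κ ⊕ Fin c) ℂ) := by
  classical
  set T := tayN (ι ⊕ κ) p with hT
  set V : MvPowerSeries ((ι ⊕ κ) ⊕ σ) ℂ := (T w)⁻¹ with hV
  have hTw : constantCoeff (T w) ≠ 0 := by rw [hT, tayN_cc]; exact hw
  have hVW : V * T w = 1 := MvPowerSeries.inv_mul_cancel _ hTw
  have hVd : ∀ x, pderiv ℂ (Sum.inl x) V = 0 := by
    intro x
    have e1 := congrArg (fun F => pderiv ℂ (Sum.inl x) F) hVW
    beta_reduce at e1
    rw [Derivation.leibniz, hT, tayN_inl, smul_zero, zero_add, ← hT,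
      Derivation.map_one_eq_zero, smul_eq_mul] at e1
    have e2 : pderiv ℂ (Sum.inl x) V = V * (T w * pderiv ℂ (Sum.inl x) V) := by
      rw [← mul_assoc, hVW, one_mul]
    rw [e2, e1, mul_zero]
  obtain ⟨ψ, h1, h2, h3⟩ := exists_lift (c := c) w T V (by rw [mul_comm]; exact hVW)
  have hψd : ∀ x q, pderiv ℂ (Sum.inl x) (ψ q) = 0 := by
    intro x q
    obtain ⟨P, m, hP⟩ := h2 q
    rw [hP, Derivation.leibniz, Derivation.leibniz_pow, hVd, smul_zero, smul_zero, smul_zero, hT,
      tayN_inl, smul_zero, add_zero]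
  have k1 : ∀ j, ∃ q : κ → Localization.Away w, ∑ k, q k * frac a w (h k) =
      algebraMap (MvPolynomial σ ℂ) (Localization.Away w) (f j) := by
    intro j
    refine Ideal.mem_span_range_iff_exists_fun.1 ?_
    rw [← hs]
    exact Ideal.subset_span ⟨j, rfl⟩
  have k2 : ∀ k, ∃ q : ι → Localization.Away w, ∑ j, q j *
      algebraMap (MvPolynomial σ ℂ) (Localization.Away w) (f j) = frac a w (h k) := by
    intro k
    refine Ideal.mem_span_range_iff_exists_fun.1 ?_
    rw [hs]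
    exact Ideal.subset_span ⟨k, rfl⟩
  choose A hA using k1
  choose B hB using k2
  refine transfer_core f h (fun t => T (a t) * V) s p (fun j k => ψ (A j k))
    (fun k j => ψ (B k j)) (fun x j k => hψd x _) (fun x k j => hψd x _) (fun j => ?_)
    (fun k => ?_) (fun t => ?_) ?_
  · have e1 := congrArg ψ (hA j)
    rw [map_sum, h1] at e1
    rw [← e1]
    exact Finset.sum_congr rfl fun k _ => by rw [map_mul, h3]
  · have e1 := congrArg ψ (hB k)
    rw [map_sum, h3] at e1
    rw [← e1]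
    exact Finset.sum_congr rfl fun j _ => by rw [map_mul, h1]
  · rw [map_mul, hT, tayN_cc, hg, zero_mul]
  · have e1 : (Matrix.of fun u t => constantCoeff (pderiv ℂ (Sum.inr (s u)) (T (a t) * V))) =
        constantCoeff V • (Matrix.of fun u t =>
          MvPolynomial.eval p (MvPolynomial.pderiv (s u) (a t))) := by
      ext1 u t
      rw [Matrix.smul_apply, Matrix.of_apply, Matrix.of_apply, Derivation.leibniz, smul_eq_mul,
        smul_eq_mul, map_add, map_mul, map_mul, hT, tayN_cc, hg, zero_mul, zero_add, tayN_inr,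
        tayN_cc, smul_eq_mul]
    rw [e1, Matrix.det_smul]
    refine mul_ne_zero (pow_ne_zero _ ?_) hdet
    intro h0
    have e2 := congrArg constantCoeff hVW
    rw [map_mul, h0, zero_mul, map_one] at e2
    exact zero_ne_one e2

end chart

end Pool.Agent.Q57.MC
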