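import Pool.Agent.Q57.MC.Vol2
import Pool.Agent.Q57.MC.Loc
import Pool.Agent.Q57.MC.Transfer2
import Pool.Agent.Q49.CO.Main2
import Pool.Agent.TH216.ID.Id3

set_option autoImplicit false
set_option linter.unusedSectionVars false
set_option linter.unusedVariables false

/-! # The theorem for the germs of the class -/

namespace Pool.Agent.Q57.MC

open MvPolynomial Pool.Agent.W428.MOT Pool.Agent.TH192.MT Pool.Agent.TH192.DT Pool.Agent.Q49.CO
open Pool.Agent.Y229
open Pool.Agent.W574.SM (IsFunctionalEq)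
open Pool.Agent.W574.RO (Forced)
open Pool.Agent.W574.HS (univ)
open Pool.Agent.W749.JI (fam JInd zetaI)
open Pool.Agent.H628R4.TP (IsBFunction IsLocalBFunction)

section vol

variable {σ J : Type} [Fintype σ] [Finite J]

/-- the points of the chart -/
def Dom (A : Chart σ) : Set (Pt ℂ σ) :=
  {z | (∀ t, aeval z (A.a t) = 0) ∧ aeval z A.w ≠ 0 ∧
    aeval z (Matrix.of fun u t => pderiv (A.s u) (A.a t)).det ≠ 0}

theorem constr_Dom (A : Chart σ) : Constr (Dom A) :=
  Constr.and (Constr.all fun t => Constr.eqz (IsPF.poly _))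
    (Constr.and (Constr.not (Constr.eqz (IsPF.poly _))) (Constr.not (Constr.eqz (IsPF.poly _))))

theorem mem_Dom (A : Chart σ) (p : σ → ℂ) :
    (fun i => algebraMap ℂ (AlgebraicClosure ℂ) (p i)) ∈ Dom A ↔ A.Mem p := by
  have h5 := det_aeval (A := ℂ) p fun u t => pderiv (A.s u) (A.a t)
  unfold Dom Chart.Mem
  rw [Set.mem_ofPred_eq, Ne, aeval_pt_zero, Ne, aeval_pt_zero]
  constructor
  · rintro ⟨h1, h2, h3⟩
    exact ⟨h2, fun t => (aeval_pt_zero p _).1 (h1 t), fun h => h3 (h5.trans h)⟩
  · rintro ⟨h1, h2, h3⟩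
    exact ⟨fun t => (aeval_pt_zero p _).2 (h2 t), h1, fun h => h3 (h5.symm.trans h)⟩

theorem indep_Dom (A : Chart σ) (W : Set (Pt ℂ σ)) (hW : W ⊆ Dom A) : Indep A.a W := by
  intro z hz
  obtain ⟨h1, h3, h2⟩ := hW hz
  refine ⟨h1, fun l hl t => ?_⟩
  rw [det_aeval] at h2
  have h4 := Matrix.eq_zero_of_mulVec_eq_zero h2 (v := l) (by
    funext u
    have := hl (A.s u)
    rw [Pi.zero_apply, ← this]
    change ∑ t, aeval z (pderiv (A.s u) (A.a t)) * l t = _
    refine Finset.sum_congr rfl fun t _ => ?_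
    exact mul_comm _ _)
  rw [h4]
  rfl

variable {R : Type} [CommRing R] (M : Meas ℂ R) (u : Rˣ) (hL : M.L = (u : R))
include hL

/-- **Sets which are covered by charts.** -/
theorem mem_charts (f : J → MvPolynomial σ ℂ) (D : Set (ℤ × ℤ)) (S : Finset (Chart σ))
    (hS : ∀ A ∈ S, A.Fits f) (W : Set (Pt ℂ σ)) (hW : Constr W)
    (hD : ∀ A ∈ S, (∃ p : σ → ℂ, (fun i => algebraMap ℂ (AlgebraicClosure ℂ) (p i)) ∈ W ∧
      A.Mem p) → ZW M ((u⁻¹ : Rˣ) : R) A.h {0} ∈ ratU u D)
    (h : ∀ p : σ → ℂ, (fun i => algebraMap ℂ (AlgebraicClosure ℂ) (p i)) ∈ W →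
      (∀ j, eval p (f j) = 0) → ∃ A ∈ S, A.Mem p) :
    ZW M ((u⁻¹ : Rˣ) : R) f W ∈ ratU u D := by
  classical
  have hv : M.L * ((u⁻¹ : Rˣ) : R) = 1 := by rw [hL, Units.mul_inv]
  set C : Option (Chart σ) → Set (Pt ℂ σ) := fun x => W ∩ (match x with
    | none => {z | ∃ j, aeval z (f j) ≠ 0}
    | some A => Dom A) with hC
  refine ZW_cover M _ f (ratU u D) (insert none (S.image some)) C ?_ ?_ W hW ?_
  · rintro (_ | A)
    · exact hW.inter (Constr.ex fun j => Constr.not (Constr.eqz (IsPF.poly _)))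
    · exact hW.inter (constr_Dom A)
  · rintro (_ | A) hA W' hW' hs
    · rw [ZW_off M hv f hW' fun w hw => (hs hw).2]
      exact rat_C u _
    · have hAS : A ∈ S := by
        rcases Finset.mem_insert.1 hA with h1 | h1
        · exact absurd h1 (by simp)
        · obtain ⟨B, hB, h2⟩ := Finset.mem_image.1 h1
          exact (Option.some_injective _ h2) ▸ hB
      rcases W'.eq_empty_or_nonempty with rfl | ⟨z, hz⟩
      · rw [ZW_empty]
        exact zero_mem _
      · rw [ZW_chart M hv f A.a A.h A.w (hS A hAS) hW'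
          (indep_Dom A W' fun z hz => (hs hz).2) fun z hz => (hs hz).2.2.1]
        refine Subalgebra.mul_mem _ (rat_C u _) (hD A hAS ?_)
        obtain ⟨p, rfl⟩ := exists_pt z
        exact ⟨p, (hs hz).1, (mem_Dom A p).1 (hs hz).2⟩
  · intro z hz
    by_cases h0 : ∃ j, aeval z (f j) ≠ 0
    · exact ⟨none, Finset.mem_insert_self _ _, hz, h0⟩
    · push Not at h0
      obtain ⟨p, rfl⟩ := exists_pt z
      obtain ⟨A, hA, hp⟩ := h p hz fun j => (aeval_pt_zero p _).1 (h0 j)
      exact ⟨some A, Finset.mem_insert_of_mem (Finset.mem_image_of_mem _ hA), hz,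
        (mem_Dom A p).2 hp⟩

end vol

section base

theorem zetaI_eq_zetaJ {n r : ℕ} (f : Fin r → MvPolynomial (Fin n) ℂ) : zetaI f = zetaJ f := by
  unfold zetaI zetaJ
  rw [Fintype.card_fin]
  congr 2
  funext N
  by_cases hN : N = 0
  · rw [if_pos hN, if_pos hN]
  · rw [if_neg hN, if_neg hN]
    congr 3
    ext z
    change ((∀ v, z (v, 0) = 0) ∧ _) ↔ ((fun i => z (i, 0)) ∈ ({0} : Set (Pt ℂ (Fin n))) ∧ _)
    refine and_congr ?_ Iff.rfl
    rw [Set.mem_singleton_iff]
    exact ⟨fun h => funext h, fun h v => congrFun h v⟩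

theorem sparse_ne {n r k : ℕ} (hk : 0 < k) (π : Fin k → Fin r) (m : Fin k → Fin n → ℕ)
    (c : Fin k → ℂ) (hm : JInd π m) (hc : ∀ j, c j ≠ 0) : ∃ j, fam π m c j ≠ 0 := by
  classical
  refine ⟨π ⟨0, hk⟩, ?_⟩
  set j0 : Fin k := ⟨0, hk⟩ with hj0
  have hinj : ∀ j, π j = π j0 → m j = m j0 → j = j0 := by
    intro j h1 h2
    by_contra hne
    have h3 := hm (fun x => if x = j then 1 else if x = j0 then -1 else 0) (fun i => ?_)
      (fun v => ?_) j
    · rw [if_pos rfl] at h3
      exact one_ne_zero h3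
    · have e1 : ∀ x, (if π x = i then (if x = j then (1 : ℚ) else if x = j0 then -1 else 0)
        else 0) = (if x = j then (if π j0 = i then 1 else 0) else 0) -
          (if x = j0 then (if π j0 = i then 1 else 0) else 0) := by
        intro x
        by_cases hx : x = j
        · subst hx
          rw [h1, if_pos rfl, if_pos rfl, if_neg hne, sub_zero]
        · by_cases hx' : x = j0
          · subst hx'
            rw [if_neg hx, if_pos rfl, if_neg hx, if_pos rfl]
            split_ifs <;> norm_num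
          · rw [if_neg hx, if_neg hx', if_neg hx, if_neg hx']
            simp
      rw [Finset.sum_congr rfl fun x _ => e1 x, Finset.sum_sub_distrib, Finset.sum_ite_eq',
        Finset.sum_ite_eq', if_pos (Finset.mem_univ _), if_pos (Finset.mem_univ _), sub_self]
    · have e1 : ∀ x, (if x = j then (1 : ℚ) else if x = j0 then -1 else 0) * m x v =
          (if x = j then (m j0 v : ℚ) else 0) - (if x = j0 then (m j0 v : ℚ) else 0) := by
        intro x
        by_cases hx : x = j
        · subst hx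
          rw [if_pos rfl, if_pos rfl, if_neg hne, sub_zero, one_mul, h2]
        · by_cases hx' : x = j0
          · subst hx'
            rw [if_neg hx, if_pos rfl, if_neg hx, if_pos rfl]
            ring
          · rw [if_neg hx, if_neg hx', if_neg hx, if_neg hx']
            simp
      rw [Finset.sum_congr rfl fun x _ => e1 x, Finset.sum_sub_distrib, Finset.sum_ite_eq',
        Finset.sum_ite_eq', if_pos (Finset.mem_univ _), if_pos (Finset.mem_univ _), sub_self]
  intro h0
  have h1 := congrArg (coeff (Finsupp.equivFunOnFinite.symm (m j0))) h0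
  rw [coeff_zero] at h1
  unfold fam at h1
  rw [coeff_sum] at h1
  have e1 : ∀ j, (C (c j) * ∏ v, X v ^ m j v : MvPolynomial (Fin n) ℂ) =
      monomial (Finsupp.equivFunOnFinite.symm (m j)) (c j) := by
    intro j
    rw [monomial_eq]
    congr 1
    rw [Finsupp.prod_fintype _ _ fun v => pow_zero _]
    rfl
  simp only [e1, coeff_monomial] at h1
  rw [Finset.sum_eq_single j0] at h1
  · rw [if_pos rfl] at h1
    exact hc j0 h1
  · intro j hj hne
    rw [if_neg]
    intro h2
    exact hne (hinj j (Finset.mem_filter.1 hj).2 (Finsupp.equivFunOnFinite.symm.injective h2))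
  · intro h2
    exfalso
    exact h2 (Finset.mem_filter.2 ⟨Finset.mem_univ j0, rfl⟩)

end base

end Pool.Agent.Q57.MC
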