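import Pool.Agent.W749.JI.Stm

set_option autoImplicit false

/-! # Charts -/

namespace Pool.Agent.Q57.MC

open MvPolynomial
open Pool.Agent.W749.JI (fam JInd)

/-- The element `q(a_1/w, …, a_c/w)` of the ring of the fractions with the denominators `w ^ M`. -/
noncomputable def frac {K : Type} [Field K] {σ : Type} {c : ℕ} (a : Fin c → MvPolynomial σ K)
    (w : MvPolynomial σ K) (q : MvPolynomial (Fin c) K) : Localization.Away w :=
  aeval (fun t => algebraMap (MvPolynomial σ K) (Localization.Away w) (a t) *
    IsLocalization.Away.invSelf w) q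

/-- In the ring of the fractions with the denominators `w ^ M`, the `f_j` and the
`h_k(a_1/w, …, a_c/w)` generate the same ideal. -/
def Same {K : Type} [Field K] {σ J κ : Type} {c : ℕ} (f : J → MvPolynomial σ K)
    (h : κ → MvPolynomial (Fin c) K) (a : Fin c → MvPolynomial σ K) (w : MvPolynomial σ K) : Prop :=
  Ideal.span (Set.range fun j => algebraMap (MvPolynomial σ K) (Localization.Away w) (f j)) =
    Ideal.span (Set.range fun k => frac a w (h k))

/-- Polynomials `w` and `a_1, …, a_c`, indices `s_1, …, s_c` of variables, and a family of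
polynomials `h_k` in `c` variables. -/
structure Chart (σ : Type) where
  /-- the codimension -/
  c : ℕ
  /-- the number of the `h_k` -/
  r : ℕ
  /-- the numerators `a_t` of the functions `g_t = a_t / w` -/
  a : Fin c → MvPolynomial σ ℂ
  /-- the denominator `w` -/
  w : MvPolynomial σ ℂ
  /-- the indices `s_u` -/
  s : Fin c → σ
  /-- the polynomials `h_k` -/
  h : Fin r → MvPolynomial (Fin c) ℂ

/-- Where `w` does not vanish, the ideal generated by the `f_j` is generated by the
`h_k(a_1/w, …, a_c/w)`. -/
def Chart.Fits {σ J : Type} (A : Chart σ) (f : J → MvPolynomial σ ℂ) : Prop :=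
  Same f A.h A.a A.w

/-- At `p` one has `w(p) ≠ 0`, `a_t(p) = 0`, and the minor `det (∂a_t / ∂x_(s_u))` does not vanish; so
the functions `a_t/w` are a part of a system of local coordinates at `p`. Near `p` the scheme
`{f = 0}` is the product of the germ of `{h = 0}` at the origin of `ℂ ^ c` with a smooth factor. -/
def Chart.Mem {σ : Type} (A : Chart σ) (p : σ → ℂ) : Prop :=
  eval p A.w ≠ 0 ∧ (∀ t, eval p (A.a t) = 0) ∧
    (Matrix.of fun u t => eval p (pderiv (A.s u) (A.a t))).det ≠ 0

/-- The products `f_j(x) g_k(y)` in disjoint sets of variables: they generate the product of the two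
ideals. -/
noncomputable def mulF {n r n' r' : ℕ} (f : Fin r → MvPolynomial (Fin n) ℂ)
    (g : Fin r' → MvPolynomial (Fin n') ℂ) (k : Fin (r * r')) : MvPolynomial (Fin (n + n')) ℂ :=
  rename (Fin.castAdd n') (f (finProdFinEquiv.symm k).1) *
    rename (Fin.natAdd n) (g (finProdFinEquiv.symm k).2)

/-- The polynomial `∑ y_j f_j(x)` in the variables `x_i` and `y_j`. -/
noncomputable def hypF {n r : ℕ} (f : Fin r → MvPolynomial (Fin n) ℂ) :
    MvPolynomial (Fin (n + r)) ℂ :=
  ∑ j, X (Fin.natAdd n j) * rename (Fin.castAdd r) (f j)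

end Pool.Agent.Q57.MC
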