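import Pool.Agent.Q57.MC.Defs

set_option autoImplicit false

/-! # A first class of germs (see `Q57.MD.Defs` for a larger one) -/

namespace Pool.Agent.Q57.MC

open MvPolynomial
open Pool.Agent.W749.JI (fam JInd)

/-- The class of germs at the origin: the smallest class of families of polynomials which contains
the sparse families, and is closed under cones, products, the passage from `(f_j)` to the hypersurface
`∑ y_j f_j = 0`, and smooth changes of coordinates. -/
inductive Tower : (n r : ℕ) → (Fin r → MvPolynomial (Fin n) ℂ) → Prop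
  /-- `f_i = ∑_(π j = i) c_j x ^ (m_j)` with linearly independent vectors `(m_j, e_(π j))` -/
  | sparse {n r k : ℕ} (hk : 0 < k) (π : Fin k → Fin r) (m : Fin k → Fin n → ℕ) (c : Fin k → ℂ)
      (hm : JInd π m) (hc : ∀ j, c j ≠ 0) : Tower n r (fam π m c)
  /-- forms `f_j` of the same degree, `n + 1` of which are algebraically independent, such that every
  point `p ≠ 0` with `f_j(p) = 0` for all `j` is in a chart of a finite set -/
  | cone {n r : ℕ} (f : Fin r → MvPolynomial (Fin (n + 1)) ℂ) (d : ℕ) (hd : 0 < d)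
      (hf : ∀ j, (f j).IsHomogeneous d)
      (he : ∃ e : Fin (n + 1) → Fin r, (Matrix.of fun s t => pderiv s (f (e t))).det ≠ 0)
      (S : Finset (Chart (Fin (n + 1)))) (hS : ∀ A ∈ S, A.Fits f)
      (hT : ∀ A ∈ S, Tower A.c A.r A.h)
      (hp : ∀ p : Fin (n + 1) → ℂ, p ≠ 0 → (∀ j, eval p (f j) = 0) → ∃ A ∈ S, A.Mem p) :
      Tower (n + 1) r f
  /-- products in disjoint sets of variables -/
  | mul {n r n' r' : ℕ} (f : Fin r → MvPolynomial (Fin n) ℂ)
      (g : Fin r' → MvPolynomial (Fin n') ℂ) (hf : Tower n r f) (hg : Tower n' r' g) :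
      Tower (n + n') (r * r') (mulF f g)
  /-- the hypersurface `∑ y_j f_j = 0` -/
  | hyp {n r : ℕ} (f : Fin r → MvPolynomial (Fin n) ℂ) (hf : Tower n r f) :
      Tower (n + r) 1 fun _ => hypF f
  /-- near the origin, the ideal is generated by the `h_k(g_1, …, g_c)` -/
  | germ {n r : ℕ} (f : Fin r → MvPolynomial (Fin n) ℂ) (A : Chart (Fin n)) (hA : A.Fits f)
      (h0 : A.Mem 0) (hT : Tower A.c A.r A.h) : Tower n r f

end Pool.Agent.Q57.MC
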