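import Pool.Agent.Q57.MC.One
import Pool.Agent.Q57.MC.TDefs

set_option autoImplicit false
set_option linter.unusedSectionVars false
set_option linter.unusedVariables false

/-! # The theorem for the germs of the class -/

namespace Pool.Agent.Q57.MC

open MvPolynomial Pool.Agent.W428.MOT Pool.Agent.TH192.MT Pool.Agent.TH192.DT Pool.Agent.Q49.CO
open Pool.Agent.Y229
open Pool.Agent.W574.SM (IsFunctionalEq)
open Pool.Agent.W574.LM (IsLocEq)
open Pool.Agent.W574.RO (Forced mulf)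
open Pool.Agent.W574.HS (univ)
open Pool.Agent.W749.JI (fam JInd zetaI)
open Pool.Agent.H628R4.TP (IsBFunction IsLocalBFunction weylS)

theorem sf_iff {m k : ℕ} (F : Fin k → MvPolynomial (Fin m) ℂ) (hF : ∃ j, F j ≠ 0) (α : ℂ) :
    SF F 0 α ↔ ∀ b, IsLocalBI F b → b.eval α = 0 := by
  constructor
  · exact fun h b hb => h.localBI b hb
  · intro h
    refine sf_of_local F 0 α (fun H b hb hH => h b (localBI_of_locEq H F b ?_ hb)) (exists_fe F hF)
    rwa [← MvPolynomial.eval_zero]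

section hyp

variable {n r : ℕ}

/-- the names of the variables -/
def eH (n r : ℕ) : Fin r ⊕ Fin n ≃ Fin (n + r) :=
  (Equiv.sumComm (Fin r) (Fin n)).trans finSumFinEquiv

theorem hypF_eq (f : Fin r → MvPolynomial (Fin n) ℂ) : hypF f = rename (eH n r) (univ f) := by
  unfold hypF univ
  rw [map_sum]
  refine Finset.sum_congr rfl fun j _ => ?_
  rw [map_mul, rename_X, rename_rename]
  rfl

theorem sf_hypF (f : Fin r → MvPolynomial (Fin n) ℂ) (q : Fin r ⊕ Fin n → ℂ) (α : ℂ)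
    (h : SF (fun _ : Fin 1 => univ f) q α) :
    SF (fun _ : Fin 1 => hypF f) (q ∘ (eH n r).symm) α := by
  refine sf_equiv (eH n r) (Equiv.refl _) (fun _ : Fin 1 => univ f) (fun _ : Fin 1 => hypF f)
    (fun j => hypF_eq f) _ α ?_
  have h1 : (q ∘ (eH n r).symm) ∘ (eH n r) = q := by
    funext x
    simp
  rw [h1]
  exact h

theorem hypF_ne (f : Fin r → MvPolynomial (Fin n) ℂ) (hf : ∃ j, f j ≠ 0) : hypF f ≠ 0 := by
  classical
  rw [hypF_eq, Ne, map_eq_zero_iff _ (rename_injective _ (eH n r).injective)]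
  exact Pool.Agent.W574.HS.univ_ne_zero f hf

/-- **Hypersurfaces.** -/
theorem hyp_case (f : Fin r → MvPolynomial (Fin n) ℂ)
    (ih : (∃ k, f k ≠ 0) ∧ ∃ S : Finset (ℤ × ℤ), StrongMC f S) :
    (∃ k, (fun _ : Fin 1 => hypF f) k ≠ 0) ∧
      ∃ S : Finset (ℤ × ℤ), StrongMC (fun _ : Fin 1 => hypF f) S := by
  classical
  obtain ⟨hf, S, hS, hz⟩ := ih
  have hne := hypF_ne f hf
  refine ⟨⟨0, hne⟩, insert (-1, 1) S, ?_, ?_⟩
  · have h0 : (Sum.elim 0 0 ∘ (eH n r).symm : Fin (n + r) → ℂ) = 0 := by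
      rw [elim_zero]
      rfl
    intro q hq
    rcases Finset.mem_insert.1 hq with rfl | hq
    · refine ⟨by norm_num, by norm_num, ?_⟩
      have h1 : (((-1 : ℤ) : ℂ) / ((1 : ℤ) : ℂ)) = -1 := by norm_num
      simp only
      rw [h1, ← sf_iff _ ⟨0, hne⟩]
      have h2 := sf_hypF f _ _ (sf_minus_one f hf 0)
      rwa [h0] at h2
    · obtain ⟨h1, h2, h3⟩ := hS q hq
      refine ⟨h1, h2, ?_⟩
      rw [← sf_iff _ ⟨0, hne⟩]
      rw [← sf_iff f hf] at h3
      have h4 := sf_hypF f _ _ (sf_hyp f hf 0 _ h3)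
      rwa [h0] at h4
  · obtain ⟨M, hL, hχ⟩ := exists_meas ℂ
    have hv : M.L * (((Lu ℂ)⁻¹ : (MK ℂ)ˣ) : MK ℂ) = 1 := by rw [hL, Units.mul_inv]
    rw [zeta_iff hL hχ] at hz ⊢
    have h1 : ZW M (((Lu ℂ)⁻¹ : (MK ℂ)ˣ) : MK ℂ) (fun _ : Fin 1 => hypF f) {0} =
        ZW M (((Lu ℂ)⁻¹ : (MK ℂ)ˣ) : MK ℂ) (fun _ : Fin 1 => uni f) {0} :=
      ZW_ren M _ (eH n r) (Equiv.refl _) _ _ (fun j => hypF_eq f) constr_pt0 (mem_zero_ren _)
    have h2 := ZW_hyp0 M hv f (W := {0}) constr_pt0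
    rw [WY_zero] at h2
    rw [h1, h2]
    refine Subalgebra.mul_mem _ (rat_C _ _) (Subalgebra.mul_mem _ (rat_C _ _)
      (Subalgebra.mul_mem _ (gG_mem (Lu ℂ) ?_) (rat_mono (Lu ℂ) ?_ hz)))
    · exact Finset.mem_coe.2 (Finset.mem_insert_self _ _)
    · exact fun q hq => Finset.mem_coe.2 (Finset.mem_insert_of_mem (Finset.mem_coe.1 hq))

end hyp

/-- **The theorem for the germs of the class.** -/
theorem tower_main {n r : ℕ} {f : Fin r → MvPolynomial (Fin n) ℂ} (h : Tower n r f) :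
    (∃ j, f j ≠ 0) ∧ ∃ S : Finset (ℤ × ℤ), StrongMC f S := by
  classical
  induction h with
  | sparse hk π m c hm hc =>
    refine ⟨sparse_ne hk π m c hm hc, ?_⟩
    obtain ⟨S, h1, h2⟩ := Pool.Agent.TH216.ID.ideal_loc (k0 := ℂ) hk π m hm c hc
    refine ⟨S, fun q hq => h1 q hq, ?_⟩
    rw [← zetaI_eq_zetaJ]
    exact h2 ℂ
  | cone f d hd hf he S hS hT hp ih => exact cone_case f d hd hf he S hS hp ih
  | mul f g hf hg ihf ihg => exact mul_case f g ihf ihg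
  | hyp f hf ih => exact hyp_case f ih
  | germ f A hA h0 hT ih => exact germ_case f A hA h0 ih

end Pool.Agent.Q57.MC
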