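import Pool.Agent.Q57.MC.Cases
import Pool.Agent.TH192.DT.Forms

set_option autoImplicit false
set_option linter.unusedSectionVars false
set_option linter.unusedVariables false

/-! # Families with one element -/

namespace Pool.Agent.Q57.MC

open MvPolynomial Pool.Agent.W428.MOT Pool.Agent.TH192.MT Pool.Agent.TH192.DT Pool.Agent.Q49.CO
open Pool.Agent.Y229
open Pool.Agent.W574.SM (IsFunctionalEq applyAt weyl)
open Pool.Agent.W574.LM (IsLocEq)
open Pool.Agent.W574.RO (Forced mulf)
open Pool.Agent.W574.HS (univ)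
open Pool.Agent.H628R4.TP (IsBFunction IsLocalBFunction weylS)

section

variable {σ : Type}

theorem sum_fin1 (c : Fin 1 → ℤ) (h : ∑ j, c j = 1) : c = fun _ => 1 := by
  funext i
  rw [Fin.sum_univ_one] at h
  rw [Subsingleton.elim i 0]
  exact h

/-- the functional equation of one polynomial -/
theorem eq_of_locEq1 (H F : MvPolynomial σ ℂ) (b : Polynomial ℂ)
    (hb : IsLocEq H (fun _ : Fin 1 => F) b) :
    ∃ P : ℕ →₀ weylS σ, ∀ s : ℕ, H * (C (b.eval (s : ℂ)) * F ^ s) =
      P.sum fun m Q => ((s : ℂ) ^ m) • (Q : Module.End ℂ (MvPolynomial σ ℂ)) (F ^ (s + 1)) := by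
  classical
  obtain ⟨S, P, hS, hP⟩ := hb
  set c1 : Fin 1 → ℤ := fun _ => 1 with hc1
  have hterm : ∀ s : ℕ, applyAt (P c1) (fun _ => s) (C ((∏ j, (if c1 j < 0 then
      (s).choose (-c1 j).toNat else 1) : ℕ) : ℂ) * ∏ j, F ^ ((s : ℤ) + c1 j).toNat) =
      ((P c1).mapDomain fun β => β 0).sum fun m (Q : weyl σ) =>
        ((s : ℂ) ^ m) • (Q : Module.End ℂ (MvPolynomial σ ℂ)) (F ^ (s + 1)) := by
    intro s
    rw [Finsupp.sum_mapDomain_index (fun m => by simp) (fun m Q Q' => by
      rw [← smul_add]; rfl)]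
    rw [applyAt, Fin.prod_univ_one, Fin.prod_univ_one]
    simp only [hc1]
    rw [if_neg (by norm_num), Nat.cast_one, map_one, one_mul]
    refine Finsupp.sum_congr fun β _ => ?_
    rw [Fin.prod_univ_one]
    congr 3
  by_cases h : c1 ∈ S
  · refine ⟨(P c1).mapDomain fun β => β 0, fun s => ?_⟩
    have h1 := hP fun _ => s
    rw [Finset.sum_eq_single c1 (fun c hc hne => absurd (sum_fin1 c (hS c hc)) hne)
      (fun hn => absurd h hn)] at h1
    have h2 := h1.trans (hterm s)
    rw [Fin.sum_univ_one, Fin.prod_univ_one] at h2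
    exact h2
  · refine ⟨0, fun s => ?_⟩
    have h1 := hP fun _ => s
    have h2 : S = ∅ := by
      rw [Finset.eq_empty_iff_forall_notMem]
      intro c hc
      apply h
      rw [hc1, ← sum_fin1 c (hS c hc)]
      exact hc
    rw [h2, Finset.sum_empty] at h1
    rw [Fin.sum_univ_one, Fin.prod_univ_one] at h1
    rw [Finsupp.sum_zero_index]
    exact h1

/-- the functional equation of one polynomial -/
theorem locEq1_of_eq (F : MvPolynomial σ ℂ) (b : Polynomial ℂ) (hb : IsBFunction F b) :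
    IsFunctionalEq (fun _ : Fin 1 => F) b := by
  classical
  obtain ⟨P, hP⟩ := hb
  refine ⟨{fun _ => 1}, fun _ => P.mapDomain fun m => Finsupp.single 0 m, fun c hc => ?_,
    fun s => ?_⟩
  · rw [Finset.mem_singleton.1 hc, Fin.sum_univ_one]
  · rw [Finset.sum_singleton, Fin.sum_univ_one, Fin.prod_univ_one, hP (s 0), applyAt,
      Finsupp.sum_mapDomain_index (fun m => by simp) (fun m Q Q' => by
        rw [← smul_add]; rfl)]
    refine Finsupp.sum_congr fun m _ => ?_
    rw [Fin.prod_univ_one, Fin.prod_univ_one, Fin.prod_univ_one, Finsupp.single_eq_same]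
    beta_reduce
    rw [if_neg (by norm_num), Nat.cast_one, map_one, one_mul]
    congr 3

/-- the local functional equation of one polynomial -/
theorem localBI_one (F : MvPolynomial σ ℂ) (b : Polynomial ℂ) (hb : IsLocalBFunction F b) :
    IsLocalBI (fun _ : Fin 1 => F) b := by
  classical
  obtain ⟨L, m, a, Q, hQ⟩ := hb
  refine ⟨L, fun _ _ => 1, fun l => X 0 ^ m l, a, Q, fun l => by rw [Fin.sum_univ_one],
    fun s => ?_⟩
  rw [Fin.sum_univ_one, Fin.prod_univ_one, hQ (s 0)]
  refine Finset.sum_congr rfl fun l _ => ?_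
  beta_reduce
  rw [Fin.prod_univ_one, Fin.prod_univ_one, map_pow (eval fun j => (s j : ℂ)), eval_X]
  have h1 : ((-(1 : ℤ)).toNat) = 0 := by norm_num
  rw [h1, Nat.choose_zero_right, Nat.cast_one, mul_one]
  congr 3

end

section hyp

variable {σ J : Type} [Fintype σ] [Fintype J] [DecidableEq J] [DecidableEq σ]

theorem eval_hat (H : MvPolynomial (J ⊕ σ) ℂ) (p : σ → ℂ) :
    eval p (Pool.Agent.W574.HS.hat H 0) = eval (Sum.elim 0 p) H := by
  rw [Pool.Agent.W574.HS.hat_zero]
  change eval p (constantCoeff (sumAlgEquiv ℂ J σ H)) = _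
  induction H using MvPolynomial.induction_on with
  | C a => simp
  | add P Q hP hQ => rw [map_add, map_add, map_add, map_add, hP, hQ]
  | mul_X P i hP =>
    rw [map_mul, map_mul, map_mul, map_mul, hP]
    rcases i with j | i
    · simp
    · simp

/-- **The roots of `∑ y_j f_j`.** -/
theorem sf_hyp (f : J → MvPolynomial σ ℂ) (hf : ∃ j, f j ≠ 0) (p : σ → ℂ) (α : ℂ)
    (h : SF f p α) : SF (fun _ : Fin 1 => univ f) (Sum.elim 0 p) α := by
  classical
  refine sf_of_local _ _ α (fun H b hb hH => ?_)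
    (exists_fe _ ⟨0, Pool.Agent.W574.HS.univ_ne_zero f hf⟩)
  obtain ⟨P, hP⟩ := eq_of_locEq1 H _ b hb
  refine h.locEq _ b (Pool.Agent.W574.HS.locEq_of_univ f b H P hP) ?_
  rw [eval_hat]
  exact hH

/-- **The root `-1` of `∑ y_j f_j`.** -/
theorem sf_minus_one (f : J → MvPolynomial σ ℂ) (hf : ∃ j, f j ≠ 0) (p : σ → ℂ) :
    SF (fun _ : Fin 1 => univ f) (Sum.elim 0 p) (-1) := by
  classical
  refine sf_of_local _ _ _ (fun H b hb hH => ?_)
    (exists_fe _ ⟨0, Pool.Agent.W574.HS.univ_ne_zero f hf⟩)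
  obtain ⟨P, hP⟩ := eq_of_locEq1 H _ b hb
  refine Pool.Agent.W574.HS.minus_one (univ f) H (Pool.Agent.W574.HS.univ_ne_zero f hf) ?_ b P hP
  rintro ⟨G, rfl⟩
  apply hH
  rw [map_mul]
  have h1 : eval (Sum.elim (0 : J → ℂ) p) (univ f) = 0 := by
    unfold univ
    rw [map_sum]
    refine Finset.sum_eq_zero fun j _ => ?_
    rw [map_mul, eval_X]
    simp
  rw [h1, zero_mul]

end hyp

end Pool.Agent.Q57.MC
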