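import Pool.Agent.Q57.MC.Vol2
import Pool.Agent.Q49.CO.Hyp
import Pool.Agent.Y229.SP3

set_option autoImplicit false
set_option linter.unusedSectionVars false
set_option linter.unusedVariables false

/-! # The volumes for a product of ideals in disjoint sets of variables -/

namespace Pool.Agent.Q57.MC

open MvPolynomial Pool.Agent.W428.MOT Pool.Agent.TH192.MT Pool.Agent.TH192.DT Pool.Agent.Q49.CO

section ser

variable {F : Type} [Field F] {J J' : Type}

/-- the order of a product -/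
theorem vn_prod (N : ℕ) (a : J → PowerSeries F) (b : J' → PowerSeries F) :
    (∀ x : J × J', Vn N (a x.1 * b x.2)) ↔ (∀ j, Vn N (a j)) ∨
      ∃ i < N, ((∀ j, Vn i (a j)) ∧ ¬ ∀ j, Vn (i + 1) (a j)) ∧ ∀ k, Vn (N - i) (b k) := by
  classical
  constructor
  · intro h
    by_cases h5 : ∀ j, Vn N (a j)
    · exact Or.inl h5
    · right
      have hex : ∃ k, ¬ ∀ j, Vn (k + 1) (a j) :=
        ⟨N, fun h => h5 fun j => vn_mono (h j) (Nat.le_succ N)⟩
      set k := Nat.find hex with hk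
      have hk1 := Nat.find_spec hex
      have hkN : k < N := by
        by_contra hge
        push Not at hge
        apply h5
        rcases Nat.eq_zero_or_pos N with rfl | hN
        · exact fun j i hi => absurd hi (Nat.not_lt_zero i)
        · have h6 := Nat.find_min hex (m := N - 1) (by omega)
          push Not at h6
          rwa [Nat.sub_add_cancel hN] at h6
      have hk2 : ∀ j, Vn k (a j) := by
        rcases Nat.eq_zero_or_pos k with h6 | h6
        · rw [h6]
          exact fun j i hi => absurd hi (Nat.not_lt_zero i)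
        · have h7 := Nat.find_min hex (m := k - 1) (by omega)
          push Not at h7
          rwa [Nat.sub_add_cancel h6] at h7
      refine ⟨k, hkN, ⟨hk2, hk1⟩, fun l => ?_⟩
      rw [← hk] at hk1
      push Not at hk1
      obtain ⟨j, hj⟩ := hk1
      obtain ⟨c, hc⟩ := vn_iff.1 (hk2 j)
      have hc0 : PowerSeries.coeff 0 c ≠ 0 := by
        intro h0
        apply hj
        intro i hi
        rcases Nat.lt_succ_iff_lt_or_eq.1 hi with h8 | rfl
        · exact hk2 j i h8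
        · rw [hc, PowerSeries.coeff_X_pow_mul']
          rw [if_pos le_rfl, Nat.sub_self, h0]
      have h9 := h (j, l)
      simp only at h9
      rw [hc, mul_assoc, vn_iff] at h9
      obtain ⟨e, rfl⟩ := Nat.exists_eq_add_of_lt hkN
      have h10 : PowerSeries.X ^ (e + 1) ∣ c * b l := by
        have h11 : k + e + 1 = k + (e + 1) := by ring
        rw [h11, pow_add] at h9
        exact (mul_dvd_mul_iff_left (pow_ne_zero _ PowerSeries.X_ne_zero)).1 h9
      have h12 : k + e + 1 - k = e + 1 := by omega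
      rw [h12, ← vn_unit hc0, vn_iff]
      exact h10
  · rintro (h | ⟨i, hi, ⟨h1, -⟩, h2⟩) x
    · rw [mul_comm]
      exact vn_mul _ (h x.1)
    · rw [vn_iff]
      have h3 := mul_dvd_mul (vn_iff.1 (h1 x.1)) (vn_iff.1 (h2 x.2))
      rw [← pow_add, Nat.add_sub_cancel' hi.le] at h3
      exact h3

end ser

variable {K : Type} [Field K] {R : Type} [CommRing R] (M : Meas K R)

section reindex

variable {ι κ : Type} [Fintype ι] [Fintype κ]

theorem chi_reindex (e : ι ≃ κ) {S : Set (Pt K ι)} (hS : Constr S) :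
    M.χ κ {z | (fun i => z (e i)) ∈ S} = M.χ ι S := by
  refine M.iso _ _ (hS.preimage (fun (z : Pt K κ) (i : ι) => z (e i)) fun i => IsPF.coord _) hS
    (fun z i => z (e i)) (fun w k => w (e.symm k))
    (regularOn_poly (fun i => IsPF.coord _) _) (regularOn_poly (fun i => IsPF.coord _) _)
    ?_ ?_ ?_ ?_
  · intro z hz
    exact hz
  · intro w hw
    change (fun i => w (e.symm (e i))) ∈ S
    simp only [Equiv.symm_apply_apply]
    exact hw
  · intro z _
    funext k
    beta_reduce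
    rw [Equiv.apply_symm_apply]
  · intro w _
    funext i
    beta_reduce
    rw [Equiv.symm_apply_apply]

end reindex

variable {σ τ J J' : Type} [Fintype σ] [Fintype τ] [Fintype J] [Fintype J']

/-- the product of the sets of origins -/
def PW (W : Set (Pt K σ)) (W' : Set (Pt K τ)) : Set (Pt K (σ ⊕ τ)) :=
  {z | (fun i => z (Sum.inl i)) ∈ W ∧ (fun i => z (Sum.inr i)) ∈ W'}

theorem constr_PW {W : Set (Pt K σ)} {W' : Set (Pt K τ)} (hW : Constr W) (hW' : Constr W') :
    Constr (PW W W') :=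
  Constr.and (hW.preimage (fun (z : Pt K (σ ⊕ τ)) (i : σ) => z (Sum.inl i)) fun i => IsPF.coord _)
    (hW'.preimage (fun (z : Pt K (σ ⊕ τ)) (i : τ) => z (Sum.inr i)) fun i => IsPF.coord _)

theorem PW_zero : PW ({0} : Set (Pt K σ)) ({0} : Set (Pt K τ)) = {0} := by
  ext z
  unfold PW
  rw [Set.mem_ofPred_eq, Set.mem_singleton_iff, Set.mem_singleton_iff, Set.mem_singleton_iff]
  constructor
  · rintro ⟨h1, h2⟩
    funext i
    rcases i with j | i
    · exact congrFun h1 j
    · exact congrFun h2 i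
  · rintro rfl
    exact ⟨rfl, rfl⟩

/-- the products `f_j(x) g_k(y)` -/
noncomputable def mulK (f : J → MvPolynomial σ K) (g : J' → MvPolynomial τ K) (x : J × J') :
    MvPolynomial (σ ⊕ τ) K :=
  rename Sum.inl (f x.1) * rename Sum.inr (g x.2)

/-- products of sets of jets -/
def PJ {N : ℕ} (A : Set (Pt K (σ × Fin (N + 1)))) (B : Set (Pt K (τ × Fin (N + 1)))) :
    Set (Pt K ((σ ⊕ τ) × Fin (N + 1))) :=
  {z | (fun q : σ × Fin (N + 1) => z (Sum.inl q.1, q.2)) ∈ A ∧
    (fun q : τ × Fin (N + 1) => z (Sum.inr q.1, q.2)) ∈ B}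

theorem constr_PJ {N : ℕ} {A : Set (Pt K (σ × Fin (N + 1)))} {B : Set (Pt K (τ × Fin (N + 1)))}
    (hA : Constr A) (hB : Constr B) : Constr (PJ A B) :=
  Constr.and (hA.preimage (fun (z : Pt K ((σ ⊕ τ) × Fin (N + 1))) (q : σ × Fin (N + 1)) =>
      z (Sum.inl q.1, q.2)) fun i => IsPF.coord _)
    (hB.preimage (fun (z : Pt K ((σ ⊕ τ) × Fin (N + 1))) (q : τ × Fin (N + 1)) =>
      z (Sum.inr q.1, q.2)) fun i => IsPF.coord _)

theorem chi_PJ {N : ℕ} {A : Set (Pt K (σ × Fin (N + 1)))} {B : Set (Pt K (τ × Fin (N + 1)))}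
    (hA : Constr A) (hB : Constr B) : M.χ _ (PJ A B) = M.χ _ A * M.χ _ B := by
  rw [← M.prod A B hA hB]
  exact chi_reindex M (Equiv.sumProdDistrib σ τ (Fin (N + 1))).symm
    (S := {z : Pt K ((σ × Fin (N + 1)) ⊕ (τ × Fin (N + 1))) | (fun i => z (Sum.inl i)) ∈ A ∧
      (fun i => z (Sum.inr i)) ∈ B})
    (Constr.and (hA.preimage (fun (z : Pt K ((σ × Fin (N + 1)) ⊕ (τ × Fin (N + 1))))
      (i : σ × Fin (N + 1)) => z (Sum.inl i)) fun i => IsPF.coord _)
      (hB.preimage (fun (z : Pt K ((σ × Fin (N + 1)) ⊕ (τ × Fin (N + 1))))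
      (i : τ × Fin (N + 1)) => z (Sum.inr i)) fun i => IsPF.coord _))

theorem mem_GW_mulK (f : J → MvPolynomial σ K) (g : J' → MvPolynomial τ K)
    (W : Set (Pt K σ)) (W' : Set (Pt K τ)) (N : ℕ) :
    GW (mulK f g) (PW W W') N N = PJ (GW f W N N) (GW g W' 0 N) ∪
      ⋃ i ∈ Finset.range N, PJ (AX f W i N) (GW g W' (N - i) N) := by
  ext z
  rw [Set.mem_union, Set.mem_iUnion₂, mem_GW]
  have h1 : ∀ x : J × J', aeval (ar z) (mulK f g x) =
      aeval (ar fun q : σ × Fin (N + 1) => z (Sum.inl q.1, q.2)) (f x.1) *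
        aeval (ar fun q : τ × Fin (N + 1) => z (Sum.inr q.1, q.2)) (g x.2) := by
    intro x
    unfold mulK
    rw [map_mul, aeval_rename, aeval_rename]
    rfl
  simp only [h1]
  rw [vn_prod N (fun j => aeval (ar fun q : σ × Fin (N + 1) => z (Sum.inl q.1, q.2)) (f j))
    (fun k => aeval (ar fun q : τ × Fin (N + 1) => z (Sum.inr q.1, q.2)) (g k))]
  constructor
  · rintro ⟨⟨h2, h3⟩, h4 | ⟨i, hi, ⟨h4, h5⟩, h6⟩⟩
    · left
      exact ⟨⟨h2, h4⟩, ⟨h3, fun j k hk => absurd hk (Nat.not_lt_zero k)⟩⟩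
    · right
      exact ⟨i, Finset.mem_range.2 hi, ⟨⟨h2, h4⟩, fun h7 => h5 h7.2⟩, ⟨h3, h6⟩⟩
  · rintro (⟨⟨h2, h3⟩, ⟨h4, -⟩⟩ | ⟨i, hi, ⟨⟨h2, h3⟩, h4⟩, ⟨h5, h6⟩⟩)
    · exact ⟨⟨h2, h4⟩, Or.inl h3⟩
    · exact ⟨⟨h2, h5⟩, Or.inr ⟨i, Finset.mem_range.1 hi, ⟨h3, fun h7 => h4 ⟨h2, h7⟩⟩, h6⟩⟩

variable {v : R} (hv : M.L * v = 1)
include hv

theorem chi_AX (f : J → MvPolynomial σ K) {W : Set (Pt K σ)} (hW : Constr W) (k N : ℕ)
    (hk : k ≤ N) : M.χ _ (AX f W k N) * v ^ (Fintype.card σ * (N + 1)) =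
      vol M v f W k - vol M v f W (k + 1) := by
  rw [← vol_eq M hv f hW k N (by omega), ← vol_eq M hv f hW (k + 1) N (by omega), ← sub_mul]
  congr 1
  have h1 : GW f W (k + 1) N ⊆ GW f W k N :=
    fun z hz => ⟨hz.1, fun j => vn_mono (hz.2 j) (Nat.le_succ k)⟩
  have h2 : GW f W k N = AX f W k N ∪ GW f W (k + 1) N := by
    unfold AX
    rw [← Set.sdiff_eq, Set.sdiff_union_of_subset h1]
  have h3 : Disjoint (AX f W k N) (GW f W (k + 1) N) :=
    Set.disjoint_left.2 fun z hz hz' => hz.2 hz'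
  rw [eq_sub_iff_add_eq, ← M.add _ _ (constr_AX f hW k N) (constr_GW f hW _ _) h3, ← h2]

theorem vol_mulK (f : J → MvPolynomial σ K) (g : J' → MvPolynomial τ K) {W : Set (Pt K σ)}
    {W' : Set (Pt K τ)} (hW : Constr W) (hW' : Constr W') (N : ℕ) :
    vol M v (mulK f g) (PW W W') N = vol M v f W N * vol M v g W' 0 +
      ∑ i ∈ Finset.range N, (vol M v f W i - vol M v f W (i + 1)) * vol M v g W' (N - i) := by
  have hc1 := constr_PJ (constr_GW f hW N N) (constr_GW g hW' 0 N)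
  have hc2 : ∀ i, Constr (PJ (AX f W i N) (GW g W' (N - i) N)) := fun i =>
    constr_PJ (constr_AX f hW i N) (constr_GW g hW' _ N)
  have hexp : v ^ (Fintype.card (σ ⊕ τ) * (N + 1)) =
      v ^ (Fintype.card σ * (N + 1)) * v ^ (Fintype.card τ * (N + 1)) := by
    rw [Fintype.card_sum, add_mul, pow_add]
  unfold vol
  rw [mem_GW_mulK, M.add _ _ hc1 (Pool.Agent.W375.MT.constr_biUnion _ _ fun i _ => hc2 i),
    Pool.Agent.W375.MT.chi_biUnion M _ _ (fun i _ => hc2 i), add_mul, Finset.sum_mul]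
  · change _ = vol M v f W N * vol M v g W' 0 + ∑ i ∈ Finset.range N,
      (vol M v f W i - vol M v f W (i + 1)) * vol M v g W' (N - i)
    congr 1
    · rw [chi_PJ M (constr_GW f hW N N) (constr_GW g hW' 0 N), hexp,
        ← vol_eq M hv g hW' 0 N (by omega)]
      unfold vol
      ring
    · refine Finset.sum_congr rfl fun i hi => ?_
      rw [Finset.mem_range] at hi
      rw [chi_PJ M (constr_AX f hW i N) (constr_GW g hW' (N - i) N), hexp,
        ← chi_AX M hv f hW i N hi.le, ← vol_eq M hv g hW' (N - i) N (by omega)]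
      ring
  · intro i _ j _ hne
    have hlt : ∀ a b, a < b → Disjoint (PJ (AX f W a N) (GW g W' (N - a) N))
        (PJ (AX f W b N) (GW g W' (N - b) N)) := by
      intro a b hab
      rw [Set.disjoint_left]
      rintro z ⟨⟨_, h1⟩, _⟩ ⟨⟨⟨h2, h3⟩, _⟩, _⟩
      exact h1 ⟨h2, fun j => vn_mono (h3 j) hab⟩
    rcases lt_or_gt_of_ne hne with h | h
    · exact hlt i j h
    · exact (hlt j i h).symm
  · rw [Set.disjoint_left]
    rintro z ⟨⟨h2, h3⟩, _⟩ hz
    obtain ⟨i, hi, ⟨⟨_, h1⟩, _⟩⟩ := Set.mem_iUnion₂.1 hz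
    exact h1 ⟨h2, fun j => vn_mono (h3 j) (Finset.mem_range.1 hi)⟩

/-- **Products.** -/
theorem ZW_mulK (f : J → MvPolynomial σ K) (g : J' → MvPolynomial τ K) {W : Set (Pt K σ)}
    {W' : Set (Pt K τ)} (hW : Constr W) (hW' : Constr W') :
    ZW M v (mulK f g) (PW W W') = ZW M v f W * ZW M v g W' := by
  ext N
  rw [PowerSeries.coeff_mul, Finset.Nat.sum_antidiagonal_eq_sum_range_succ_mk]
  simp only [ZW, PowerSeries.coeff_mk]
  rw [vol_mulK M hv f g hW hW' N, vol_mulK M hv f g hW hW' (N + 1), Finset.sum_range_succ,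
    Finset.sum_range_succ, Nat.sub_self]
  have h1 : ∑ i ∈ Finset.range N, (vol M v f W i - vol M v f W (i + 1)) *
      (vol M v g W' (N - i) - vol M v g W' (N - i + 1)) =
      ∑ i ∈ Finset.range N, (vol M v f W i - vol M v f W (i + 1)) * vol M v g W' (N - i) -
      ∑ i ∈ Finset.range N, (vol M v f W i - vol M v f W (i + 1)) *
        vol M v g W' (N + 1 - i) := by
    rw [← Finset.sum_sub_distrib]
    refine Finset.sum_congr rfl fun i hi => ?_
    rw [Finset.mem_range] at hi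
    have h2 : N + 1 - i = N - i + 1 := by omega
    rw [h2]
    ring
  rw [h1, Nat.add_sub_cancel_left]
  ring

end Pool.Agent.Q57.MC
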