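import Pool.Agent.TH192.MU.TDefs
import Pool.Agent.TH192.DT.MotZ

set_option autoImplicit false
set_option linter.unusedSectionVars false
set_option linter.unusedVariables false

/-! # The poles of the topological zeta function -/

namespace Pool.Agent.Q57.MC

open Pool.Agent.W428.MOT Pool.Agent.TH192.MT Pool.Agent.TH192.DT Pool.Agent.TH192.MU

section newton

/-- a function with a vanishing iterated difference is a polynomial -/
theorem poly_of_diff (f : ℕ → ℂ) (M : ℕ) (h : ∀ n, (fwdDiff 1)^[M + 1] f n = 0) :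
    ∃ W : Polynomial ℂ, ∀ n : ℕ, f n = W.eval (n : ℂ) := by
  have h1 : ∀ k n, M < k → (fwdDiff 1)^[k] f n = 0 := by
    intro k n hk
    obtain ⟨j, rfl⟩ := Nat.exists_eq_add_of_lt hk
    have h2 : (fwdDiff (1 : ℕ))^[M + j + 1] f = (fwdDiff 1)^[j] ((fwdDiff 1)^[M + 1] f) := by
      rw [← Function.iterate_add_apply]
      congr 1
      ring_nf
    have h3 : (fwdDiff (1 : ℕ))^[M + 1] f = fun _ => 0 := funext h
    rw [h2, h3]
    have h4 : ∀ j, (fwdDiff (1 : ℕ))^[j] (fun _ : ℕ => (0 : ℂ)) = fun _ => 0 := by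
      intro j
      induction j with
      | zero => rfl
      | succ j ih => rw [Function.iterate_succ_apply', ih, fwdDiff_const]
    rw [h4]
  refine ⟨∑ k ∈ Finset.range (M + 1), Polynomial.C ((fwdDiff 1)^[k] f 0 / (k.factorial : ℂ)) *
    descPochhammer ℂ k, fun n => ?_⟩
  have h5 := shift_eq_sum_fwdDiff_iter (1 : ℕ) f n 0
  rw [zero_add, smul_eq_mul, mul_one] at h5
  rw [h5, Polynomial.eval_finsetSum]
  have h6 : ∀ k, (Polynomial.C ((fwdDiff 1)^[k] f 0 / (k.factorial : ℂ)) *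
      descPochhammer ℂ k).eval (n : ℂ) = n.choose k • (fwdDiff 1)^[k] f 0 := by
    intro k
    rw [Polynomial.eval_mul, Polynomial.eval_C, descPochhammer_eval_eq_descFactorial,
      Nat.descFactorial_eq_factorial_mul_choose, nsmul_eq_mul]
    push_cast
    have : (k.factorial : ℂ) ≠ 0 := by exact_mod_cast Nat.factorial_ne_zero k
    field_simp
  simp only [h6]
  rcases le_total n M with hn | hn
  · refine Finset.sum_subset (Finset.range_mono (by omega)) fun k _ hk => ?_
    rw [Nat.choose_eq_zero_of_lt (by simpa using hk), zero_smul]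
  · symm
    refine Finset.sum_subset (Finset.range_mono (by omega)) fun k _ hk => ?_
    rw [h1 k 0 (by simpa using hk), smul_zero]

variable {A : Type} [CommRing A]

theorem dvd_diff (P : Polynomial A) (w : A) (k n : ℕ) :
    (1 - w) ^ k ∣ (fwdDiff 1)^[k] (fun n : ℕ => P.eval (w ^ (n + 1))) n := by
  induction P using Polynomial.induction_on' with
  | add P Q hP hQ =>
    have h1 : (fun n : ℕ => (P + Q).eval (w ^ (n + 1))) =
        (fun n : ℕ => P.eval (w ^ (n + 1))) + fun n : ℕ => Q.eval (w ^ (n + 1)) := by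
      funext n
      rw [Polynomial.eval_add]
      rfl
    rw [h1, fwdDiff_iter_add]
    exact dvd_add hP hQ
  | monomial m p =>
    have h1 : ∀ k, (fwdDiff (1 : ℕ))^[k] (fun n : ℕ => (Polynomial.monomial m p).eval
        (w ^ (n + 1))) = fun n => p * (w ^ m) ^ (n + 1) * (w ^ m - 1) ^ k := by
      intro k
      induction k with
      | zero =>
        funext n
        rw [Function.iterate_zero_apply, Polynomial.eval_monomial, pow_zero, mul_one, ← pow_mul,
          ← pow_mul, mul_comm m]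
      | succ k ih =>
        rw [Function.iterate_succ_apply', ih]
        funext n
        rw [fwdDiff]
        ring
    rw [h1]
    refine dvd_mul_of_dvd_right (pow_dvd_pow_of_dvd ?_ k) _
    have h2 := sub_dvd_pow_sub_pow w 1 m
    rw [one_pow] at h2
    rw [← neg_sub w 1]
    exact (neg_dvd).2 h2

end newton

section loc

variable {R : Type} [CommRing R] [IsDomain R] (ε : R →+* ℂ)

/-- **The values of a rational function at `w, w ^ 2, …`, divided by `(1 - w) ^ M`.** -/
theorem exists_poly (w : R) (hw : w ≠ 1) (hε : ε w = 1) (P : Polynomial R) (M : ℕ)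
    (x y : ℕ → R) (hy : ∀ n, ε (y n) ≠ 0)
    (h : ∀ n, P.eval (w ^ (n + 1)) * y n = (1 - w) ^ M * x n) :
    ∃ W : Polynomial ℂ, ∀ n : ℕ, ε (x n) = W.eval (n : ℂ) * ε (y n) := by
  classical
  set 𝔭 : Ideal R := RingHom.ker ε with h𝔭
  have : 𝔭.IsPrime := RingHom.ker_isPrime ε
  set A := Localization.AtPrime 𝔭 with hA
  have : IsDomain A := IsLocalization.isDomain_localization
    (Ideal.primeCompl_le_nonZeroDivisors 𝔭)
  have hu : ∀ y : 𝔭.primeCompl, IsUnit (ε y) := by
    intro y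
    refine isUnit_iff_ne_zero.2 fun h0 => y.2 ?_
    exact h0
  set ε' : A →+* ℂ := IsLocalization.lift (M := 𝔭.primeCompl) hu with hε'
  have h1 : ∀ r, ε' (algebraMap R A r) = ε r := fun r => IsLocalization.lift_eq hu r
  have hyc : ∀ n, y n ∈ 𝔭.primeCompl := fun n h0 => hy n h0
  set g : ℕ → A := fun n => IsLocalization.mk' A (x n) (⟨y n, hyc n⟩ : 𝔭.primeCompl) with hg
  have hgy : ∀ n, g n * algebraMap R A (y n) = algebraMap R A (x n) := fun n =>
    IsLocalization.mk'_spec A (x n) (⟨y n, hyc n⟩ : 𝔭.primeCompl)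
  have hinj : Function.Injective (algebraMap R A) :=
    IsLocalization.injective A (Ideal.primeCompl_le_nonZeroDivisors 𝔭)
  have hϖ : algebraMap R A (1 - w) ≠ 0 := by
    intro h0
    rw [← map_zero (algebraMap R A)] at h0
    exact hw (sub_eq_zero.1 (hinj h0)).symm
  have hϖ' : (1 - algebraMap R A w) ≠ 0 := by
    rwa [map_sub, map_one] at hϖ
  have hgP : ∀ n, (1 - algebraMap R A w) ^ M * g n =
      (P.map (algebraMap R A)).eval ((algebraMap R A w) ^ (n + 1)) := by
    intro n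
    have hyn : algebraMap R A (y n) ≠ 0 := by
      intro h0
      rw [← map_zero (algebraMap R A)] at h0
      exact hy n (by rw [hinj h0, map_zero])
    apply mul_right_cancel₀ hyn
    rw [mul_assoc, hgy, ← map_pow, Polynomial.eval_map, Polynomial.eval₂_at_apply, ← map_mul, h,
      map_mul, map_pow, map_sub, map_one]
  have hdiff : ∀ n, ε' ((fwdDiff 1)^[M + 1] g n) = 0 := by
    intro n
    have h2 := dvd_diff (P.map (algebraMap R A)) (algebraMap R A w) (M + 1) n
    have h3 : (fun n : ℕ => (P.map (algebraMap R A)).eval ((algebraMap R A w) ^ (n + 1))) =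
        (1 - algebraMap R A w) ^ M • g := by
      funext n
      rw [← hgP]
      rfl
    rw [h3, fwdDiff_iter_const_smul, pow_succ, Pi.smul_apply, smul_eq_mul] at h2
    have h4 : (1 - algebraMap R A w) ∣ (fwdDiff 1)^[M + 1] g n :=
      (mul_dvd_mul_iff_left (pow_ne_zero M hϖ')).1 h2
    obtain ⟨κ, hκ⟩ := h4
    rw [hκ, map_mul, map_sub, map_one, h1, hε, sub_self, zero_mul]
  have hcomm : ∀ k, (fwdDiff (1 : ℕ))^[k] (fun n => ε' (g n)) =
      fun n => ε' ((fwdDiff 1)^[k] g n) := by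
    intro k
    induction k with
    | zero => rfl
    | succ k ih =>
      rw [Function.iterate_succ_apply', Function.iterate_succ_apply', ih]
      funext n
      rw [fwdDiff, fwdDiff, map_sub]
  obtain ⟨W, hW⟩ := poly_of_diff (fun n => ε' (g n)) M fun n => by
    rw [hcomm]
    exact hdiff n
  refine ⟨W, fun n => ?_⟩
  rw [← hW]
  have h5 := congrArg ε' (hgy n)
  rw [map_mul, h1, h1] at h5
  exact h5.symm

end loc

section rat

variable {R₀ R : Type} [CommRing R₀] [CommRing R] [IsDomain R] (ε : R →+* ℂ) (E : R₀ →+* R)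
  (u : R₀ˣ) (w : R)

/-- `Q(w ^ s)` is `(1 - w) ^ M` times an element with the value `B(s)` -/
def Den (D : Set (ℤ × ℤ)) (Q : Polynomial R₀) : Prop :=
  ∃ (M : ℕ) (B : Polynomial ℂ), (∀ z : ℂ, B.eval z = 0 → ∃ q ∈ D, z = (q.1 : ℂ) / q.2) ∧
    B ≠ 0 ∧ ∀ s : ℕ, ∃ q : R, (Q.map E).eval (w ^ (s + 1)) = (1 - w) ^ M * q ∧
      ε q = B.eval ((s + 1 : ℕ) : ℂ)

variable {ε E u w}

theorem Den.one {D : Set (ℤ × ℤ)} : Den ε E w D 1 := by
  refine ⟨0, 1, fun z hz => ?_, one_ne_zero, fun s => ⟨1, ?_, ?_⟩⟩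
  · rw [Polynomial.eval_one] at hz
    exact absurd hz one_ne_zero
  · rw [Polynomial.map_one, Polynomial.eval_one, pow_zero, one_mul]
  · rw [map_one, Polynomial.eval_one]

theorem Den.mul {D : Set (ℤ × ℤ)} {Q Q' : Polynomial R₀} (h : Den ε E w D Q)
    (h' : Den ε E w D Q') : Den ε E w D (Q * Q') := by
  obtain ⟨M, B, h1, h2, h3⟩ := h
  obtain ⟨M', B', h1', h2', h3'⟩ := h'
  refine ⟨M + M', B * B', fun z hz => ?_, mul_ne_zero h2 h2', fun s => ?_⟩
  · rw [Polynomial.eval_mul] at hz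
    rcases mul_eq_zero.1 hz with hz | hz
    · exact h1 z hz
    · exact h1' z hz
  · obtain ⟨q, hq, hq'⟩ := h3 s
    obtain ⟨p, hp, hp'⟩ := h3' s
    refine ⟨q * p, ?_, ?_⟩
    · rw [Polynomial.map_mul, Polynomial.eval_mul, hq, hp, pow_add]
      ring
    · rw [map_mul, hq', hp', Polynomial.eval_mul]

/-- the factors `1 - u ^ a T ^ b` -/
theorem Den.fac (hw : E (u : R₀) * w = 1) (hε : ε w = 1) {D : Set (ℤ × ℤ)} {a b : ℤ} (ha : a < 0)
    (hb : 0 < b) (hD : (a, b) ∈ D) :
    Den ε E w D (1 - Polynomial.C ((u ^ a : R₀ˣ) : R₀) * Polynomial.X ^ b.toNat) := by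
  refine ⟨1, Polynomial.C (b : ℂ) * Polynomial.X - Polynomial.C (a : ℂ), fun z hz => ?_, ?_,
    fun s => ?_⟩
  · refine ⟨(a, b), hD, ?_⟩
    rw [Polynomial.eval_sub, Polynomial.eval_mul, Polynomial.eval_C, Polynomial.eval_X,
      Polynomial.eval_C] at hz
    have hb' : ((b : ℤ) : ℂ) ≠ 0 := by exact_mod_cast hb.ne'
    rw [eq_div_iff hb']
    linear_combination hz
  · intro h0
    have h1 := congrArg (Polynomial.eval 0) h0
    rw [Polynomial.eval_sub, Polynomial.eval_mul, Polynomial.eval_X, mul_zero, Polynomial.eval_C,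
      zero_sub, Polynomial.eval_zero, neg_eq_zero] at h1
    have : a = 0 := by exact_mod_cast h1
    omega
  · obtain ⟨k, hk⟩ : ∃ k : ℕ, (k : ℤ) = b * (s + 1 : ℕ) - a := by
      refine ⟨(b * (s + 1 : ℕ) - a).toNat, Int.toNat_of_nonneg ?_⟩
      have : 0 ≤ b * (s + 1 : ℕ) := by positivity
      omega
    have h1 : E ((u ^ a : R₀ˣ) : R₀) * (w ^ (s + 1)) ^ b.toNat = w ^ k := by
      obtain ⟨c, hc⟩ : ∃ c : ℕ, a = -(c : ℤ) := ⟨(-a).toNat, by omega⟩
      have h2 : E ((u ^ a : R₀ˣ) : R₀) = w ^ c := by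
        have h3 : (u : R₀) ^ c * ((u ^ a : R₀ˣ) : R₀) = 1 := by
          rw [← Units.val_pow_eq_pow_val, ← Units.val_mul, hc, ← zpow_natCast, ← zpow_add,
            add_neg_cancel, zpow_zero, Units.val_one]
        have h4 := congrArg E h3
        rw [map_mul, map_pow, map_one] at h4
        have h5 : (E (u : R₀)) ^ c * w ^ c = 1 := by rw [← mul_pow, hw, one_pow]
        calc E ((u ^ a : R₀ˣ) : R₀) = ((E (u : R₀)) ^ c * w ^ c) * E ((u ^ a : R₀ˣ) : R₀) := by
              rw [h5, one_mul]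
          _ = w ^ c * ((E (u : R₀)) ^ c * E ((u ^ a : R₀ˣ) : R₀)) := by ring
          _ = w ^ c := by rw [h4, mul_one]
      rw [h2, ← pow_mul, ← pow_add]
      congr 1
      have h6 : ((c + (s + 1) * b.toNat : ℕ) : ℤ) = (k : ℤ) := by
        rw [hk]
        push_cast
        rw [Int.toNat_of_nonneg hb.le, hc]
        ring
      exact_mod_cast h6
    refine ⟨∑ i ∈ Finset.range k, w ^ i, ?_, ?_⟩
    · rw [Polynomial.map_sub, Polynomial.map_one, Polynomial.map_mul, Polynomial.map_pow,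
        Polynomial.map_X, Polynomial.map_C, Polynomial.eval_sub, Polynomial.eval_one,
        Polynomial.eval_mul, Polynomial.eval_pow, Polynomial.eval_X, Polynomial.eval_C, h1,
        pow_one]
      have h7 := mul_geom_sum w k
      linear_combination h7
    · rw [map_sum]
      simp only [map_pow, hε, one_pow, Finset.sum_const, Finset.card_range, nsmul_eq_mul, mul_one]
      have h8 := congrArg (fun z : ℤ => (z : ℂ)) hk
      push_cast at h8
      rw [Polynomial.eval_sub, Polynomial.eval_mul, Polynomial.eval_C, Polynomial.eval_X,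
        Polynomial.eval_C]
      push_cast
      exact h8

theorem geoU_spec (u : R₀ˣ) (a b : ℤ) (hb : 0 < b) :
    (1 - PowerSeries.C ((u ^ a : R₀ˣ) : R₀) * PowerSeries.X ^ b.toNat) * geoU u a b = 1 := by
  refine PowerSeries.mul_invOfUnit _ 1 ?_
  have h1 : b.toNat ≠ 0 := by omega
  rw [map_sub, map_one, map_mul, map_pow, PowerSeries.constantCoeff_X, zero_pow h1, mul_zero,
    sub_zero, Units.val_one]

/-- every element of the ring is a quotient -/
theorem exists_den (hw : E (u : R₀) * w = 1) (hε : ε w = 1) {D : Set (ℤ × ℤ)}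
    (hD : ∀ q ∈ D, q.1 < 0 ∧ 0 < q.2) (Z : PowerSeries R₀) (hZ : Z ∈ ratU u D) :
    ∃ Q P : Polynomial R₀, Den ε E w D Q ∧ (Q : PowerSeries R₀) * Z = (P : PowerSeries R₀) := by
  induction hZ using Algebra.adjoin_induction with
  | mem Z h =>
    rcases h with h | ⟨⟨a, b⟩, hp, rfl⟩
    · rw [Set.mem_singleton_iff.1 h]
      exact ⟨1, Polynomial.X, Den.one, by rw [Polynomial.coe_one, one_mul, Polynomial.coe_X]⟩
    · refine ⟨_, 1, Den.fac hw hε (hD _ hp).1 (hD _ hp).2 hp, ?_⟩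
      rw [Polynomial.coe_sub, Polynomial.coe_one, Polynomial.coe_mul,
        Polynomial.coe_C, Polynomial.coe_pow, Polynomial.coe_X]
      exact geoU_spec u a b (hD _ hp).2
  | algebraMap r =>
    refine ⟨1, Polynomial.C r, Den.one, ?_⟩
    rw [Polynomial.coe_one, one_mul, Polynomial.coe_C]
    rfl
  | add Z Z' _ _ h h' =>
    obtain ⟨Q, P, h1, h2⟩ := h
    obtain ⟨Q', P', h1', h2'⟩ := h'
    refine ⟨Q * Q', Q' * P + Q * P', h1.mul h1', ?_⟩
    rw [Polynomial.coe_mul, Polynomial.coe_add, Polynomial.coe_mul, Polynomial.coe_mul, ← h2,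
      ← h2']
    ring
  | mul Z Z' _ _ h h' =>
    obtain ⟨Q, P, h1, h2⟩ := h
    obtain ⟨Q', P', h1', h2'⟩ := h'
    refine ⟨Q * Q', P * P', h1.mul h1', ?_⟩
    rw [Polynomial.coe_mul, Polynomial.coe_mul, ← h2, ← h2']
    ring

end rat

/-- **The poles of the topological zeta function.** -/
theorem top_poles {R : Type} [CommRing R] [IsDomain R] (E : MK ℂ →+* R) (ε : R →+* ℂ)
    (hε : ε (E ((Lu ℂ : (MK ℂ)ˣ) : MK ℂ)) = 1) (hE : E ((Lu ℂ : (MK ℂ)ˣ) : MK ℂ) ≠ 1)
    (D : Set (ℤ × ℤ)) (hD : ∀ q ∈ D, q.1 < 0 ∧ 0 < q.2) (Zm : PowerSeries (MK ℂ))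
    (h : Zm ∈ ratRing ℂ D) (Z : RatFunc ℂ) (hZ : IsTopZeta E ε Zm Z) (s₀ : ℂ)
    (hs : Z.denom.eval s₀ = 0) : ∃ q ∈ D, s₀ = (q.1 : ℂ) / q.2 := by
  classical
  set U : Rˣ := Units.map (E : MK ℂ →* R) (Lu ℂ) with hU
  set w : R := ((U⁻¹ : Rˣ) : R) with hwd
  have hUE : (U : R) = E ((Lu ℂ : (MK ℂ)ˣ) : MK ℂ) := rfl
  have hw : E ((Lu ℂ : (MK ℂ)ˣ) : MK ℂ) * w = 1 := by
    rw [← hUE, hwd, Units.mul_inv]
  have hεw : ε w = 1 := by
    have h1 := congrArg ε hw
    rw [map_mul, hε, one_mul, map_one] at h1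
    exact h1
  have hw1 : w ≠ 1 := by
    intro h0
    rw [h0, mul_one] at hw
    exact hE hw
  obtain ⟨Q, P, ⟨M, B, hB1, hB2, hB3⟩, hQP⟩ := exists_den (E := E) (ε := ε) hw hεw hD Zm h
  have hQPE : ((Q.map E : Polynomial R) : PowerSeries R) * PowerSeries.map E Zm =
      ((P.map E : Polynomial R) : PowerSeries R) := by
    have h1 := congrArg (PowerSeries.map E) hQP
    rw [map_mul, ← Polynomial.polynomial_map_coe, ← Polynomial.polynomial_map_coe] at h1
    exact h1
  choose c hc1 hc2 using fun n : ℕ => hZ (n + 1) (Nat.succ_pos n)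
  choose q hq1 hq2 using hB3
  have key : ∀ n, ∃ x y : R, (P.map E).eval (w ^ (n + 1)) * y = (1 - w) ^ M * x ∧ ε y ≠ 0 ∧
      ε x = c n * B.eval ((n + 1 : ℕ) : ℂ) * ε y := by
    intro n
    obtain ⟨P', Q', x, y, h1, h2, h3, h4, h5⟩ := hc1 n
    have hval : (((U⁻¹) ^ (n + 1) : Rˣ) : R) = w ^ (n + 1) := by
      rw [Units.val_pow_eq_pow_val]
    rw [hval] at h2 h3
    refine ⟨x * q n, y, ?_, h4, ?_⟩
    · have h6 : Q' * P.map E = Q.map E * P' := by
        apply Polynomial.coe_injective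
        rw [Polynomial.coe_mul, Polynomial.coe_mul, ← h1, ← hQPE]
        ring
      have h7 := congrArg (Polynomial.eval (w ^ (n + 1))) h6
      rw [Polynomial.eval_mul, Polynomial.eval_mul, hq1] at h7
      apply mul_left_cancel₀ h2
      linear_combination y * h7 + ((1 - w) ^ M * q n) * h3
    · rw [map_mul, h5, hq2]
      ring
  choose x y hxy hy hx using key
  obtain ⟨W, hW⟩ := exists_poly ε w hw1 hεw (P.map E) M x y hy hxy
  have hWc : ∀ n : ℕ, c n * B.eval ((n + 1 : ℕ) : ℂ) = W.eval (n : ℂ) := by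
    intro n
    have h1 := hW n
    rw [hx] at h1
    exact mul_right_cancel₀ (hy n) h1
  have hpoly : Z.num * B = Z.denom * W.comp (Polynomial.X - 1) := by
    refine Polynomial.eq_of_infinite_eval_eq _ _ ?_
    have hinj : Function.Injective fun n : ℕ => (((n + 1 : ℕ) : ℕ) : ℂ) := by
      intro a b hab
      have h0 : ((a + 1 : ℕ) : ℂ) = ((b + 1 : ℕ) : ℂ) := hab
      have : (a + 1 : ℕ) = b + 1 := by exact_mod_cast h0
      omega
    refine (Set.infinite_range_of_injective hinj).mono ?_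
    rintro _ ⟨n, rfl⟩
    change (Z.num * B).eval ((n + 1 : ℕ) : ℂ) =
      (Z.denom * W.comp (Polynomial.X - 1)).eval ((n + 1 : ℕ) : ℂ)
    rw [Polynomial.eval_mul, Polynomial.eval_mul, hc2, Polynomial.eval_comp,
      Polynomial.eval_sub, Polynomial.eval_X, Polynomial.eval_one]
    have h1 : (((n + 1 : ℕ) : ℂ) - 1) = n := by push_cast; ring
    rw [h1, ← hWc]
    ring
  have hdvd : Z.denom ∣ B :=
    (RatFunc.isCoprime_num_denom Z).symm.dvd_of_dvd_mul_left ⟨_, hpoly⟩
  obtain ⟨G, hG⟩ := hdvd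
  refine hB1 s₀ ?_
  rw [hG, Polynomial.eval_mul, hs, zero_mul]

end Pool.Agent.Q57.MC
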