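import Pool.Agent.Q57.MC.Glob
import Pool.Agent.Q57.MC.Top
import Pool.Agent.Q57.MC.One

set_option autoImplicit false
set_option linter.unusedSectionVars false
set_option linter.unusedVariables false

/-! # The statements for the zeta functions of polynomials -/

namespace Pool.Agent.Q57.MC

open MvPolynomial Pool.Agent.W428.MOT Pool.Agent.TH192.MT Pool.Agent.TH192.DT Pool.Agent.Q49.CO
open Pool.Agent.TH192.MU (zetaId IsTopZeta)
open Pool.Agent.Y229
open Pool.Agent.W574.SM (IsFunctionalEq)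
open Pool.Agent.W574.RO (Forced)
open Pool.Agent.H628R4.TP (IsBFunction IsLocalBFunction)

section top

variable {n r : ℕ} {R : Type} [CommRing R] [IsDomain R] (E : MK ℂ →+* R) (ε : R →+* ℂ)
  (hε : ε (E ((Lu ℂ : (MK ℂ)ˣ) : MK ℂ)) = 1) (hE : E ((Lu ℂ : (MK ℂ)ˣ) : MK ℂ) ≠ 1)

theorem zetaJ_one {σ : Type} [Fintype σ] (F : MvPolynomial σ ℂ) :
    zetaJ (fun _ : Fin 1 => F) = zetaO F := by
  unfold zetaJ zetaO
  congr 2
  funext N
  rw [jetF_one]

theorem zetaId_one {σ : Type} [Fintype σ] (F : MvPolynomial σ ℂ) :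
    zetaId (fun _ : Fin 1 => F) = zetaM F Set.univ {c | c ≠ 0} := by
  unfold zetaId zetaM
  congr 1
  funext N
  rw [jetF_one]

include hε hE

/-- the local topological zeta functions -/
theorem local_top {f : Fin r → MvPolynomial (Fin n) ℂ} (h : Tower n r f) (Z : RatFunc ℂ)
    (hZ : IsTopZeta E ε (zetaJ f) Z) (s₀ : ℂ) (hs : Z.denom.eval s₀ = 0) (b : Polynomial ℂ)
    (hb : IsLocalBI f b) : b.eval s₀ = 0 := by
  obtain ⟨-, S, hS, hz⟩ := tower_main h
  obtain ⟨q, hq, rfl⟩ := top_poles E ε hε hE _ (fun q hq => ⟨(hS q hq).1, (hS q hq).2.1⟩) _ hz Z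
    hZ s₀ hs
  exact (hS q hq).2.2 b hb

/-- the global topological zeta functions -/
theorem global_top {f : Fin r → MvPolynomial (Fin n) ℂ} (h : Glob n r f) (Z : RatFunc ℂ)
    (hZ : IsTopZeta E ε (zetaId f) Z) (s₀ : ℂ) (hs : Z.denom.eval s₀ = 0) (b : Polynomial ℂ)
    (hb : IsFunctionalEq f b) : b.eval s₀ = 0 := by
  classical
  obtain ⟨-, S, hS, hz⟩ := glob_main h
  obtain ⟨q, hq, rfl⟩ := top_poles E ε hε hE _ (fun q hq => ⟨(hS q hq).1, (hS q hq).2.1⟩) _ hz Z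
    hZ s₀ hs
  obtain ⟨p, hp⟩ := (hS q hq).2.2
  exact sf_forced hp b hb

end top

end Pool.Agent.Q57.MC
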