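import Pool.Agent.Q57.MC.Rows
import Pool.Agent.W375.MG.Out

set_option autoImplicit false
set_option linter.unusedSectionVars false
set_option linter.unusedVariables false

/-! # The statements for the motivic zeta functions of polynomials -/

namespace Pool.Agent.Q57.MC

open MvPolynomial Pool.Agent.W428.MOT Pool.Agent.TH192.MT Pool.Agent.TH192.DT Pool.Agent.Q49.CO
open Pool.Agent.TH192.MU (zetaId)
open Pool.Agent.Y229
open Pool.Agent.W574.SM (IsFunctionalEq)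
open Pool.Agent.W574.RO (Forced)
open Pool.Agent.W574.HS (univ)
open Pool.Agent.W375.MG (zetaG zetaW zetaOrd zetaOrd_eq zetaW_eq IsPole)
open Pool.Agent.H628R4.TP (IsBFunction IsLocalBFunction)

section eqs

variable {n : ℕ} (F : MvPolynomial (Fin n) ℂ)

theorem zetaG_eq (W : Set (Pt ℂ (Fin n))) (E : Set (AlgebraicClosure ℂ)) :
    zetaG F W E = zetaM F W E := by
  unfold zetaG zetaM
  rw [Fintype.card_fin]
  rfl

theorem zetaOrd_univ : zetaOrd F Set.univ =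
    PowerSeries.C (((Lu ℂ) ^ (-(n : ℤ)) : (MK ℂ)ˣ) : MK ℂ) * zetaId (fun _ : Fin 1 => F) := by
  rw [zetaOrd_eq, zetaG_eq, zetaId_one]

theorem zetaOrd_zero (h0 : eval 0 F = 0) : zetaOrd F {0} = zetaJ (fun _ : Fin 1 => F) := by
  rw [zetaOrd_eq, zetaG_eq, zetaJ_one]
  unfold zetaO zetaM
  rw [Fintype.card_fin]
  congr 2
  funext l
  by_cases hl : l = 0
  · subst hl
    rw [if_pos rfl]
    have h1 : JetS F ({0} : Set (Pt ℂ (Fin n))) {c | c ≠ 0} 0 = ∅ := by
      rw [Set.eq_empty_iff_forall_notMem]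
      rintro z ⟨h1, -, h2⟩
      apply h2
      rw [PowerSeries.coeff_zero_eq_constantCoeff_apply]
      have h3 : PowerSeries.constantCoeff (aeval (ar z) F) =
          aeval (fun i => z (i, 0)) F := by
        have h4 : PowerSeries.constantCoeff (aeval (ar z) F) =
            (PowerSeries.constantCoeff (R := AlgebraicClosure ℂ)).comp
              (aeval (R := ℂ) (ar z)).toRingHom F := rfl
        rw [h4]
        have h5 : (PowerSeries.constantCoeff (R := AlgebraicClosure ℂ)).comp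
            (aeval (R := ℂ) (ar z)).toRingHom =
            (aeval (R := ℂ) (fun i => z (i, 0))).toRingHom := by
          refine MvPolynomial.ringHom_ext (fun a => ?_) fun i => ?_
          · simp [PowerSeries.algebraMap_apply]
          · change PowerSeries.constantCoeff (aeval (ar z) (X i)) = aeval (fun i => z (i, 0)) (X i)
            rw [aeval_X, aeval_X, ← PowerSeries.coeff_zero_eq_constantCoeff_apply]
            unfold ar
            rw [PowerSeries.coeff_mk, dif_pos (Nat.succ_pos 0)]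
            rfl
        rw [h5]
        rfl
      rw [h3, Set.mem_singleton_iff.1 h1]
      have h6 : (0 : Fin n → AlgebraicClosure ℂ) = fun i => algebraMap ℂ _ ((0 : Fin n → ℂ) i) := by
        funext i
        simp
      rw [h6, aeval_pt_zero]
      exact h0
    rw [h1]
    have h2 : algebraMap (K0 ℂ) (MK ℂ)
        (cls (K := ℂ) (Fin n × Fin (0 + 1)) (∅ : Set (Pt ℂ (Fin n × Fin (0 + 1))))) = 0 := by
      obtain ⟨M, hL, hχ⟩ := exists_meas ℂ
      rw [← hχ, Pool.Agent.W375.MT.chi_empty]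
    rw [h2, zero_mul]
  · rw [if_neg hl]

theorem not_pole {Z : PowerSeries (MK ℂ)} {S : Finset (ℤ × ℤ)} (hS : ∀ q ∈ S, 0 < q.2)
    (hZ : Z ∈ ratRing ℂ (S : Set (ℤ × ℤ))) {s₀ : ℚ} (hs : IsPole Z s₀) :
    ∃ q ∈ S, (s₀ : ℂ) = (q.1 : ℂ) / q.2 := by
  by_contra h
  push Not at h
  refine hs (Pool.Agent.W375.MG.ratRing_mono ?_ hZ)
  intro q hq
  refine ⟨hS q (Finset.mem_coe.1 hq), fun h1 => h q (Finset.mem_coe.1 hq) ?_⟩
  rw [← h1]
  push_cast
  rfl

end eqs

section mot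

variable {n r : ℕ}

/-- the global motivic zeta functions -/
theorem global_pole {f : MvPolynomial (Fin n) ℂ} (h : Glob n 1 fun _ => f) (s₀ : ℚ)
    (hs : IsPole (zetaOrd f Set.univ) s₀) (b : Polynomial ℂ) (hb : IsBFunction f b) :
    b.eval (s₀ : ℂ) = 0 := by
  classical
  obtain ⟨-, S, hS, hz⟩ := glob_main h
  have h1 : zetaOrd f Set.univ ∈ ratRing ℂ (S : Set (ℤ × ℤ)) := by
    rw [zetaOrd_univ]
    exact Subalgebra.mul_mem _ (rat_C _ _) hz
  obtain ⟨q, hq, h2⟩ := not_pole (fun q hq => (hS q hq).2.1) h1 hs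
  obtain ⟨p, hp⟩ := (hS q hq).2.2
  rw [h2]
  exact sf_forced hp b (locEq1_of_eq f b hb)

/-- the local motivic zeta functions -/
theorem local_pole {f : MvPolynomial (Fin n) ℂ} (h : Tower n 1 fun _ => f)
    (h0 : eval 0 f = 0) (s₀ : ℚ) (hs : IsPole (zetaOrd f {0}) s₀) (b : Polynomial ℂ)
    (hb : IsLocalBFunction f b) : b.eval (s₀ : ℂ) = 0 := by
  obtain ⟨-, S, hS, hz⟩ := tower_main h
  rw [zetaOrd_zero f h0] at hs
  obtain ⟨q, hq, h2⟩ := not_pole (fun q hq => (hS q hq).2.1) hz hs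
  rw [h2]
  exact (hS q hq).2.2 b (localBI_one f b hb)

/-- the sets of jets, for other names of the variables -/
theorem chi_jetS_ren {σ τ : Type} [Fintype σ] [Fintype τ] {R : Type} [CommRing R] (M : Meas ℂ R)
    (e : σ ≃ τ) (F : MvPolynomial σ ℂ) {E : Set (AlgebraicClosure ℂ)} (hE : CE E) (N : ℕ) :
    M.χ _ (JetS (rename e F) Set.univ E N) = M.χ _ (JetS F Set.univ E N) := by
  have h1 : JetS (rename e F) Set.univ E N =
      {z | (fun q : σ × Fin (N + 1) => z ((e.prodCongr (Equiv.refl _)) q)) ∈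
        JetS F Set.univ E N} := by
    ext z
    have h2 : aeval (ar z) (rename e F) =
        aeval (ar fun q : σ × Fin (N + 1) => z ((e.prodCongr (Equiv.refl _)) q)) F := by
      rw [aeval_rename]
      rfl
    change (_ ∧ (∀ j < N, PowerSeries.coeff j (aeval (ar z) (rename e F)) = 0) ∧
      PowerSeries.coeff N (aeval (ar z) (rename e F)) ∈ E) ↔ _
    rw [h2]
    rfl
  rw [h1, chi_reindex M _ (constr_JetS F Constr.univ hE N)]

/-- the motivic zeta functions of the hypersurfaces `∑ y_j f_j = 0` -/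
theorem hyp_mot' (f : Fin r → MvPolynomial (Fin n) ℂ) (hf : ∃ j, f j ≠ 0) (S : Finset (ℤ × ℤ))
    (hS : ∀ q ∈ S, q.1 < 0 ∧ 0 < q.2 ∧ ∃ p, SF f p ((q.1 : ℂ) / q.2))
    (hz : zetaId f ∈ ratRing ℂ (S : Set (ℤ × ℤ))) :
    ∃ S : Finset (ℤ × ℤ), (∀ q ∈ S, q.1 < 0 ∧ 0 < q.2 ∧
      ∀ b : Polynomial ℂ, IsBFunction (hypF f) b → b.eval ((q.1 : ℂ) / q.2) = 0) ∧
      zetaW (hypF f) Set.univ ∈ ratRing ℂ (S : Set (ℤ × ℤ)) ∧
      zetaOrd (hypF f) Set.univ ∈ ratRing ℂ (S : Set (ℤ × ℤ)) := by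
  classical
  set T : Finset (ℤ × ℤ) := insert (-1, 1) S with hT
  have hmono : ratRing ℂ (S : Set (ℤ × ℤ)) ≤ ratRing ℂ (T : Set (ℤ × ℤ)) :=
    Pool.Agent.W375.MG.ratRing_mono
      (Finset.coe_subset.2 (Finset.subset_insert _ _))
  obtain ⟨M, hL, hχ⟩ := exists_meas ℂ
  have hv : M.L * (((Lu ℂ)⁻¹ : (MK ℂ)ˣ) : MK ℂ) = 1 := by rw [hL, Units.mul_inv]
  have key : ∀ (E : Set (AlgebraicClosure ℂ)) (ε : MK ℂ), CE E →
      (0 : AlgebraicClosure ℂ) ∉ E → Eps M (((Lu ℂ)⁻¹ : (MK ℂ)ˣ) : MK ℂ) E ε →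
      zetaM (hypF f) Set.univ E ∈ ratRing ℂ (T : Set (ℤ × ℤ)) := by
    intro E ε hE h0 hε
    have h1 := zu_free M hv f hE h0 hε (W := Set.univ) Constr.univ
    have h2 : zetaM (hypF f) Set.univ E =
        PowerSeries.C (((Lu ℂ : (MK ℂ)ˣ) : MK ℂ) ^ (n + r)) *
          (PowerSeries.C ε * (gH (((Lu ℂ)⁻¹ : (MK ℂ)ˣ) : MK ℂ) *
            ZW M (((Lu ℂ)⁻¹ : (MK ℂ)ˣ) : MK ℂ) f Set.univ)) := by
      rw [← h1]
      ext N
      unfold zetaM
      rw [PowerSeries.coeff_mk, PowerSeries.coeff_C_mul, PowerSeries.coeff_mk, ← hχ, hypF_eq,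
        chi_jetS_ren M (eH n r) (univ f) hE N]
      have h3 : (YF (Fin r) (Set.univ : Set (Pt ℂ (Fin n)))) = Set.univ := rfl
      rw [h3, ← inv_pow_eq, Fintype.card_fin, Fintype.card_sum, Fintype.card_fin,
        Fintype.card_fin]
      have h4 : (univ f) = uni f := rfl
      rw [h4]
      have e1 : ((Lu ℂ : (MK ℂ)ˣ) : MK ℂ) ^ (n + r) *
          (((Lu ℂ)⁻¹ : (MK ℂ)ˣ) : MK ℂ) ^ (n + r) = 1 := by
        rw [← mul_pow, Units.mul_inv, one_pow]
      have e2 : (r + n) * (N + 1) = (n + r) * N + (n + r) := by ring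
      rw [e2, pow_add]
      linear_combination (-(M.χ _ (JetS (uni f) Set.univ E N) *
        (((Lu ℂ)⁻¹ : (MK ℂ)ˣ) : MK ℂ) ^ ((n + r) * N))) * e1
    rw [h2]
    refine Subalgebra.mul_mem _ (rat_C _ _) (Subalgebra.mul_mem _ (rat_C _ _)
      (Subalgebra.mul_mem _ (gH_mem (Lu ℂ) (Finset.mem_coe.2 (Finset.mem_insert_self _ _)))
        (hmono ?_)))
    rw [zetaId_iff hL hχ] at hz
    exact hz
  refine ⟨T, ?_, ?_, ?_⟩
  · intro q hq
    rcases Finset.mem_insert.1 hq with rfl | hq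
    · refine ⟨by norm_num, by norm_num, fun b hb => ?_⟩
      have h1 : (((-1 : ℤ) : ℂ) / ((1 : ℤ) : ℂ)) = -1 := by norm_num
      simp only
      rw [h1]
      exact sf_forced (sf_hypF f _ _ (sf_minus_one f hf 0)) b (locEq1_of_eq _ b hb)
    · obtain ⟨h1, h2, p, h3⟩ := hS q hq
      exact ⟨h1, h2, fun b hb => sf_forced (sf_hypF f _ _ (sf_hyp f hf p _ h3)) b
        (locEq1_of_eq _ b hb)⟩
  · rw [zetaW_eq, zetaG_eq]
    exact key _ _ ce_one (fun h => zero_ne_one h) (eps_one M hv)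
  · rw [zetaOrd_eq, zetaG_eq]
    exact Subalgebra.mul_mem _ (rat_C _ _) (key _ _ ce_ne (fun h => h rfl) (eps_ne M hv))

/-- **The motivic zeta functions of the hypersurfaces `∑ y_j f_j = 0`.** -/
theorem hyp_mot {f : Fin r → MvPolynomial (Fin n) ℂ} (h : Glob n r f) :
    ∃ S : Finset (ℤ × ℤ), (∀ q ∈ S, q.1 < 0 ∧ 0 < q.2 ∧
      ∀ b : Polynomial ℂ, IsBFunction (hypF f) b → b.eval ((q.1 : ℂ) / q.2) = 0) ∧
      zetaW (hypF f) Set.univ ∈ ratRing ℂ (S : Set (ℤ × ℤ)) ∧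
      zetaOrd (hypF f) Set.univ ∈ ratRing ℂ (S : Set (ℤ × ℤ)) := by
  obtain ⟨hf, S, hS, hz⟩ := glob_main h
  exact hyp_mot' f hf S hS hz

end mot

end Pool.Agent.Q57.MC
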