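import Pool.Agent.W574.SM.Chain
import Pool.Agent.Helper706.JD.K6
import Pool.Agent.H628R4.TP.LocDefs
import Pool.Agent.W574.HS.Must

set_option autoImplicit false
set_option linter.unusedSectionVars false
set_option linter.unusedVariables false

/-! # Transfer of functional equations along a chart -/

namespace Pool.Agent.Q57.MC

open MvPowerSeries Pool.Agent.W574.SM
open Pool.Agent.H628R4.TP (weylS IsLocalBFunction IsBFunction)
open Pool.Agent.W574.HS (univ)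

section ops

/-- the differential operators with power series coefficients -/
noncomputable def dform (ρ : Type) : Subalgebra ℂ (Module.End ℂ (MvPowerSeries ρ ℂ)) :=
  Algebra.adjoin ℂ (Set.range (fun a : MvPowerSeries ρ ℂ => LinearMap.mulLeft ℂ a) ∪
    Set.range (fun i : ρ => ((pderiv ℂ i : Derivation ℂ (MvPowerSeries ρ ℂ)
      (MvPowerSeries ρ ℂ)) : MvPowerSeries ρ ℂ →ₗ[ℂ] MvPowerSeries ρ ℂ)))

theorem mul_memD {ρ : Type} (a : MvPowerSeries ρ ℂ) : LinearMap.mulLeft ℂ a ∈ dform ρ :=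
  Algebra.subset_adjoin (Or.inl ⟨a, rfl⟩)

theorem pd_memD {ρ : Type} (i : ρ) : ((pderiv ℂ i : Derivation ℂ (MvPowerSeries ρ ℂ)
      (MvPowerSeries ρ ℂ)) : MvPowerSeries ρ ℂ →ₗ[ℂ] MvPowerSeries ρ ℂ) ∈ dform ρ :=
  Algebra.subset_adjoin (Or.inr ⟨i, rfl⟩)

theorem sum_memD {ρ : Type} [Fintype ρ] (M : ρ → MvPowerSeries ρ ℂ) :
    (∑ r, LinearMap.mulLeft ℂ (M r) * ((pderiv ℂ r : Derivation ℂ (MvPowerSeries ρ ℂ)
      (MvPowerSeries ρ ℂ)) : MvPowerSeries ρ ℂ →ₗ[ℂ] MvPowerSeries ρ ℂ)) ∈ dform ρ :=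
  Subalgebra.sum_mem _ fun r _ => mul_mem (mul_memD _) (pd_memD r)

theorem sum_apply' {ρ : Type} [Fintype ρ] (M : ρ → MvPowerSeries ρ ℂ) (F : MvPowerSeries ρ ℂ) :
    (∑ r, LinearMap.mulLeft ℂ (M r) * ((pderiv ℂ r : Derivation ℂ (MvPowerSeries ρ ℂ)
      (MvPowerSeries ρ ℂ)) : MvPowerSeries ρ ℂ →ₗ[ℂ] MvPowerSeries ρ ℂ)) F =
      ∑ r, M r * pderiv ℂ r F := by
  rw [LinearMap.sum_apply]
  rfl

/-- **Lifting of differential operators along a submersion.** -/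
theorem lift_op {σ ρ : Type} [Fintype σ] [DecidableEq σ] [Fintype ρ]
    (θ : MvPolynomial σ ℂ →ₐ[ℂ] MvPowerSeries ρ ℂ) (M : σ → ρ → MvPowerSeries ρ ℂ)
    (hM : ∀ i i', ∑ r, M i r * pderiv ℂ r (θ (MvPolynomial.X i')) = if i = i' then 1 else 0)
    (Q : Module.End ℂ (MvPolynomial σ ℂ)) (hQ : Q ∈ weylS σ) :
    ∃ Q' ∈ dform ρ, ∀ a, θ (Q a) = Q' (θ a) := by
  induction hQ using Algebra.adjoin_induction with
  | mem Q hQ =>
    rcases hQ with ⟨i, rfl⟩ | ⟨i, rfl⟩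
    · refine ⟨_, mul_memD (θ (MvPolynomial.X i)), fun a => ?_⟩
      rw [LinearMap.mulLeft_apply, LinearMap.mulLeft_apply, map_mul]
    · refine ⟨_, sum_memD (M i), fun a => ?_⟩
      rw [sum_apply']
      have hθ : ∀ a, θ a = MvPolynomial.aeval (fun i => θ (MvPolynomial.X i)) a := fun a =>
        congrFun (congrArg DFunLike.coe (MvPolynomial.aeval_unique θ)) a
      have h1 : ∀ r, M i r * pderiv ℂ r (θ a) = ∑ s', θ (MvPolynomial.pderiv s' a) *
          (M i r * pderiv ℂ r (θ (MvPolynomial.X s'))) := by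
        intro r
        rw [hθ a, pderiv_aeval, Finset.mul_sum]
        refine Finset.sum_congr rfl fun s' _ => ?_
        rw [← hθ]
        ring
      rw [Finset.sum_congr rfl fun r _ => h1 r, Finset.sum_comm]
      have h2 : ∀ s', ∑ r, θ (MvPolynomial.pderiv s' a) *
          (M i r * pderiv ℂ r (θ (MvPolynomial.X s'))) =
          if i = s' then θ (MvPolynomial.pderiv s' a) else 0 := by
        intro s'
        rw [← Finset.mul_sum, hM, mul_ite, mul_one, mul_zero]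
      rw [Finset.sum_congr rfl fun s' _ => h2 s', Finset.sum_ite_eq,
        if_pos (Finset.mem_univ i)]
      rfl
  | algebraMap r =>
    refine ⟨algebraMap ℂ _ r, Subalgebra.algebraMap_mem _ r, fun a => ?_⟩
    rw [Module.algebraMap_end_apply, Module.algebraMap_end_apply, map_smul]
  | add Q1 Q2 _ _ h1 h2 =>
    obtain ⟨E1, m1, e1⟩ := h1
    obtain ⟨E2, m2, e2⟩ := h2
    refine ⟨E1 + E2, add_mem m1 m2, fun a => ?_⟩
    rw [LinearMap.add_apply, map_add, e1, e2, LinearMap.add_apply]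
  | mul Q1 Q2 _ _ h1 h2 =>
    obtain ⟨E1, m1, e1⟩ := h1
    obtain ⟨E2, m2, e2⟩ := h2
    refine ⟨E1 * E2, mul_mem m1 m2, fun a => ?_⟩
    rw [Module.End.mul_apply, e1, e2, Module.End.mul_apply]

/-- **Lifting of differential operators along formal coordinates.** -/
theorem lift_subst {ρ : Type} [Fintype ρ] [DecidableEq ρ] (G : ρ → MvPowerSeries ρ ℂ)
    (hG : HasSubst G) (N : ρ → ρ → MvPowerSeries ρ ℂ)
    (hN : ∀ a b, ∑ r, N a r * pderiv ℂ r (G b) = if a = b then 1 else 0)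
    (Q : Module.End ℂ (MvPowerSeries ρ ℂ)) (hQ : Q ∈ dform ρ) :
    ∃ Q' ∈ dform ρ, ∀ F : MvPowerSeries ρ ℂ, (subst G (Q F) : MvPowerSeries ρ ℂ) =
      Q' (subst G F) := by
  induction hQ using Algebra.adjoin_induction with
  | mem Q hQ =>
    rcases hQ with ⟨i, rfl⟩ | ⟨i, rfl⟩
    · refine ⟨_, mul_memD (subst G i), fun a => ?_⟩
      rw [LinearMap.mulLeft_apply, LinearMap.mulLeft_apply, subst_mul hG]
    · refine ⟨_, sum_memD (N i), fun a => ?_⟩
      rw [sum_apply']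
      have h1 : ∀ r, N i r * pderiv ℂ r (subst G a) = ∑ s', subst G (pderiv ℂ s' a) *
          (N i r * pderiv ℂ r (G s')) := by
        intro r
        rw [pderiv_subst hG, Finset.mul_sum]
        refine Finset.sum_congr rfl fun s' _ => ?_
        ring
      rw [Finset.sum_congr rfl fun r _ => h1 r, Finset.sum_comm]
      have h2 : ∀ s', ∑ r, subst G (pderiv ℂ s' a) * (N i r * pderiv ℂ r (G s')) =
          if i = s' then subst G (pderiv ℂ s' a) else (0 : MvPowerSeries ρ ℂ) := by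
        intro s'
        rw [← Finset.mul_sum, hN, mul_ite, mul_one, mul_zero]
      rw [Finset.sum_congr rfl fun s' _ => h2 s', Finset.sum_ite_eq,
        if_pos (Finset.mem_univ i)]
      rfl
  | algebraMap r =>
    refine ⟨algebraMap ℂ _ r, Subalgebra.algebraMap_mem _ r, fun a => ?_⟩
    rw [Module.algebraMap_end_apply, Module.algebraMap_end_apply, ← substAlgHom_apply hG,
      map_smul, substAlgHom_apply hG]
  | add Q1 Q2 _ _ h1 h2 =>
    obtain ⟨E1, m1, e1⟩ := h1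
    obtain ⟨E2, m2, e2⟩ := h2
    refine ⟨E1 + E2, add_mem m1 m2, fun a => ?_⟩
    rw [LinearMap.add_apply, subst_add hG, e1, e2, LinearMap.add_apply]
  | mul Q1 Q2 _ _ h1 h2 =>
    obtain ⟨E1, m1, e1⟩ := h1
    obtain ⟨E2, m2, e2⟩ := h2
    refine ⟨E1 * E2, mul_mem m1 m2, fun a => ?_⟩
    rw [Module.End.mul_apply, e1, e2, Module.End.mul_apply]

variable {μ ρ : Type}

/-- the maps `p ↦ ∑ a_l e(D_l p)` -/
def NF (e : MvPolynomial μ ℂ →ₐ[ℂ] MvPowerSeries ρ ℂ)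
    (F : MvPolynomial μ ℂ → MvPowerSeries ρ ℂ) : Prop :=
  ∃ (K : Type) (_ : Fintype K) (a : K → MvPowerSeries ρ ℂ) (D : K → weylS μ),
    ∀ p, F p = ∑ l, a l * e ((D l : Module.End ℂ (MvPolynomial μ ℂ)) p)

theorem nf_e (e : MvPolynomial μ ℂ →ₐ[ℂ] MvPowerSeries ρ ℂ) : NF e (fun p => e p) :=
  ⟨Unit, inferInstance, fun _ => 1, fun _ => 1, fun p => by simp⟩

theorem nf_add (e : MvPolynomial μ ℂ →ₐ[ℂ] MvPowerSeries ρ ℂ)
    {F G : MvPolynomial μ ℂ → MvPowerSeries ρ ℂ} (hF : NF e F) (hG : NF e G) :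
    NF e (fun p => F p + G p) := by
  obtain ⟨K, i, a, D, h⟩ := hF
  obtain ⟨K', i', a', D', h'⟩ := hG
  refine ⟨K ⊕ K', inferInstance, Sum.elim a a', Sum.elim D D', fun p => ?_⟩
  beta_reduce
  rw [Fintype.sum_sum_type, h, h']
  rfl

theorem nf_mul (e : MvPolynomial μ ℂ →ₐ[ℂ] MvPowerSeries ρ ℂ) (c : MvPowerSeries ρ ℂ)
    {F : MvPolynomial μ ℂ → MvPowerSeries ρ ℂ} (hF : NF e F) : NF e (fun p => c * F p) := by
  obtain ⟨K, i, a, D, h⟩ := hF
  refine ⟨K, i, fun l => c * a l, D, fun p => ?_⟩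
  beta_reduce
  rw [h, Finset.mul_sum]
  exact Finset.sum_congr rfl fun l _ => by ring

theorem nf_pd (e : MvPolynomial μ ℂ →ₐ[ℂ] MvPowerSeries ρ ℂ)
    (he : ∀ r : ρ, (∃ m, ∀ p, pderiv ℂ r (e p) = e (MvPolynomial.pderiv m p)) ∨
      ∀ p, pderiv ℂ r (e p) = 0) (r : ρ)
    {F : MvPolynomial μ ℂ → MvPowerSeries ρ ℂ} (hF : NF e F) :
    NF e (fun p => pderiv ℂ r (F p)) := by
  obtain ⟨K, i, a, D, h⟩ := hF
  rcases he r with ⟨m, hm⟩ | h0
  · refine ⟨K ⊕ K, inferInstance, Sum.elim (fun l => pderiv ℂ r (a l)) a,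
      Sum.elim D (fun l => ⟨((MvPolynomial.pderiv m : Derivation ℂ (MvPolynomial μ ℂ)
        (MvPolynomial μ ℂ)) : MvPolynomial μ ℂ →ₗ[ℂ] MvPolynomial μ ℂ),
          Algebra.subset_adjoin (Or.inr ⟨m, rfl⟩)⟩ * D l), fun p => ?_⟩
    beta_reduce
    rw [Fintype.sum_sum_type, h, map_sum, ← Finset.sum_add_distrib]
    refine Finset.sum_congr rfl fun l _ => ?_
    rw [Derivation.leibniz, smul_eq_mul, smul_eq_mul, hm]
    simp only [Sum.elim_inl, Sum.elim_inr]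
    rw [add_comm, mul_comm (e _)]
    rfl
  · refine ⟨K, i, fun l => pderiv ℂ r (a l), D, fun p => ?_⟩
    beta_reduce
    rw [h, map_sum]
    refine Finset.sum_congr rfl fun l _ => ?_
    rw [Derivation.leibniz, smul_eq_mul, smul_eq_mul, h0, mul_zero, zero_add, mul_comm]

theorem nf_op (e : MvPolynomial μ ℂ →ₐ[ℂ] MvPowerSeries ρ ℂ)
    (he : ∀ r : ρ, (∃ m, ∀ p, pderiv ℂ r (e p) = e (MvPolynomial.pderiv m p)) ∨
      ∀ p, pderiv ℂ r (e p) = 0)
    (Q : Module.End ℂ (MvPowerSeries ρ ℂ)) (hQ : Q ∈ dform ρ) :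
    ∀ F : MvPolynomial μ ℂ → MvPowerSeries ρ ℂ, NF e F → NF e (fun p => Q (F p)) := by
  induction hQ using Algebra.adjoin_induction with
  | mem Q hQ =>
    rcases hQ with ⟨c, rfl⟩ | ⟨r, rfl⟩
    · intro F hF
      exact nf_mul e c hF
    · intro F hF
      exact nf_pd e he r hF
  | algebraMap r =>
    intro F hF
    have h1 := nf_mul e (C r) hF
    convert h1 using 2
    rw [Module.algebraMap_end_apply, smul_eq_C_mul]
  | add Q1 Q2 _ _ h1 h2 =>
    intro F hF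
    exact nf_add e (h1 F hF) (h2 F hF)
  | mul Q1 Q2 _ _ h1 h2 =>
    intro F hF
    exact h1 _ (h2 F hF)

end ops

end Pool.Agent.Q57.MC
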