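import Pool.Agent.Q49.CO.Jets

set_option autoImplicit false
set_option linter.unusedSectionVars false
set_option linter.unusedVariables false

/-! # Volumes in a chart -/

namespace Pool.Agent.Q57.MC

open MvPolynomial Pool.Agent.W428.MOT Pool.Agent.TH192.MT Pool.Agent.TH192.DT Pool.Agent.Q49.CO

variable {K : Type} [Field K] {σ κ : Type} [Fintype σ] [Finite κ]
variable {R : Type} [CommRing R] (M : Meas K R) {c : ℕ}

/-- a pair of jets as one jet -/
def jn {m : ℕ} (x : Pt K ((σ × Fin (m + 1)) ⊕ (Fin c × Fin (m + 1)))) :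
    Pt K ((σ ⊕ Fin c) × Fin (m + 1)) := fun q =>
  Sum.elim (fun s => x (Sum.inl (s, q.2))) (fun t => x (Sum.inr (t, q.2))) q.1

/-- the polynomial `a_t(z) - u_t w(z)` -/
noncomputable def PP (a : Fin c → MvPolynomial σ K) (w : MvPolynomial σ K) (t : Fin c) :
    MvPolynomial (σ ⊕ Fin c) K :=
  rename Sum.inl (a t) - X (Sum.inr t) * rename Sum.inl w

theorem aeval_PP {m : ℕ} (a : Fin c → MvPolynomial σ K) (w : MvPolynomial σ K) (t : Fin c)
    (x : Pt K ((σ × Fin (m + 1)) ⊕ (Fin c × Fin (m + 1)))) :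
    aeval (ar (jn x)) (PP a w t) = aeval (ar fun q => x (Sum.inl q)) (a t) -
      ar (fun q => x (Sum.inr q)) t * aeval (ar fun q => x (Sum.inl q)) w := by
  unfold PP
  rw [map_sub, map_mul, aeval_rename, aeval_rename, aeval_X]
  rfl

theorem pf_jn {m : ℕ} (q : (σ ⊕ Fin c) × Fin (m + 1)) :
    IsPF fun x : Pt K ((σ × Fin (m + 1)) ⊕ (Fin c × Fin (m + 1))) => jn x q := by
  rcases q with ⟨s | t, j⟩
  · exact IsPF.coord _
  · exact IsPF.coord _

/-- the pairs of jets `z`, `u` with `u w(z) = a(z)` up to order `k` -/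
def SG (a : Fin c → MvPolynomial σ K) (w : MvPolynomial σ K) (h : κ → MvPolynomial (Fin c) K)
    (W : Set (Pt K σ)) (N m k : ℕ) : Set (Pt K ((σ × Fin (m + 1)) ⊕ (Fin c × Fin (m + 1)))) :=
  {x | (fun q => x (Sum.inl q)) ∈ GW a W 0 m ∧ (fun q => x (Sum.inr q)) ∈ GW h {0} N m ∧
    ∀ t : Fin c, ∀ j, j < k + 1 → PowerSeries.coeff j (aeval (ar (jn x)) (PP a w t)) = 0}

theorem mem_SG (a : Fin c → MvPolynomial σ K) (w : MvPolynomial σ K)
    (h : κ → MvPolynomial (Fin c) K)
    (W : Set (Pt K σ)) (N m k : ℕ) (x : Pt K ((σ × Fin (m + 1)) ⊕ (Fin c × Fin (m + 1)))) :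
    x ∈ SG a w h W N m k ↔ (fun q => x (Sum.inl q)) ∈ GW a W 0 m ∧
      (fun q => x (Sum.inr q)) ∈ GW h {0} N m ∧
    ∀ t : Fin c, ∀ j, j < k + 1 → PowerSeries.coeff j (aeval (ar (jn x)) (PP a w t)) = 0 := Iff.rfl

theorem constr_SG (a : Fin c → MvPolynomial σ K) (w : MvPolynomial σ K)
    (h : κ → MvPolynomial (Fin c) K)
    {W : Set (Pt K σ)} (hW : Constr W) (N m k : ℕ) : Constr (SG a w h W N m k) := by
  refine Constr.and ((constr_GW a hW 0 m).preimage
    (fun (x : Pt K ((σ × Fin (m + 1)) ⊕ (Fin c × Fin (m + 1)))) (q : σ × Fin (m + 1)) =>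
      x (Sum.inl q)) fun i => IsPF.coord _) (Constr.and ((constr_GW h constr_pt0 N m).preimage
    (fun (x : Pt K ((σ × Fin (m + 1)) ⊕ (Fin c × Fin (m + 1)))) (q : Fin c × Fin (m + 1)) =>
      x (Sum.inr q)) fun i => IsPF.coord _) ?_)
  exact Constr.all fun t => Constr.allLt _ fun j _ => Constr.eqz
    (pf_coeffK (fun (x : Pt K ((σ × Fin (m + 1)) ⊕ (Fin c × Fin (m + 1)))) => jn x) pf_jn _ _)

theorem SG_zero (a : Fin c → MvPolynomial σ K) (w : MvPolynomial σ K)
    (h : κ → MvPolynomial (Fin c) K)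
    {W : Set (Pt K σ)} (hg : ∀ z ∈ W, ∀ t, aeval z (a t) = 0) (N m : ℕ) :
    SG a w h W N m 0 = {x | (fun q => x (Sum.inl q)) ∈ GW a W 0 m ∧
      (fun q => x (Sum.inr q)) ∈ GW h {0} N m} := by
  ext x
  rw [mem_SG]
  constructor
  · rintro ⟨h1, h2, -⟩
    exact ⟨h1, h2⟩
  · rintro ⟨h1, h2⟩
    refine ⟨h1, h2, fun t j hj => ?_⟩
    have h3 : j = 0 := by omega
    subst h3
    rw [aeval_PP, map_sub, c0_mul, coeff_zero_aevalK, coeff_ar_zero]
    have h4 := hg _ h1.1 t
    have h5 : x (Sum.inr (t, 0)) = 0 := congrFun h2.1 t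
    have h6 : (fun i => PowerSeries.coeff 0 (ar (fun q => x (Sum.inl q)) i)) =
        fun i => x (Sum.inl (i, 0)) := by
      funext i
      rw [coeff_ar_zero]
    rw [h6, h5, zero_mul, sub_zero]
    exact h4

theorem chi_SG_step (a : Fin c → MvPolynomial σ K) (w : MvPolynomial σ K)
    (h : κ → MvPolynomial (Fin c) K)
    {W : Set (Pt K σ)} (hW : Constr W) (hI : Indep a W) (N m k : ℕ) (hkm : k + 1 ≤ m) :
    M.χ _ (SG a w h W N m (k + 1)) * M.L ^ c = M.χ _ (SG a w h W N m k) := by
  classical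
  set s' : Fin (m + 1) := ⟨k + 1, by omega⟩ with hs'
  set C : Finset ((σ × Fin (m + 1)) ⊕ (Fin c × Fin (m + 1))) :=
    Finset.univ.image (fun s => Sum.inl (s, s')) with hC
  have hmC : ∀ p, p ∈ C ↔ ∃ v, p = Sum.inl (v, s') := by
    intro p
    rw [hC, Finset.mem_image]
    constructor
    · rintro ⟨v, _, rfl⟩
      exact ⟨v, rfl⟩
    · rintro ⟨v, rfl⟩
      exact ⟨v, Finset.mem_univ _, rfl⟩
  have h0s : (0 : Fin (m + 1)) ≠ s' := by
    intro h
    have := congrArg Fin.val h
    simp [hs'] at this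
  set zr : Pt K ((σ × Fin (m + 1)) ⊕ (Fin c × Fin (m + 1))) →
      Pt K ((σ × Fin (m + 1)) ⊕ (Fin c × Fin (m + 1))) :=
    fun x => Sum.elim (fun q => if q.2 = s' then 0 else x (Sum.inl q)) fun q => x (Sum.inr q)
    with hzr
  set D : Fin c → ((σ × Fin (m + 1)) ⊕ (Fin c × Fin (m + 1))) →
      Pt K ((σ × Fin (m + 1)) ⊕ (Fin c × Fin (m + 1))) → AlgebraicClosure K :=
    fun t q x => Sum.elim (fun q => aeval (fun i => jn x (i, 0)) (pderiv (Sum.inl q.1) (PP a w t)))
      (fun _ => 0) q with hD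
  set H : Fin c → Pt K ((σ × Fin (m + 1)) ⊕ (Fin c × Fin (m + 1))) → AlgebraicClosure K :=
    fun t x => PowerSeries.coeff (k + 1) (aeval (ar (jn (zr x))) (PP a w t)) with hH
  have hcoef : ∀ (x : Pt K ((σ × Fin (m + 1)) ⊕ (Fin c × Fin (m + 1)))) t,
      PowerSeries.coeff (k + 1) (aeval (ar (jn x)) (PP a w t)) =
        ∑ q ∈ C, D t q x * x q + H t x := by
    intro x t
    rw [coeff_taylor (PP a w t) k (ar (jn x)) (ar (jn (zr x)))
      (Sum.elim (fun i => x (Sum.inl (i, s'))) fun _ => 0)]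
    · rw [hC, Finset.sum_image (fun a _ b _ h => (Prod.mk.inj (Sum.inl_injective h)).1),
        Fintype.sum_sum_type]
      simp only [hH, Sum.elim_inr, mul_zero, Finset.sum_const_zero, add_zero]
      congr 1
      refine Finset.sum_congr rfl fun s _ => ?_
      simp only [hD, Sum.elim_inl]
      congr 3
      funext i
      rw [coeff_ar_zero]
      rcases i with i | i
      · simp only [jn, hzr, Sum.elim_inl]
        rw [if_neg h0s]
      · simp only [jn, hzr, Sum.elim_inr]
    · intro i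
      ext j
      rw [map_add, PowerSeries.coeff_C_mul, PowerSeries.coeff_X_pow, coeff_ar, coeff_ar]
      by_cases hj : j < m + 1
      · rw [dif_pos hj, dif_pos hj]
        rcases i with i | i
        · simp only [jn, hzr, Sum.elim_inl]
          by_cases hjk : j = k + 1
          · subst hjk
            rw [if_pos rfl, if_pos rfl, zero_add, mul_one]
          · rw [if_neg, if_neg hjk, mul_zero, add_zero]
            intro h
            apply hjk
            have := congrArg Fin.val h
            simpa [hs'] using this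
        · simp only [jn, hzr, Sum.elim_inr]
          rw [zero_mul, add_zero]
      · rw [dif_neg hj, dif_neg hj, if_neg (by omega), mul_zero, add_zero]
  have key := sLin' M C c (SG a w h W N m k) D H (constr_SG a w h hW _ _ _) ?_ ?_ ?_ ?_
  · rw [← key]
    congr 2
    ext x
    rw [Set.mem_inter_iff, mem_SG, mem_SG]
    constructor
    · rintro ⟨h1, h2, h3⟩
      refine ⟨⟨h1, h2, fun t j hj => h3 t j (by omega)⟩, fun t => ?_⟩
      rw [← hcoef]
      exact h3 t (k + 1) (by omega)
    · rintro ⟨⟨h1, h2, h3⟩, h4⟩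
      refine ⟨h1, h2, fun t j hj => ?_⟩
      rcases Nat.lt_or_ge j (k + 1) with h5 | h5
      · exact h3 t j h5
      · have h6 : j = k + 1 := by omega
        subst h6
        exact (hcoef x t).trans (h4 t)
  · rintro t (q | q)
    · exact (IsPF.poly (pderiv (Sum.inl q.1) (PP a w t))).comp
        (fun (x : Pt K ((σ × Fin (m + 1)) ⊕ (Fin c × Fin (m + 1)))) (i : σ ⊕ Fin c) =>
          jn x (i, 0)) fun i => pf_jn _
    · exact IsPF.zero
  · intro t
    refine pf_coeffK (fun x => jn (zr x)) (fun q => ?_) _ _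
    rcases q with ⟨i | i, j⟩
    · simp only [jn, hzr, Sum.elim_inl]
      by_cases h : j = s'
      · simp only [if_pos h]
        exact IsPF.zero
      · simp only [if_neg h]
        exact IsPF.coord _
    · simp only [jn, hzr, Sum.elim_inr]
      exact IsPF.coord _
  · intro z y hzw
    have h1 : ∀ i, y (Sum.inl (i, 0)) = z (Sum.inl (i, 0)) := fun i => hzw _ fun hc => by
      obtain ⟨v, hv⟩ := (hmC _).1 hc
      exact h0s (Prod.mk.inj (Sum.inl_injective hv)).2
    have h1' : ∀ q, y (Sum.inr q) = z (Sum.inr q) := fun q => hzw _ fun hc => by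
      obtain ⟨v, hv⟩ := (hmC _).1 hc
      exact absurd hv (by simp)
    have h1'' : (fun q => y (Sum.inr q)) = fun q => z (Sum.inr q) := funext h1'
    have h2 : ∀ i, Cg k (ar (jn y) i) (ar (jn z) i) := by
      intro i j hj
      rw [coeff_ar, coeff_ar, dif_pos (by omega), dif_pos (by omega)]
      rcases i with i | i
      · refine hzw _ fun hc => ?_
        obtain ⟨v, hv⟩ := (hmC _).1 hc
        have := congrArg Fin.val (Prod.mk.inj (Sum.inl_injective hv)).2
        simp [hs'] at this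
        omega
      · exact h1' _
    refine ⟨?_, ?_, ?_⟩
    · rintro ⟨⟨h3, h3'⟩, h4, h5⟩
      refine ⟨⟨?_, fun t j hj => absurd hj (Nat.not_lt_zero j)⟩, ?_, fun t j hj => ?_⟩
      · have : (fun i => y (Sum.inl (i, 0))) = fun i => z (Sum.inl (i, 0)) := funext h1
        change (fun i => y (Sum.inl (i, 0))) ∈ W
        rw [this]
        exact h3
      · rw [h1'']
        exact h4
      · rw [cg_aevalK (PP a w t) k _ _ h2 j (by omega)]
        exact h5 t j hj
    · rintro t (q | q)
      · simp only [hD, Sum.elim_inl]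
        congr 2
        funext i
        rcases i with i | i
        · exact h1 i
        · exact h1' _
      · rfl
    · intro t
      simp only [hH]
      have h5 : zr y = zr z := by
        funext q
        rcases q with q | q
        · simp only [hzr, Sum.elim_inl]
          by_cases h : q.2 = s'
          · rw [if_pos h, if_pos h]
          · rw [if_neg h, if_neg h]
            exact hzw _ fun hc => by
              obtain ⟨v, hv⟩ := (hmC _).1 hc
              rw [Sum.inl_injective hv] at h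
              exact h rfl
        · exact h1' q
      rw [h5]
  · rintro z ⟨h1, h2, -⟩ l hl t
    refine (hI _ h1.1).2 l (fun s => ?_) t
    have h3 := hl (Sum.inl (s, s')) ((hmC _).2 ⟨s, rfl⟩)
    rw [← h3]
    refine Finset.sum_congr rfl fun t' _ => ?_
    simp only [hD, Sum.elim_inl]
    congr 1
    unfold PP
    rw [map_sub, Derivation.leibniz, pderiv_X_of_ne (by simp), smul_zero, add_zero, map_sub,
      smul_eq_mul, map_mul, aeval_X]
    have h4 : jn z (Sum.inr t', 0) = 0 := congrFun h2.1 t'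
    rw [h4, zero_mul, sub_zero, pderiv_rename Sum.inl_injective, aeval_rename]
    rfl

theorem chi_SG (a : Fin c → MvPolynomial σ K) (w : MvPolynomial σ K)
    (h : κ → MvPolynomial (Fin c) K)
    {W : Set (Pt K σ)} (hW : Constr W) (hI : Indep a W) (N m : ℕ) :
    ∀ k, k ≤ m → M.χ _ (SG a w h W N m k) * M.L ^ (c * k) =
      M.χ _ (GW a W 0 m) * M.χ _ (GW h {0} N m) := by
  intro k
  induction k with
  | zero =>
    intro _
    rw [SG_zero a w h (fun z hz => (hI z hz).1) N m, Nat.mul_zero, pow_zero, mul_one]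
    exact M.prod _ _ (constr_GW a hW 0 m) (constr_GW h constr_pt0 N m)
  | succ k ih =>
    intro hk
    rw [← ih (by omega), ← chi_SG_step M a w h hW hI N m k hk, Nat.mul_succ, pow_add]
    ring

end Pool.Agent.Q57.MC
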